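import Pool.Agent.helper20.SOL.SpecP

/-! Row `BC1` (MP_cad530_co). -/

set_option autoImplicit false

namespace Pool.Agent.SOL

open Finset

theorem BC1_ev (hBTY : BTY_stmt) (hCRD : CRD_stmt) (hNSB : NSB_stmt) (hNSC : NSC_stmt)
    (hNSI : NSI_stmt) {n k n' k' : ℕ} (h : GenB n k) (h' : GenC n' k')
    (hi : Iso (VB n k) (VC n' k')) : (EvB n k).ncard ≤ (TD n' k' 0).ncard := by
  obtain ⟨_, _, _, a4, a5, _⟩ := hNSB n k h.2.1
  obtain ⟨b1, b2, b3, b4⟩ := hNSC n' k' h'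
  have e := a5 h
  have := hNSI n n' (VB n k) (VC n' k') (hBTY.2.2.2.2.2.2.1 n k h.2.1).1
    (hBTY.2.2.2.2.2.2.1 n' k' h'.2.1).2 (by rw [e]; exact a4) b3 hi
  rw [e] at this
  rw [this.ncard]
  refine Set.ncard_le_ncard ?_ (hCRD.1 n' k' 0)
  intro x hx
  rw [b1] at hx
  exact hx.2

/-- the even vertices with a neighbour -/
theorem BC1_one (hBTY : BTY_stmt) {n : ℕ} (hn : 2 ≤ n) : TD n 0 2 ⊆ EvB n 1 := by
  intro x hx
  obtain ⟨h1, h2, h3⟩ := hx
  have hxV : x ∈ VB n 1 := (hBTY.1 n 1 x).2 ⟨h1, Or.inl (by omega), by omega⟩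
  have hc : 0 < cnt x 1 := by omega
  unfold cnt at hc
  obtain ⟨i, hi⟩ := Finset.card_pos.1 hc
  have hi1 : |x i| = 1 := (Finset.mem_filter.1 hi).2
  have hi2 : x i = 1 ∨ x i = -1 := eq_or_eq_neg_of_abs_eq hi1
  have hi3 : x i * x i = 1 := by rcases hi2 with h | h <;> rw [h] <;> norm_num
  have hdx : dp x x = 2 := by
    rw [hBTY.2.2.1 n x h1, h2, h3]
    norm_num
  have hlx : l1 x = 2 := by
    rw [hBTY.2.2.2.1 n x h1, h2, h3]
    norm_num
  let y : Vec n := fun j => if j = i then x i else 0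
  have hyy : dp y y = 1 := by
    unfold dp
    rw [Finset.sum_eq_single i]
    · show (if i = i then x i else 0) * (if i = i then x i else 0) = 1
      rw [if_pos rfl]
      exact hi3
    · intro j _ hj
      show (if j = i then x i else 0) * (if j = i then x i else 0) = 0
      rw [if_neg hj, zero_mul]
    · intro h
      exact absurd (mem_univ i) h
  have hly : l1 y = 1 := by
    unfold l1
    rw [Finset.sum_eq_single i]
    · show |(if i = i then x i else 0)| = 1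
      rw [if_pos rfl]
      exact hi1
    · intro j _ hj
      show |(if j = i then x i else 0)| = 0
      rw [if_neg hj, abs_zero]
    · intro h
      exact absurd (mem_univ i) h
  have hxy : dp x y = 1 := by
    unfold dp
    rw [Finset.sum_eq_single i]
    · show x i * (if i = i then x i else 0) = 1
      rw [if_pos rfl]
      exact hi3
    · intro j _ hj
      show x j * (if j = i then x i else 0) = 0
      rw [if_neg hj, mul_zero]
    · intro h
      exact absurd (mem_univ i) h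
  have hby : ∀ j, |y j| ≤ 2 := by
    intro j
    show |(if j = i then x i else 0)| ≤ 2
    split_ifs
    · rw [hi1]; norm_num
    · norm_num
  have hsub : ∀ j, |x j - y j| ≤ |x j| := by
    intro j
    show |x j - (if j = i then x i else 0)| ≤ |x j|
    split_ifs with hj
    · subst hj
      rw [sub_self, abs_zero]
      exact abs_nonneg _
    · rw [sub_zero]
  refine ⟨⟨hxV, y, ⟨hby, Or.inr ?_, ?_⟩, ⟨?_, Or.inr ?_, ?_⟩⟩, by rw [hdx]; norm_num⟩
  · rw [hyy]; norm_num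
  · rw [hly]; omega
  · intro j
    exact (hsub j).trans (h1 j)
  · rw [dp_sub_sub, hdx, hxy, hyy]; norm_num
  · have h5 : l1 (x - y) ≤ l1 x := by
      unfold l1
      exact Finset.sum_le_sum fun j _ => hsub j
    rw [hlx] at h5
    exact h5.trans (by omega)

theorem BC1_43 (hCNT : CNT_stmt) (hPAT : PAT_stmt) (hBTY : BTY_stmt) : TD 4 1 2 ⊆ EvB 4 3 := by
  intro x hx
  obtain ⟨h1, h2, h3⟩ := hx
  have h0 : cnt x 0 = 1 := by
    have := hCNT.1 4 x h1
    omega
  have hc : 0 < cnt x 2 := by omega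
  unfold cnt at hc
  obtain ⟨i, hi⟩ := Finset.card_pos.1 hc
  have hi1 : |x i| = 2 := (Finset.mem_filter.1 hi).2
  obtain ⟨y, hy, hxy, _⟩ := hPAT.2.2 4 x 1 0 0 0 1 0 1 0 0 1 h1 (by rw [h2]) (by rw [h3])
    (by rw [h0]) i 2 (by
      intro p q
      split_ifs with h
      · obtain ⟨ha, hb⟩ := h
        rw [← ha, ← hb, hi1]
        decide
      · exact Nat.zero_le _)
  have hV : ∀ z : Vec 4, z ∈ TD 4 1 1 → z ∈ VB 4 3 := by
    rintro z ⟨a, b, c⟩
    exact (hBTY.1 4 3 z).2 ⟨a, Or.inr (by omega), by omega⟩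
  refine ⟨⟨(hBTY.1 4 3 x).2 ⟨h1, Or.inl (by omega), by omega⟩, y, hV y hy, hV _ hxy⟩, ?_⟩
  rw [hBTY.2.2.1 4 x h1, h2, h3]
  norm_num

theorem BC1 (hCNT : CNT_stmt) (hPAT : PAT_stmt) (hBTY : BTY_stmt) (hCRD : CRD_stmt)
    (hNSB : NSB_stmt) (hNSC : NSC_stmt) (hNSI : NSI_stmt) (hNMB : NMB_stmt)
    (hNMC : NMC_stmt) : BC1_stmt := by
  intro n k n' k' hc h' hi
  have hN := hi.ncard
  obtain ⟨c1, _, _, _, _, c4, c5⟩ := hNMC
  obtain ⟨hn3, hk', h3⟩ := h'
  rcases hc with ⟨rfl, hn⟩ | ⟨rfl, rfl⟩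
  · have hG : GenB n 1 := ⟨hn, le_refl 1, Or.inl ⟨rfl, by omega⟩⟩
    have h1 := BC1_ev hBTY hCRD hNSB hNSC hNSI hG ⟨hn3, hk', h3⟩ hi
    have h2 := Set.ncard_le_ncard (BC1_one hBTY hn) ((hBTY.2.2.2.2.2.2.2 n 1).1.subset
      fun x hx => hx.1.1)
    rw [hCRD.2.1 n 0 2 (by omega)] at h2
    rw [hNMB.1 n] at hN
    have hch : n.choose 0 * (n - 0).choose 2 * 2 ^ (0 + 2) = 2 * (n * (n - 1)) := by
      rw [Nat.choose_zero_right, Nat.sub_zero, Nat.choose_two_right]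
      have : 2 ∣ n * (n - 1) := (Nat.even_mul_pred_self n).two_dvd
      omega
    rw [hch] at h2
    obtain ⟨m, rfl⟩ : ∃ m, n = m + 2 := ⟨n - 2, by omega⟩
    have e1 : m + 2 - 1 = m + 1 := rfl
    rw [e1] at h2
    rcases (by omega : k' = 1 ∨ 2 ≤ k') with rfl | hk2
    · rw [c1 n'] at hN
      rw [c5 n'] at h1
      have hnn : m + 2 = n' := by nlinarith
      subst hnn
      nlinarith
    · have h5 := c4 n' k' ⟨hn3, hk', h3⟩ hk2
      nlinarith
  · have hG : GenB 4 3 := ⟨by norm_num, by norm_num, Or.inl ⟨rfl, by norm_num⟩⟩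
    have h1 := BC1_ev hBTY hCRD hNSB hNSC hNSI hG ⟨hn3, hk', h3⟩ hi
    have h2 := Set.ncard_le_ncard (BC1_43 hCNT hPAT hBTY) ((hBTY.2.2.2.2.2.2.2 4 3).1.subset
      fun x hx => hx.1.1)
    rw [hCRD.2.1 4 1 2 (by omega)] at h2
    rw [hNMB.2.2.1] at hN
    have hch : Nat.choose 4 1 * (4 - 1).choose 2 * 2 ^ (1 + 2) = 96 := by decide
    rw [hch] at h2
    rcases (by omega : k' = 1 ∨ 2 ≤ k') with rfl | hk2
    · rw [c1 n'] at hN
      have h6 : n' ^ 2 = 72 := by omega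
      have h7 : n' ≤ 8 := by nlinarith
      interval_cases n' <;> omega
    · have h5 := c4 n' k' ⟨hn3, hk', h3⟩ hk2
      omega

end Pool.Agent.SOL
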