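import Pool.Agent.helper1.SOL.SpecN

set_option autoImplicit false

namespace Pool.Agent.SOL

open Pool.Agent.helper54.SOG Finset

abbrev LSMB_Q : Type := ℤ × ℤ × ℤ × ℤ

abbrev LSMB_T : Type := ℤ × ℤ × ℤ

def LSMB_tv (q : LSMB_Q) : Vec 4 := ![q.1, q.2.1, q.2.2.1, q.2.2.2]

def LSMB_tt (q : LSMB_T) : Vec 3 := ![q.1, q.2.1, q.2.2]

def LSMB_q (x : Vec 4) : LSMB_Q := (x 0, x 1, x 2, x 3)

def LSMB_t (x : Vec 3) : LSMB_T := (x 0, x 1, x 2)

/-- membership test, dimension 4 -/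
def LSMB_is (q : LSMB_Q) : Bool :=
  decide (q.1.natAbs ≤ 2 ∧ q.2.1.natAbs ≤ 2 ∧ q.2.2.1.natAbs ≤ 2 ∧ q.2.2.2.natAbs ≤ 2 ∧
    (q.1 * q.1 + q.2.1 * q.2.1 + q.2.2.1 * q.2.2.1 + q.2.2.2 * q.2.2.2 = 4 ∨
      q.1 * q.1 + q.2.1 * q.2.1 + q.2.2.1 * q.2.2.1 + q.2.2.2 * q.2.2.2 = 3) ∧
    q.1.natAbs + q.2.1.natAbs + q.2.2.1.natAbs + q.2.2.2.natAbs ≤ 4)

/-- membership test, dimension 3 -/
def LSMB_is3 (q : LSMB_T) : Bool :=
  decide (q.1.natAbs ≤ 2 ∧ q.2.1.natAbs ≤ 2 ∧ q.2.2.natAbs ≤ 2 ∧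
    (q.1 * q.1 + q.2.1 * q.2.1 + q.2.2 * q.2.2 = 4 ∨
      q.1 * q.1 + q.2.1 * q.2.1 + q.2.2 * q.2.2 = 3) ∧
    q.1.natAbs + q.2.1.natAbs + q.2.2.natAbs ≤ 3)

def LSMB_L : List LSMB_Q :=
  [(-2, 0, 0, 0), (-1, -1, -1, -1), (-1, -1, -1, 0), (-1, -1, -1, 1), (-1, -1, 0, -1), (-1, -1, 0, 1), (-1, -1, 1, -1), (-1, -1, 1, 0), (-1, -1, 1, 1), (-1, 0, -1, -1), (-1, 0, -1, 1), (-1, 0, 1, -1), (-1, 0, 1, 1), (-1, 1, -1, -1), (-1, 1, -1, 0), (-1, 1, -1, 1), (-1, 1, 0, -1), (-1, 1, 0, 1), (-1, 1, 1, -1), (-1, 1, 1, 0), (-1, 1, 1, 1), (0, -2, 0, 0), (0, -1, -1, -1), (0, -1, -1, 1), (0, -1, 1, -1), (0, -1, 1, 1), (0, 0, -2, 0), (0, 0, 0, -2), (0, 0, 0, 2), (0, 0, 2, 0), (0, 1, -1, -1), (0, 1, -1, 1), (0, 1, 1, -1), (0, 1, 1, 1), (0, 2, 0, 0), (1, -1, -1, -1), (1, -1, -1, 0), (1, -1, -1, 1), (1, -1, 0, -1), (1, -1, 0, 1), (1, -1, 1, -1), (1, -1, 1, 0), (1, -1, 1, 1), (1, 0, -1, -1), (1,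 0, -1, 1), (1, 0, 1, -1), (1, 0, 1, 1), (1, 1, -1, -1), (1, 1, -1, 0), (1, 1, -1, 1), (1, 1, 0, -1), (1, 1, 0, 1), (1, 1, 1, -1), (1, 1, 1, 0), (1, 1, 1, 1), (2, 0, 0, 0)]

def LSMB_L3 : List LSMB_T :=
  [(-2, 0, 0), (-1, -1, -1), (-1, -1, 1), (-1, 1, -1), (-1, 1, 1), (0, -2, 0), (0, 0, -2), (0, 0, 2), (0, 2, 0), (1, -1, -1), (1, -1, 1), (1, 1, -1), (1, 1, 1), (2, 0, 0)]

def LSMB_R : List ℤ := [-2, -1, 0, 1, 2]

theorem LSMB_mem (x : Vec 4) : x ∈ VB 4 2 ↔ LSMB_is (LSMB_q x) = true := by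
  unfold VB LSMB_is LSMB_q dp l1
  simp only [Set.mem_ofPred_eq, Fin.sum_univ_four, Fin.forall_fin_succ, decide_eq_true_eq]
  have h0 : ((x 0).natAbs : ℤ) = |x 0| := Int.natCast_natAbs _
  have h1 : ((x 1).natAbs : ℤ) = |x 1| := Int.natCast_natAbs _
  have h2 : ((x 2).natAbs : ℤ) = |x 2| := Int.natCast_natAbs _
  have h3 : ((x 3).natAbs : ℤ) = |x 3| := Int.natCast_natAbs _
  have e1 : (Fin.succ 0 : Fin 4) = 1 := rfl
  have e2 : (Fin.succ (Fin.succ 0) : Fin 4) = 2 := rfl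
  have e3 : (Fin.succ (Fin.succ (Fin.succ 0)) : Fin 4) = 3 := rfl
  rw [e1, e2, e3]
  generalize x 0 * x 0 + x 1 * x 1 + x 2 * x 2 + x 3 * x 3 = N
  constructor
  · rintro ⟨⟨a, b, c, d, -⟩, e, f⟩
    refine ⟨by omega, by omega, by omega, by omega, ?_, ?_⟩
    · push_cast at e; omega
    · push_cast at f; omega
  · rintro ⟨a, b, c, d, e, f⟩
    refine ⟨⟨by omega, by omega, by omega, by omega, fun i => i.elim0⟩, ?_, ?_⟩
    · push_cast; omega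
    · push_cast; omega

theorem LSMB_mem3 (x : Vec 3) : x ∈ VB 3 2 ↔ LSMB_is3 (LSMB_t x) = true := by
  unfold VB LSMB_is3 LSMB_t dp l1
  simp only [Set.mem_ofPred_eq, Fin.sum_univ_three, Fin.forall_fin_succ, decide_eq_true_eq]
  have h0 : ((x 0).natAbs : ℤ) = |x 0| := Int.natCast_natAbs _
  have h1 : ((x 1).natAbs : ℤ) = |x 1| := Int.natCast_natAbs _
  have h2 : ((x 2).natAbs : ℤ) = |x 2| := Int.natCast_natAbs _
  have e1 : (Fin.succ 0 : Fin 3) = 1 := rfl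
  have e2 : (Fin.succ (Fin.succ 0) : Fin 3) = 2 := rfl
  rw [e1, e2]
  generalize x 0 * x 0 + x 1 * x 1 + x 2 * x 2 = N
  constructor
  · rintro ⟨⟨a, b, c, -⟩, e, f⟩
    refine ⟨by omega, by omega, by omega, ?_, ?_⟩
    · push_cast at e; omega
    · push_cast at f; omega
  · rintro ⟨a, b, c, e, f⟩
    refine ⟨⟨by omega, by omega, by omega, fun i => i.elim0⟩, ?_, ?_⟩
    · push_cast; omega
    · push_cast; omega

theorem LSMB_R_mem {a : ℤ} (h : a.natAbs ≤ 2) : a ∈ LSMB_R := by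
  have h1 : a = -2 ∨ a = -1 ∨ a = 0 ∨ a = 1 ∨ a = 2 := by omega
  unfold LSMB_R
  rcases h1 with rfl | rfl | rfl | rfl | rfl <;> decide

theorem LSMB_list0 : ∀ a ∈ LSMB_R, ∀ b ∈ LSMB_R, ∀ c ∈ LSMB_R, ∀ d ∈ LSMB_R,
    LSMB_is (a, b, c, d) = true → (a, b, c, d) ∈ LSMB_L := by decide +kernel

theorem LSMB_list03 : ∀ a ∈ LSMB_R, ∀ b ∈ LSMB_R, ∀ c ∈ LSMB_R,
    LSMB_is3 (a, b, c) = true → (a, b, c) ∈ LSMB_L3 := by decide +kernel

theorem LSMB_list {q : LSMB_Q} (h : LSMB_is q = true) : q ∈ LSMB_L := by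
  obtain ⟨a, b, c, d⟩ := q
  have h1 := h
  unfold LSMB_is at h1
  simp only [decide_eq_true_eq] at h1
  exact LSMB_list0 a (LSMB_R_mem h1.1) b (LSMB_R_mem h1.2.1) c (LSMB_R_mem h1.2.2.1) d
    (LSMB_R_mem h1.2.2.2.1) h

theorem LSMB_list3 {q : LSMB_T} (h : LSMB_is3 q = true) : q ∈ LSMB_L3 := by
  obtain ⟨a, b, c⟩ := q
  have h1 := h
  unfold LSMB_is3 at h1
  simp only [decide_eq_true_eq] at h1
  exact LSMB_list03 a (LSMB_R_mem h1.1) b (LSMB_R_mem h1.2.1) c (LSMB_R_mem h1.2.2.1) h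

theorem LSMB_q_sub (x y : Vec 4) : LSMB_q (x - y) = LSMB_q x - LSMB_q y := rfl

theorem LSMB_t_sub (x y : Vec 3) : LSMB_t (x - y) = LSMB_t x - LSMB_t y := rfl

theorem LSMB_q_inj {x y : Vec 4} (h : LSMB_q x = LSMB_q y) : x = y := by
  unfold LSMB_q at h
  simp only [Prod.mk.injEq] at h
  obtain ⟨h0, h1, h2, h3⟩ := h
  funext i
  fin_cases i
  · exact h0
  · exact h1
  · exact h2
  · exact h3

theorem LSMB_t_inj {x y : Vec 3} (h : LSMB_t x = LSMB_t y) : x = y := by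
  unfold LSMB_t at h
  simp only [Prod.mk.injEq] at h
  obtain ⟨h0, h1, h2⟩ := h
  funext i
  fin_cases i
  · exact h0
  · exact h1
  · exact h2

theorem LSMB_q_tv (q : LSMB_Q) : LSMB_q (LSMB_tv q) = q := rfl

theorem LSMB_t_tt (q : LSMB_T) : LSMB_t (LSMB_tt q) = q := rfl

theorem LSMB_tv_q (x : Vec 4) : LSMB_tv (LSMB_q x) = x := LSMB_q_inj (LSMB_q_tv _)

theorem LSMB_tt_t (x : Vec 3) : LSMB_tt (LSMB_t x) = x := LSMB_t_inj (LSMB_t_tt _)

/-- candidates for the third vertex -/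
def LSMB_cand (x y : LSMB_Q) : List LSMB_Q :=
  [y - x, y - x + (1, 0, 0, 0), y - x + (0, 1, 0, 0), y - x + (0, 0, 1, 0), y - x + (0, 0, 0, 1)]

theorem LSMB_nodup : LSMB_L.Nodup := by decide +kernel

/-- a vector, its index and the bit mask of its neighbours -/
def LSMB_LM : List (LSMB_Q × ℕ × ℕ) :=
  [((-2, 0, 0, 0), 0, 2097150),
   ((-1, -1, -1, -1), 1, 34563170377),
   ((-1, -1, -1, 0), 2, 68788699265),
   ((-1, -1, -1, 1), 3, 137776627971),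
   ((-1, -1, 0, -1), 4, 275014287393),
   ((-1, -1, 0, 1), 5, 550026477585),
   ((-1, -1, 1, -1), 6, 1100185075971),
   ((-1, -1, 1, 0), 7, 2199562747909),
   ((-1, -1, 1, 1), 8, 4398854963273),
   ((-1, 0, -1, -1), 9, 8796294351873),
   ((-1, 0, -1, 1), 10, 17592521593345),
   ((-1, 0, 1, -1), 11, 35185043182081),
   ((-1, 0, 1, 1), 12, 70369549487105),
   ((-1, 1, -1, -1), 13, 140754869846019),
   ((-1, 1, -1, 0), 14, 281492224212997),
   ((-1, 1, -1, 1), 15, 562967469891593),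
   ((-1, 1, 0, -1), 16, 1125917221060625),
   ((-1, 1, 0, 1), 17, 2251817262055457),
   ((-1, 1, 1, -1), 18, 4503617479385153),
   ((-1, 1, 1, 0), 19, 9007216971497601),
   ((-1, 1, 1, 1), 20, 18014416494952705),
   ((0, -2, 0, 0), 21, 8761796198910),
   ((0, -1, -1, -1), 22, 1302331392),
   ((0, -1, -1, 1), 23, 2522873856),
   ((0, -1, 1, -1), 24, 5005901824),
   ((0, -1, 1, 1), 25, 9422503936),
   ((0, 0, -2, 0), 26, 1011794449589774),
   ((0, 0, 0, -2), 27, 5815631626971730),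
   ((0, 0, 0, 2), 28, 20922205228668200),
   ((0, 0, 2, 0), 29, 31638460026329536),
   ((0, 1, -1, -1), 30, 23827841024),
   ((0, 1, -1, 1), 31, 27187478528),
   ((0, 1, 1, -1), 32, 27531411456),
   ((0, 1, 1, 1), 33, 24461180928),
   ((0, 2, 0, 0), 34, 35888075638824960),
   ((1, -1, -1, -1), 35, 36170771661324290),
   ((1, -1, -1, 0), 36, 36312471088136196),
   ((1, -1, -1, 1), 37, 36596179716276232),
   ((1, -1, 0, -1), 38, 37155246817935376),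
   ((1, -1, 0, 1), 39, 38280871981088800),
   ((1, -1, 1, -1), 40, 40536829725769792),
   ((1, -1, 1, 0), 41, 45036065532149888),
   ((1, -1, 1, 1), 42, 54044433286430976),
   ((1, 0, -1, -1), 43, 36081573778424320),
   ((1, 0, -1, 1), 44, 36107962191709184),
   ((1, 0, 1, -1), 45, 36107962527254528),
   ((1, 0, 1, 1), 46, 36081574382407680),
   ((1, 1, -1, -1), 47, 41095398340698112),
   ((1, 1, -1, 0), 48, 45036082240176128),
   ((1, 1, -1, 1), 49, 54184087971201024),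
   ((1, 1, 0, -1), 50, 38280889024708608),
   ((1, 1, 0, 1), 51, 37155264130056192),
   ((1, 1, 1, -1), 52, 54185050379649024),
   ((1, 1, 1, 0), 53, 36312488736194560),
   ((1, 1, 1, 1), 54, 41099762632491008),
   ((2, 0, 0, 0), 55, 36028762659225600)]

theorem LSMB_LM_fst : LSMB_LM.map Prod.fst = LSMB_L := by decide +kernel

theorem LSMB_LM_idx : LSMB_LM.map (fun p => p.2.1) = List.range 56 := by decide +kernel

theorem LSMB_ex {x : LSMB_Q} (hx : x ∈ LSMB_L) : ∃ p ∈ LSMB_LM, p.1 = x := by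
  rw [← LSMB_LM_fst, List.mem_map] at hx
  exact hx

theorem LSMB_idx_inj {p q : LSMB_Q × ℕ × ℕ} (hp : p ∈ LSMB_LM) (hq : q ∈ LSMB_LM) (h : p.2.1 = q.2.1) : p = q := by
  have h1 : (LSMB_LM.map (fun p => p.2.1)).Nodup := by
    rw [LSMB_LM_idx]
    exact List.nodup_range
  exact List.inj_on_of_nodup_map h1 hp hq h

/-- a fast form of the test for a difference -/
def LSMB_fs (x y : LSMB_Q) : Bool :=
  let a := (x.1 - y.1).natAbs
  let b := (x.2.1 - y.2.1).natAbs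
  let c := (x.2.2.1 - y.2.2.1).natAbs
  let d := (x.2.2.2 - y.2.2.2).natAbs
  Nat.ble (a + b + c + d) 4 && (Nat.beq (a * a + b * b + c * c + d * d) 4 || Nat.beq (a * a + b * b + c * c + d * d) 3)

theorem LSMB_fs_eq (x y : LSMB_Q) : LSMB_fs x y = LSMB_is (x - y) := by
  obtain ⟨x1, x2, x3, x4⟩ := x
  obtain ⟨y1, y2, y3, y4⟩ := y
  rw [Bool.eq_iff_iff]
  unfold LSMB_fs LSMB_is
  simp only [Bool.and_eq_true, Bool.or_eq_true, Nat.ble_eq, Nat.beq_eq, Prod.mk_sub_mk, decide_eq_true_eq]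
  generalize x1 - y1 = a
  generalize x2 - y2 = b
  generalize x3 - y3 = c
  generalize x4 - y4 = d
  have ha : ((a.natAbs * a.natAbs : ℕ) : ℤ) = a * a := by push_cast; rw [abs_mul_abs_self]
  have hb : ((b.natAbs * b.natAbs : ℕ) : ℤ) = b * b := by push_cast; rw [abs_mul_abs_self]
  have hc : ((c.natAbs * c.natAbs : ℕ) : ℤ) = c * c := by push_cast; rw [abs_mul_abs_self]
  have hd : ((d.natAbs * d.natAbs : ℕ) : ℤ) = d * d := by push_cast; rw [abs_mul_abs_self]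
  rw [← ha, ← hb, ← hc, ← hd]
  constructor
  · rintro ⟨h1, h2⟩
    have h3 : a.natAbs * a.natAbs + b.natAbs * b.natAbs + c.natAbs * c.natAbs + d.natAbs * d.natAbs ≤ 4 := by omega
    have k1 : a.natAbs ≤ 2 := by nlinarith
    have k2 : b.natAbs ≤ 2 := by nlinarith
    have k3 : c.natAbs ≤ 2 := by nlinarith
    have k4 : d.natAbs ≤ 2 := by nlinarith
    refine ⟨k1, k2, k3, k4, ?_, h1⟩
    rcases h2 with h2 | h2
    · left
      exact_mod_cast h2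
    · right
      exact_mod_cast h2
  · rintro ⟨_, _, _, _, h2, h1⟩
    refine ⟨h1, ?_⟩
    rcases h2 with h2 | h2
    · left
      exact_mod_cast h2
    · right
      exact_mod_cast h2

theorem LSMB_mask0 : (LSMB_LM.all fun p => LSMB_LM.all fun q => (Nat.testBit p.2.2 q.2.1 == LSMB_fs p.1 q.1)) = true := by
  decide +kernel

theorem LSMB_mask {p q : LSMB_Q × ℕ × ℕ} (hp : p ∈ LSMB_LM) (hq : q ∈ LSMB_LM) :
    LSMB_is (p.1 - q.1) = Nat.testBit p.2.2 q.2.1 := by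
  have h := List.all_eq_true.1 (List.all_eq_true.1 LSMB_mask0 p hp) q hq
  rw [beq_iff_eq] at h
  rw [h, LSMB_fs_eq]

theorem LSMB_chk0 : (LSMB_LM.all fun p => LSMB_LM.all fun q => (!(Nat.testBit p.2.2 q.2.1) ||
    LSMB_LM.any fun r => (Nat.beq (Nat.land p.2.2 r.2.2) (2 ^ q.2.1) && (Nat.testBit q.2.2 r.2.1 &&
      (!(Nat.beq r.2.1 p.2.1) && !(Nat.testBit p.2.2 r.2.1)))))) = true := by
  decide +kernel

theorem LSMB_check : ∀ x ∈ LSMB_L, ∀ y ∈ LSMB_L, LSMB_is (x - y) = true →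
    ∃ z ∈ LSMB_L, LSMB_is (y - z) = true ∧ z ≠ x ∧ LSMB_is (x - z) = false ∧
      ∀ v ∈ LSMB_L, LSMB_is (x - v) = true → LSMB_is (z - v) = true → v = y := by
  intro x hx y hy hxy
  obtain ⟨p, hp, rfl⟩ := LSMB_ex hx
  obtain ⟨q, hq, rfl⟩ := LSMB_ex hy
  have h := List.all_eq_true.1 (List.all_eq_true.1 LSMB_chk0 p hp) q hq
  rw [LSMB_mask hp hq] at hxy
  rw [hxy, Bool.not_true, Bool.false_or, List.any_eq_true] at h
  obtain ⟨r, hr, h⟩ := h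
  simp only [Bool.and_eq_true, Bool.not_eq_true', Nat.beq_eq] at h
  obtain ⟨h1, h2, h3, h4⟩ := h
  refine ⟨r.1, ?_, ?_, ?_, ?_, ?_⟩
  · rw [← LSMB_LM_fst]
    exact List.mem_map_of_mem hr
  · rw [LSMB_mask hq hr]
    exact h2
  · intro h5
    have h6 : r = p := by
      have h7 : LSMB_is (r.1 - r.1) = Nat.testBit r.2.2 r.2.1 := LSMB_mask hr hr
      have h8 : LSMB_is (q.1 - r.1) = Nat.testBit q.2.2 r.2.1 := LSMB_mask hq hr
      have h9 : (LSMB_LM.map Prod.fst).Nodup := by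
        rw [LSMB_LM_fst]
        exact LSMB_nodup
      exact List.inj_on_of_nodup_map h9 hr hp h5
    rw [h6, Nat.beq_refl] at h3
    exact Bool.noConfusion h3
  · rw [LSMB_mask hp hr]
    exact h4
  · intro v hv hv1 hv2
    obtain ⟨s, hs, rfl⟩ := LSMB_ex hv
    rw [LSMB_mask hp hs] at hv1
    rw [LSMB_mask hr hs] at hv2
    have h5 : Nat.testBit (Nat.land p.2.2 r.2.2) s.2.1 = true := by
      have := Nat.testBit_and p.2.2 r.2.2 s.2.1
      rw [hv1, hv2] at this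
      exact this
    rw [h1, Nat.testBit_two_pow] at h5
    have h6 : q.2.1 = s.2.1 := by simpa using h5
    rw [LSMB_idx_inj hq hs h6]

theorem LSMB_check3 : ∀ z ∈ LSMB_L3, LSMB_is3 ((2, 0, 0) - z) = true → z ≠ (1, 1, 1) →
    LSMB_is3 ((1, 1, 1) - z) = false → ∃ v ∈ LSMB_L3, LSMB_is3 v = true ∧
      LSMB_is3 ((1, 1, 1) - v) = true ∧ LSMB_is3 (z - v) = true ∧ v ≠ (2, 0, 0) := by decide +kernel

theorem LSMB_check4 : ∀ z ∈ LSMB_L, LSMB_is ((1, 1, 1, 1) - z) = true → z ≠ (2, 0, 0, 0) →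
    LSMB_is ((2, 0, 0, 0) - z) = false → (∀ v ∈ LSMB_L, LSMB_is ((2, 0, 0, 0) - v) = true →
      LSMB_is (z - v) = true → v = (1, 1, 1, 1)) → z = (1, 1, 1, 1) - (2, 0, 0, 0) := by
  decide +kernel

theorem LSMB_allL : ∀ z ∈ LSMB_L, LSMB_is z = true := by decide +kernel

theorem LSMB_NB (x : Vec 4) : NB (VB 4 2) x =
    LSMB_tv '' ((LSMB_L.toFinset.filter fun q => LSMB_is (LSMB_q x - q) = true : Finset LSMB_Q) :
      Set LSMB_Q) := by
  ext y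
  unfold NB
  simp only [Set.mem_ofPred_eq, Set.mem_image, Finset.coe_filter, List.mem_toFinset]
  constructor
  · rintro ⟨h1, h2⟩
    rw [LSMB_mem] at h1 h2
    rw [LSMB_q_sub] at h2
    exact ⟨LSMB_q y, ⟨LSMB_list h1, h2⟩, LSMB_tv_q y⟩
  · rintro ⟨q, ⟨h1, h2⟩, rfl⟩
    rw [LSMB_mem, LSMB_mem, LSMB_q_sub, LSMB_q_tv]
    exact ⟨LSMB_allL q h1, h2⟩

theorem LSMB_tv_inj : Function.Injective LSMB_tv := by
  intro a b h
  have := congrArg LSMB_q h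
  rwa [LSMB_q_tv, LSMB_q_tv] at this

theorem LSMB_ncard (x : Vec 4) : (NB (VB 4 2) x).ncard =
    (LSMB_L.toFinset.filter fun q => LSMB_is (LSMB_q x - q) = true).card := by
  rw [LSMB_NB, Set.ncard_image_of_injective _ LSMB_tv_inj, Set.ncard_coe_finset]

theorem SMBL : SMB_stmt := by
  refine ⟨⟨?_, ?_, ?_, ?_⟩, ?_, ⟨?_, ?_, ?_⟩, ?_⟩
  · exact (LSMB_mem3 _).2 (by decide +kernel)
  · exact (LSMB_mem3 _).2 (by decide +kernel)
  · exact (LSMB_mem3 _).2 (by decide +kernel)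
  · rw [Set.eq_empty_iff_forall_notMem]
    rintro z ⟨h1, h2, h3, h4, h5⟩
    rw [LSMB_mem3] at h1 h2 h4
    rw [LSMB_t_sub] at h2 h4
    obtain ⟨v, hv, hv1, hv2, hv3, hv4⟩ := LSMB_check3 (LSMB_t z) (LSMB_list3 h1) h2
      (fun h => h3 (LSMB_t_inj h)) (Bool.eq_false_iff.2 h4)
    apply hv4
    have h6 := h5 (LSMB_tt v) ((LSMB_mem3 _).2 hv1)
      ((LSMB_mem3 _).2 (by rw [LSMB_t_sub, LSMB_t_tt]; exact hv2))
      ((LSMB_mem3 _).2 (by rw [LSMB_t_sub, LSMB_t_tt]; exact hv3))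
    have h7 := congrArg LSMB_t h6
    rw [LSMB_t_tt] at h7
    exact h7
  · rintro x y ⟨h1, h2, h3, h4⟩
    rw [LSMB_mem] at h1 h2 h3
    rw [LSMB_q_sub] at h3
    obtain ⟨z, hz, hz2, hz3, hz4, hz5⟩ := LSMB_check _ (LSMB_list h1) _ (LSMB_list h2) h3
    have hz1 := LSMB_allL z hz
    rw [Set.eq_empty_iff_forall_notMem] at h4
    apply h4 (LSMB_tv z)
    refine ⟨(LSMB_mem _).2 hz1, (LSMB_mem _).2 ?_, ?_, ?_, ?_⟩
    · rw [LSMB_q_sub, LSMB_q_tv]; exact hz2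
    · rintro rfl
      exact hz3 (LSMB_q_tv z).symm
    · rw [LSMB_mem, LSMB_q_sub, LSMB_q_tv, hz4]
      exact Bool.false_ne_true
    · intro v hv hv1 hv2
      rw [LSMB_mem] at hv hv1 hv2
      rw [LSMB_q_sub] at hv1 hv2
      rw [LSMB_q_tv] at hv2
      exact LSMB_q_inj (hz5 _ (LSMB_list hv) hv1 hv2)
  · exact (LSMB_mem _).2 (by decide +kernel)
  · exact (LSMB_mem _).2 (by decide +kernel)
  · rw [LSMB_ncard, LSMB_ncard]
    have e1 : (LSMB_L.toFinset.filter fun q => LSMB_is ((2, 0, 0, 0) - q) = true).card = 20 := by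
      decide +kernel
    have e2 : (LSMB_L.toFinset.filter fun q => LSMB_is ((1, 1, 1, 0) - q) = true).card = 6 := by
      decide +kernel
    intro h
    have h' : (LSMB_L.toFinset.filter fun q => LSMB_is ((2, 0, 0, 0) - q) = true).card =
      (LSMB_L.toFinset.filter fun q => LSMB_is ((1, 1, 1, 0) - q) = true).card := h
    rw [e1, e2] at h'
    omega
  · refine ⟨LSMB_tv (2, 0, 0, 0), LSMB_tv (1, 1, 1, 1), (LSMB_mem _).2 (by decide +kernel),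
      (LSMB_mem _).2 (by decide +kernel), (LSMB_mem _).2 (by decide +kernel), ?_⟩
    rintro z ⟨h1, h2, h3, h4, h5⟩
    rw [LSMB_mem] at h1 h2 h4
    rw [LSMB_q_sub, LSMB_q_tv] at h2 h4
    apply LSMB_q_inj
    rw [LSMB_q_sub, LSMB_q_tv, LSMB_q_tv]
    refine LSMB_check4 _ (LSMB_list h1) h2 ?_ (Bool.eq_false_iff.2 h4) ?_
    · intro h
      apply h3
      rw [← h, LSMB_tv_q]
    · intro v hv hv1 hv2
      have h6 := h5 (LSMB_tv v) ((LSMB_mem _).2 (LSMB_allL v hv))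
        ((LSMB_mem _).2 (by rw [LSMB_q_sub, LSMB_q_tv, LSMB_q_tv]; exact hv1))
        ((LSMB_mem _).2 (by rw [LSMB_q_sub, LSMB_q_tv]; exact hv2))
      have h7 := congrArg LSMB_q h6
      rw [LSMB_q_tv, LSMB_q_tv] at h7
      exact h7

end Pool.Agent.SOL
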