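import Pool.Agent.helper20.SOL.SpecP

/-! Row `PBB` (MP_cad530_co). -/

set_option autoImplicit false

namespace Pool.Agent.SOL

open Finset

theorem PBB_ev (hBTY : BTY_stmt) (hNSB : NSB_stmt) (hNSI : NSI_stmt) {n k n' k' : ℕ}
    (h : GenB n k) (h' : GenB n' k') (hi : Iso (VB n k) (VB n' k')) :
    Iso (EvB n k) (EvB n' k') := by
  obtain ⟨_, _, _, a4, a5, _⟩ := hNSB n k h.2.1
  obtain ⟨_, _, _, b4, b5, _⟩ := hNSB n' k' h'.2.1
  have e := a5 h
  have e' := b5 h'
  have := hNSI n n' (VB n k) (VB n' k') (hBTY.2.2.2.2.2.2.1 n k h.2.1).1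
    (hBTY.2.2.2.2.2.2.1 n' k' h'.2.1).1 (by rw [e]; exact a4) (by rw [e']; exact b4) hi
  rwa [e, e'] at this

theorem PBB_gen (hNSB : NSB_stmt) (hGSO : GSO_stmt) {n k n' k' : ℕ}
    (h : GenB n k) (h' : GenB n' k') (hD : GenD n k) (hi : Iso (EvB n k) (EvB n' k')) :
    k ∣ k' ∧ n ≤ n' := by
  obtain ⟨a1, a2, a3, _, _, _⟩ := hNSB n k h.2.1
  obtain ⟨_, _, _, _, _, b6⟩ := hNSB n' k' h'.2.1
  obtain ⟨c1, c2, _⟩ := hGSO n k n' 2 k' n' (EvB n k) (EvB n' k') hD a1 a2 a3 b6 hi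
  exact ⟨c1, c2⟩

theorem PBB (hBTY : BTY_stmt) (hNSB : NSB_stmt) (hNSI : NSI_stmt) (hGSO : GSO_stmt)
    (hNMB : NMB_stmt) : PBB_stmt := by
  intro n k n' k' h h' hi
  have he := PBB_ev hBTY hNSB hNSI h h' hi
  have hex : ∀ n k : ℕ, GenB n k → GenD n k ∨ (n = 2 ∧ k = 1) ∨ (n = 3 ∧ k = 1) ∨ (n = 4 ∧ k = 3) := by
    intro n k h
    obtain ⟨h1, h2, h3⟩ := h
    unfold GenD
    rcases h3 with ⟨h3, h4⟩ | ⟨h3, h4, h5⟩
    · by_cases h6 : 4 ≤ n
      · by_cases h7 : n = 4 ∧ k = 3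
        · exact Or.inr (Or.inr (Or.inr h7))
        · left
          refine ⟨h6, ?_⟩
          omega
      · right
        omega
    · left
      refine ⟨by omega, ?_⟩
      omega
  have hN := hi.ncard
  have n1 := hNMB.1
  have n43 : (VB 4 3).ncard = 144 := hNMB.2.2.1
  have n21 : (VB 2 1).ncard = 8 := by rw [n1 2]; norm_num
  have n31 : (VB 3 1).ncard = 18 := by rw [n1 3]; norm_num
  have n41 : (VB 4 1).ncard = 32 := by rw [n1 4]; norm_num
  rcases hex n k h with hD | hD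
  · have c := PBB_gen hNSB hGSO h h' hD he
    rcases hex n' k' h' with hD' | hD'
    · have c' := PBB_gen hNSB hGSO h' h hD' he.symm
      exact ⟨le_antisymm c.2 c'.2, Nat.dvd_antisymm c.1 c'.1⟩
    · exfalso
      have h4 := hD.1
      rcases hD' with ⟨rfl, rfl⟩ | ⟨rfl, rfl⟩ | ⟨rfl, rfl⟩
      · omega
      · omega
      · have hn : n = 4 := by omega
        subst hn
        have hk : k ≤ 3 := Nat.le_of_dvd (by norm_num) c.1
        have hk0 := hD.pos
        have hd := hD.2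
        have : k = 1 := by omega
        subst this
        omega
  · rcases hex n' k' h' with hD' | hD'
    · exfalso
      have c' := PBB_gen hNSB hGSO h' h hD' he.symm
      have h4 := hD'.1
      rcases hD with ⟨rfl, rfl⟩ | ⟨rfl, rfl⟩ | ⟨rfl, rfl⟩
      · omega
      · omega
      · have hn : n' = 4 := by omega
        subst hn
        have hk : k' ≤ 3 := Nat.le_of_dvd (by norm_num) c'.1
        have hk0 := hD'.pos
        have hd := hD'.2
        have : k' = 1 := by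
          rcases (by omega : k' = 1 ∨ k' = 2 ∨ k' = 3) with h5 | h5 | h5
          · exact h5
          · subst h5
            have := c'.1
            omega
          · omega
        subst this
        omega
    · rcases hD with ⟨rfl, rfl⟩ | ⟨rfl, rfl⟩ | ⟨rfl, rfl⟩ <;>
        rcases hD' with ⟨rfl, rfl⟩ | ⟨rfl, rfl⟩ | ⟨rfl, rfl⟩ <;>
        first
          | exact ⟨rfl, rfl⟩
          | (exfalso; omega)

end Pool.Agent.SOL
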