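import Pool.Agent.helper20.SOL.SpecE

/-!
# Row sol:ME6b: the vertices of `Γ(E_6, 4)` and the emptiness for `k ≥ 5`
-/

set_option autoImplicit false
set_option linter.unusedVariables false

namespace Pool.Agent.SOL

open Pool.Agent.helper54.SOG Finset

open scoped BigOperators

/-- six coordinates -/
structure LME6b_V where
  a : ℤ
  b : ℤ
  c : ℤ
  d : ℤ
  e : ℤ
  f : ℤ

def LME6b_dp (x y : LME6b_V) : ℤ :=
  x.a * y.a + (x.b * y.b + (x.c * y.c + (x.d * y.d + (x.e * y.e + 3 * (x.f * y.f)))))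

def LME6b_add (x y : LME6b_V) : LME6b_V :=
  ⟨x.a + y.a, x.b + y.b, x.c + y.c, x.d + y.d, x.e + y.e, x.f + y.f⟩

def LME6b_isR (x : LME6b_V) : Bool :=
  x.a % 2 == x.f % 2 && (x.b % 2 == x.f % 2 && (x.c % 2 == x.f % 2 && (x.d % 2 == x.f % 2 &&
    (x.e % 2 == x.f % 2 && ((x.a + x.b + x.c + x.d + x.e + x.f) % 4 == 0 &&
      LME6b_dp x x == 8)))))

def LME6b_cands : List LME6b_V :=
  ([(-2 : ℤ), 0, 2].flatMap fun a => [(-2 : ℤ), 0, 2].flatMap fun b =>
    [(-2 : ℤ), 0, 2].flatMap fun c => [(-2 : ℤ), 0, 2].flatMap fun d =>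
      [(-2 : ℤ), 0, 2].map fun e => ⟨a, b, c, d, e, 0⟩) ++
  ([(-1 : ℤ), 1].flatMap fun a => [(-1 : ℤ), 1].flatMap fun b =>
    [(-1 : ℤ), 1].flatMap fun c => [(-1 : ℤ), 1].flatMap fun d =>
      [(-1 : ℤ), 1].flatMap fun e => [(-1 : ℤ), 1].map fun f => ⟨a, b, c, d, e, f⟩)

/-- a root, its index, the bit mask of the orthogonal roots and the bit mask of the roots with inner product `4` -/
abbrev LME6b_E : Type := LME6b_V × ℕ × ℕ × ℕ

def LME6b_LM : List LME6b_E :=
  [(⟨-2, -2, 0, 0, 0, 0⟩, 0, 18446462603094900864, 280375465099134),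
   (⟨-2, 0, -2, 0, 0, 0⟩, 1, 277849842904020557376, 4238617392431549),
   (⟨-2, 0, 0, -2, 0, 0⟩, 2, 944516530270967541024, 14411299044475611),
   (⟨-2, 0, 0, 0, -2, 0⟩, 3, 1574146179459373495056, 24018831786935527),
   (⟨-2, 0, 0, 0, 2, 0⟩, 4, 3148220302420760228616, 48037663573870823),
   (⟨-2, 0, 0, 2, 0, 0⟩, 5, 3777849951659875216644, 57645196731617499),
   (⟨-2, 0, 2, 0, 0, 0⟩, 6, 4444516639153615281666, 67817879411630269),
   (⟨-2, 2, 0, 0, 0, 0⟩, 7, 4703920019721223651329, 71776123289075838),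
   (⟨0, -2, -2, 0, 0, 0⟩, 8, 293999469939956391996, 1080880416128491011),
   (⟨0, -2, 0, -2, 0, 0⟩, 9, 955498276853815283802, 3674993392507186437),
   (⟨0, -2, 0, 0, -2, 0⟩, 10, 1580247149980149762150, 6124988990376686345),
   (⟨0, -2, 0, 0, 2, 0⟩, 11, 3142119332667038254182, 12249977976458392337),
   (⟨0, -2, 0, 2, 0, 0⟩, 12, 3766868205690670907994, 14699973625880128801),
   (⟨0, -2, 2, 0, 0, 0⟩, 13, 4428367012347795734844, 17294086731129167425),
   (⟨0, 0, -2, -2, 0, 0⟩, 14, 1111145055192088710297, 55557252752679469830),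
   (⟨0, 0, -2, 0, -2, 0⟩, 15, 1666717582511109640869, 92595421254465766666),
   (⟨0, 0, -2, 0, 2, 0⟩, 16, 3055648900678804345509, 185190842500274342162),
   (⟨0, 0, -2, 2, 0, 0⟩, 17, 3611221427893953383577, 222229011054002802978),
   (⟨0, 0, 0, -2, -2, 0⟩, 18, 1888946593547788231107, 314824432169963800076),
   (⟨0, 0, 0, -2, 2, 0⟩, 19, 2833419889901815734723, 629648864322609302036),
   (⟨0, 0, 0, 2, -2, 0⟩, 20, 2833419889901815734723, 1259297728645218604072),
   (⟨0, 0, 0, 2, 2, 0⟩, 21, 1888946593547788231107, 2518595457151890823216),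
   (⟨0, 0, 2, -2, 0, 0⟩, 22, 3611221427893953383577, 888916043921684701764),
   (⟨0, 0, 2, 0, -2, 0⟩, 23, 3055648900678804345509, 1481526739690558071880),
   (⟨0, 0, 2, 0, 2, 0⟩, 24, 1666717582511109640869, 2963053479104052996176),
   (⟨0, 0, 2, 2, 0, 0⟩, 25, 1111145055192088710297, 3555664174924843462752),
   (⟨0, 2, -2, 0, 0, 0⟩, 26, 4428367012347795734844, 276705383790653194370),
   (⟨0, 2, 0, -2, 0, 0⟩, 27, 3766868205690670907994, 940798303552959955076),
   (⟨0, 2, 0, 0, -2, 0⟩, 28, 3142119332667038254182, 1567997172225880129672),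
   (⟨0, 2, 0, 0, 2, 0⟩, 29, 1580247149980149762150, 3135994343898581893264),
   (⟨0, 2, 0, 2, 0, 0⟩, 30, 955498276853815283802, 3763193212622249001120),
   (⟨0, 2, 2, 0, 0, 0⟩, 31, 293999469939956391996, 4427286132511412846784),
   (⟨2, -2, 0, 0, 0, 0⟩, 32, 4703920019721223651329, 18374687020837519104),
   (⟨2, 0, -2, 0, 0, 0⟩, 33, 4444516639153615281666, 277782025828028367104),
   (⟨2, 0, 0, -2, 0, 0⟩, 34, 3777849951659875216644, 944458885995858510336),
   (⟨2, 0, 0, 0, -2, 0⟩, 35, 3148220302420760228616, 1574098142750951375872),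
   (⟨2, 0, 0, 0, 2, 0⟩, 36, 1574146179459373495056, 3148196284509765306368),
   (⟨2, 0, 0, 2, 0, 0⟩, 37, 944516530270967541024, 3777835541162194243584),
   (⟨2, 0, 2, 0, 0, 0⟩, 38, 277849842904020557376, 4444512401073354317824),
   (⟨2, 2, 0, 0, 0, 0⟩, 39, 18446462603094900864, 4703919739341329399808),
   (⟨-1, -1, -1, -1, -1, 1⟩, 40, 1927793147822846195952, 20038317941241202447),
   (⟨-1, -1, -1, -1, 1, -1⟩, 41, 2734892546643502478568, 39859552704740805399),
   (⟨-1, -1, -1, 1, -1, -1⟩, 42, 2695828921696607627988, 79067888861605696811),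
   (⟨-1, -1, -1, 1, 1, 1⟩, 43, 1791070460361508972236, 157267494490268178739),
   (⟨-1, -1, 1, -1, -1, -1⟩, 44, 2473599950519373715890, 302164942208343746125),
   (⟨-1, -1, 1, -1, 1, 1⟩, 45, 1349216684761957094826, 600857394699213220437),
   (⟨-1, -1, 1, 1, -1, 1⟩, 46, 761091048759263398806, 1191297848011597558889),
   (⟨-1, -1, 1, 1, 1, -1⟩, 47, 415160224362811557774, 2368706528801653274737),
   (⟨-1, 1, -1, -1, -1, -1⟩, 48, 2387130310188622088049, 405929724802951856270),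
   (⟨-1, 1, -1, -1, 1, 1⟩, 49, 1228161246472014564201, 756502325587436191894),
   (⟨-1, 1, -1, 1, -1, 1⟩, 50, 674623783371807216981, 1346941723369308061866),
   (⟨-1, 1, -1, 1, 1, -1⟩, 51, 449749189192972818765, 2472467617038362411186),
   (⟨-1, 1, 1, -1, -1, 1⟩, 52, 452404905709034595891, 1790524920956503457996),
   (⟨-1, 1, 1, -1, 1, -1⟩, 53, 669384126859317701163, 2695551185975645831380),
   (⟨-1, 1, 1, 1, -1, -1⟩, 54, 1220481202081900180503, 2734741512132739727592),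
   (⟨-1, 1, 1, 1, 1, 1⟩, 55, 2381244668843220744207, 1927691062505155592432),
   (⟨1, -1, -1, -1, -1, -1⟩, 56, 2381244668843220744207, 413322665130211985152),
   (⟨1, -1, -1, -1, 1, 1⟩, 57, 1220481202081900180503, 766981639068419967744),
   (⟨1, -1, -1, 1, -1, 1⟩, 58, 669384126859317701163, 1357133932459275228416),
   (⟨1, -1, -1, 1, 1, -1⟩, 59, 452404905709034595891, 2478855691852176365824),
   (⟨1, -1, 1, -1, -1, 1⟩, 60, 449749189192972818765, 1798994503333889451520),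
   (⟨1, -1, 1, -1, 1, -1⟩, 61, 674623783371807216981, 2698494007219409398272),
   (⟨1, -1, 1, 1, -1, -1⟩, 62, 1228161246472014564201, 2733090661841813648384),
   (⟨1, -1, 1, 1, 1, 1⟩, 63, 2387130310188622088049, 1920082794366239782912),
   (⟨1, 1, -1, -1, -1, 1⟩, 64, 415160224362811557774, 1920052844893982474240),
   (⟨1, 1, -1, -1, 1, -1⟩, 65, 761091048759263398806, 2733084027582620975104),
   (⟨1, 1, -1, 1, -1, -1⟩, 66, 1349216684761957094826, 2698505391929264603136),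
   (⟨1, 1, -1, 1, 1, 1⟩, 67, 2473599950519373715890, 1799027619960065294336),
   (⟨1, 1, 1, -1, -1, -1⟩, 68, 1791070460361508972236, 2478880614042422214656),
   (⟨1, 1, 1, -1, 1, 1⟩, 69, 2695828921696607627988, 1357173857554679726080),
   (⟨1, 1, 1, 1, -1, 1⟩, 70, 2734892546643502478568, 767022760604967370752),
   (⟨1, 1, 1, 1, 1, -1⟩, 71, 1927793147822846195952, 413351774571223580672)]

/-- the bit of index `n` -/
def LME6b_tb (m n : ℕ) : Bool := !(Nat.beq (Nat.land 1 (Nat.shiftRight m n)) 0)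

theorem LME6b_tb_eq (m n : ℕ) : LME6b_tb m n = Nat.testBit m n := by
  unfold LME6b_tb Nat.testBit
  rw [Bool.eq_iff_iff, bne_iff_ne, Bool.not_eq_true', Bool.eq_false_iff, Ne, Nat.beq_eq]
  rfl

def LME6b_veq (x y : LME6b_V) : Bool :=
  decide (x.a = y.a) && (decide (x.b = y.b) && (decide (x.c = y.c) && (decide (x.d = y.d) && (decide (x.e = y.e) &&
    decide (x.f = y.f)))))

theorem LME6b_veq_iff {x y : LME6b_V} (h : LME6b_veq x y = true) : x = y := by
  unfold LME6b_veq at h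
  simp only [Bool.and_eq_true, decide_eq_true_eq] at h
  obtain ⟨h1, h2, h3, h4, h5, h6⟩ := h
  cases x
  cases y
  simp only at h1 h2 h3 h4 h5 h6
  rw [h1, h2, h3, h4, h5, h6]

theorem LME6b_all : (LME6b_cands.all fun v => !(LME6b_isR v) || LME6b_LM.any fun p => LME6b_veq v p.1) = true := by
  decide +kernel

theorem LME6b_allR : (LME6b_LM.all fun p => LME6b_isR p.1) = true := by
  decide +kernel

theorem LME6b_mask0 : (LME6b_LM.all fun p => LME6b_LM.all fun q =>
    let z := LME6b_dp p.1 q.1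
    (LME6b_tb p.2.2.1 q.2.1 == decide (z = 0)) && (LME6b_tb p.2.2.2 q.2.1 == decide (z = 4))) = true := by
  decide +kernel

theorem LME6b_bnd0 : (LME6b_LM.all fun p => Nat.ble (p.2.1 + 1) 72) = true := by
  decide +kernel

theorem LME6b_idx : LME6b_LM.map (fun p => p.2.1) = List.range 72 := by
  decide +kernel

theorem LME6b_maskO {p q : LME6b_E} (hp : p ∈ LME6b_LM) (hq : q ∈ LME6b_LM) :
    LME6b_tb p.2.2.1 q.2.1 = true ↔ LME6b_dp p.1 q.1 = 0 := by
  have h := List.all_eq_true.1 (List.all_eq_true.1 LME6b_mask0 p hp) q hq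
  simp only [Bool.and_eq_true, beq_iff_eq] at h
  rw [h.1, decide_eq_true_eq]

theorem LME6b_maskP {p q : LME6b_E} (hp : p ∈ LME6b_LM) (hq : q ∈ LME6b_LM) :
    LME6b_tb p.2.2.2 q.2.1 = true ↔ LME6b_dp p.1 q.1 = 4 := by
  have h := List.all_eq_true.1 (List.all_eq_true.1 LME6b_mask0 p hp) q hq
  simp only [Bool.and_eq_true, beq_iff_eq] at h
  rw [h.2, decide_eq_true_eq]

def LME6b_go (F : List LME6b_E → ℕ → Bool) : List LME6b_E → ℕ → Bool
  | [], _ => true
  | p :: r, Y => F (r.filter fun w => LME6b_tb p.2.2.1 w.2.1) (Nat.land Y p.2.2.2) && LME6b_go F r Y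

/-- the search: `Y` is the mask of the roots which have inner product `4` with all chosen roots -/
def LME6b_chk : ℕ → List LME6b_E → ℕ → Bool
  | 0 => fun _ Y => !(Nat.beq Y 0)
  | n + 1 => LME6b_go (LME6b_chk n)

theorem LME6b_c4 : LME6b_chk 4 LME6b_LM (2 ^ 72 - 1) = true := by
  decide +kernel

theorem LME6b_c5 : LME6b_chk 5 LME6b_LM 0 = true := by
  decide +kernel

/-- search for a decomposition of `2 v` -/
def LME6b_fnd (v : LME6b_E) : Bool :=
  LME6b_LM.any fun a => LME6b_tb v.2.2.2 a.2.1 && LME6b_LM.any fun b => LME6b_tb (Nat.land v.2.2.2 a.2.2.1) b.2.1 &&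
    LME6b_LM.any fun c => LME6b_tb (Nat.land (Nat.land v.2.2.2 a.2.2.1) b.2.2.1) c.2.1 &&
      LME6b_LM.any fun d => LME6b_tb (Nat.land (Nat.land (Nat.land v.2.2.2 a.2.2.1) b.2.2.1) c.2.2.1) d.2.1

theorem LME6b_f : LME6b_LM.all LME6b_fnd = true := by
  decide +kernel

/-- the coordinates of a vector -/
def LME6b_toV (x : Vec 8) : LME6b_V := ⟨x 0, x 1, x 2, x 3, x 4, x 5⟩

def LME6b_ofV (v : LME6b_V) : Vec 8 := ![v.a, v.b, v.c, v.d, v.e, v.f, v.f, -v.f]

theorem LME6b_dp8 (x y : Vec 8) : dp x y = x 0 * y 0 + x 1 * y 1 + x 2 * y 2 + x 3 * y 3 + x 4 * y 4 +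
    x 5 * y 5 + x 6 * y 6 + x 7 * y 7 := by
  unfold dp
  rw [Fin.sum_univ_eight]

/-- the linear conditions -/
def LME6b_lin (x : Vec 8) : Prop := x 6 + x 7 = 0 ∧ x 5 = x 6

theorem LME6b_dp_eq {x y : Vec 8} (hx : LME6b_lin x) (hy : LME6b_lin y) :
    dp x y = LME6b_dp (LME6b_toV x) (LME6b_toV y) := by
  rw [LME6b_dp8]
  have h1 : x 6 = x 5 := hx.2.symm
  have h2 : y 6 = y 5 := hy.2.symm
  have h3 : x 7 = - x 5 := by have := hx.1; omega
  have h4 : y 7 = - y 5 := by have := hy.1; omega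
  rw [h1, h2, h3, h4]
  simp only [LME6b_dp, LME6b_toV]
  ring

theorem LME6b_lin_R6 {x : Vec 8} (hx : x ∈ R6) : LME6b_lin x := ⟨hx.2.1, hx.2.2.1⟩

theorem LME6b_isR_iff {v : LME6b_V} : LME6b_isR v = true ↔
    (v.a % 2 = v.f % 2 ∧ v.b % 2 = v.f % 2 ∧ v.c % 2 = v.f % 2 ∧ v.d % 2 = v.f % 2 ∧
      v.e % 2 = v.f % 2 ∧ (v.a + v.b + v.c + v.d + v.e + v.f) % 4 = 0 ∧ LME6b_dp v v = 8) := by
  simp [LME6b_isR]

theorem LME6b_toV_isR {x : Vec 8} (hx : x ∈ R6) : LME6b_isR (LME6b_toV x) = true := by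
  have hl := LME6b_lin_R6 hx
  obtain ⟨⟨hp, hs⟩, h67, h56, hn⟩ := hx
  rw [LME6b_isR_iff]
  rw [Fin.sum_univ_eight] at hs
  refine ⟨hp 0 5, hp 1 5, hp 2 5, hp 3 5, hp 4 5, ?_, ?_⟩
  · simp only [LME6b_toV]
    omega
  · rw [← LME6b_dp_eq hl hl, hn]
    norm_num

theorem LME6b_ofV_R6 {v : LME6b_V} (hv : LME6b_isR v = true) : LME6b_ofV v ∈ R6 := by
  rw [LME6b_isR_iff] at hv
  obtain ⟨h1, h2, h3, h4, h5, h6, h7⟩ := hv
  have hl : LME6b_lin (LME6b_ofV v) := by
    simp [LME6b_lin, LME6b_ofV]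
  refine ⟨⟨?_, ?_⟩, hl.1, hl.2, ?_⟩
  · have key : ∀ i : Fin 8, LME6b_ofV v i % 2 = v.f % 2 := by
      intro i
      fin_cases i
      · exact h1
      · exact h2
      · exact h3
      · exact h4
      · exact h5
      · rfl
      · rfl
      · show (-v.f) % 2 = v.f % 2
        omega
    intro i j
    rw [key, key]
  · rw [Fin.sum_univ_eight]
    show (v.a + v.b + v.c + v.d + v.e + v.f + v.f + -v.f) % 4 = 0
    omega
  · rw [LME6b_dp_eq hl hl]
    have : LME6b_toV (LME6b_ofV v) = v := rfl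
    rw [this, h7]
    norm_num

theorem LME6b_toV_ofV (v : LME6b_V) : LME6b_toV (LME6b_ofV v) = v := rfl

theorem LME6b_ofV_toV {x : Vec 8} (hx : LME6b_lin x) : LME6b_ofV (LME6b_toV x) = x := by
  funext i
  have h1 := hx.1
  have h2 := hx.2
  fin_cases i
  · rfl
  · rfl
  · rfl
  · rfl
  · rfl
  · rfl
  · exact h2
  · show -(x 5) = x 7
    omega

theorem LME6b_inj {x y : Vec 8} (hx : LME6b_lin x) (hy : LME6b_lin y) (h : LME6b_toV x = LME6b_toV y) :
    x = y := by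
  rw [← LME6b_ofV_toV hx, ← LME6b_ofV_toV hy, h]

theorem LME6b_bd {a r : ℤ} (h : a * a + r = 8) (hr : 0 ≤ r) : -2 ≤ a ∧ a ≤ 2 := by
  constructor <;> nlinarith

theorem LME6b_bd3 {a r : ℤ} (h : 3 * (a * a) + r = 8) (hr : 0 ≤ r) : -1 ≤ a ∧ a ≤ 1 := by
  constructor <;> nlinarith

theorem LME6b_evn {a f : ℤ} (h : -2 ≤ a ∧ a ≤ 2) (hf : f = 0) (hp : a % 2 = f % 2) : a ∈ [(-2 : ℤ), 0, 2] := by
  simp only [List.mem_cons, List.not_mem_nil, or_false]
  omega

theorem LME6b_odd {a f : ℤ} (h : -2 ≤ a ∧ a ≤ 2) (hf : f = -1 ∨ f = 1) (hp : a % 2 = f % 2) : a ∈ [(-1 : ℤ), 1] := by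
  simp only [List.mem_cons, List.not_mem_nil, or_false]
  omega

theorem LME6b_memL {v : LME6b_V} (hv : LME6b_isR v = true) : ∃ p ∈ LME6b_LM, p.1 = v := by
  obtain ⟨p1, p2, p3, p4, p5, _, h8⟩ := LME6b_isR_iff.1 hv
  have ha := mul_self_nonneg v.a
  have hb := mul_self_nonneg v.b
  have hc := mul_self_nonneg v.c
  have hd := mul_self_nonneg v.d
  have he := mul_self_nonneg v.e
  have hf := mul_self_nonneg v.f
  unfold LME6b_dp at h8
  have ba := LME6b_bd (a := v.a) (r := 8 - v.a * v.a) (by ring) (by linarith)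
  have bb := LME6b_bd (a := v.b) (r := 8 - v.b * v.b) (by ring) (by linarith)
  have bc := LME6b_bd (a := v.c) (r := 8 - v.c * v.c) (by ring) (by linarith)
  have bd := LME6b_bd (a := v.d) (r := 8 - v.d * v.d) (by ring) (by linarith)
  have be := LME6b_bd (a := v.e) (r := 8 - v.e * v.e) (by ring) (by linarith)
  have bf := LME6b_bd3 (a := v.f) (r := 8 - 3 * (v.f * v.f)) (by ring) (by linarith)
  have hcand : v ∈ LME6b_cands := by
    unfold LME6b_cands
    rw [List.mem_append]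
    by_cases h0 : v.f = 0
    · left
      refine List.mem_flatMap.2 ⟨v.a, LME6b_evn ba h0 p1, ?_⟩
      refine List.mem_flatMap.2 ⟨v.b, LME6b_evn bb h0 p2, ?_⟩
      refine List.mem_flatMap.2 ⟨v.c, LME6b_evn bc h0 p3, ?_⟩
      refine List.mem_flatMap.2 ⟨v.d, LME6b_evn bd h0 p4, ?_⟩
      refine List.mem_map.2 ⟨v.e, LME6b_evn be h0 p5, ?_⟩
      cases v
      simp only at h0
      rw [h0]
    · right
      have h1 : v.f = -1 ∨ v.f = 1 := by omega
      refine List.mem_flatMap.2 ⟨v.a, LME6b_odd ba h1 p1, ?_⟩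
      refine List.mem_flatMap.2 ⟨v.b, LME6b_odd bb h1 p2, ?_⟩
      refine List.mem_flatMap.2 ⟨v.c, LME6b_odd bc h1 p3, ?_⟩
      refine List.mem_flatMap.2 ⟨v.d, LME6b_odd bd h1 p4, ?_⟩
      refine List.mem_flatMap.2 ⟨v.e, LME6b_odd be h1 p5, ?_⟩
      refine List.mem_map.2 ⟨v.f, ?_, rfl⟩
      simp only [List.mem_cons, List.not_mem_nil, or_false]
      exact h1
  have h9 := List.all_eq_true.1 LME6b_all v hcand
  rw [hv, Bool.not_true, Bool.false_or, List.any_eq_true] at h9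
  obtain ⟨p, hp, h10⟩ := h9
  exact ⟨p, hp, (LME6b_veq_iff h10).symm⟩

theorem LME6b_isR_of_mem {p : LME6b_E} (hp : p ∈ LME6b_LM) : LME6b_isR p.1 = true :=
  List.all_eq_true.1 LME6b_allR p hp

theorem LME6b_tb_land (x y n : ℕ) : LME6b_tb (Nat.land x y) n = true ↔ LME6b_tb x n = true ∧ LME6b_tb y n = true := by
  rw [LME6b_tb_eq, LME6b_tb_eq, LME6b_tb_eq]
  have h : Nat.testBit (Nat.land x y) n = (Nat.testBit x n && Nat.testBit y n) := Nat.testBit_and x y n
  rw [h, Bool.and_eq_true]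

/-- the soundness of the search -/
theorem LME6b_sound : ∀ (n : ℕ) (l : List LME6b_E) (Y : ℕ), (∀ p ∈ l, p ∈ LME6b_LM) →
    LME6b_chk n l Y = true → ∀ S : Finset (Vec 8), S.card = n → (∀ x ∈ S, x ∈ R6) →
      (∀ x ∈ S, ∀ y ∈ S, x ≠ y → dp x y = 0) → (∀ x ∈ S, ∃ p ∈ l, p.1 = LME6b_toV x) →
        ∃ i : ℕ, LME6b_tb Y i = true ∧ ∀ x ∈ S, ∃ p ∈ LME6b_LM, p.1 = LME6b_toV x ∧ LME6b_tb p.2.2.2 i = true := by
  intro n
  induction n with
  | zero =>
    intro l Y _ h S hS _ _ _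
    rw [card_eq_zero] at hS
    subst hS
    have h' : (!(Nat.beq Y 0)) = true := h
    have h2 : Y ≠ 0 := by
      intro h3
      rw [h3] at h'
      exact absurd h' (by decide)
    obtain ⟨i, hi⟩ := Nat.exists_testBit_of_ne_zero h2
    exact ⟨i, by rw [LME6b_tb_eq]; exact hi, fun x hx => absurd hx (Finset.notMem_empty x)⟩
  | succ n ih =>
    intro l
    induction l with
    | nil =>
      intro Y _ _ S hS _ _ hl
      exfalso
      have hne : S.Nonempty := by
        rw [← card_pos, hS]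
        exact Nat.succ_pos n
      obtain ⟨x, hx⟩ := hne
      obtain ⟨p, hp, _⟩ := hl x hx
      exact List.not_mem_nil hp
    | cons v r ihr =>
      intro Y hLM h S hS hR hO hl
      have h' : (LME6b_chk n (r.filter fun w => LME6b_tb v.2.2.1 w.2.1) (Nat.land Y v.2.2.2) &&
        LME6b_chk (n + 1) r Y) = true := h
      rw [Bool.and_eq_true] at h'
      have hvLM : v ∈ LME6b_LM := hLM v List.mem_cons_self
      by_cases hv : ∃ x ∈ S, LME6b_toV x = v.1
      · obtain ⟨x, hx, hxv⟩ := hv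
        obtain ⟨i, hi, hiS⟩ := ih (r.filter fun w => LME6b_tb v.2.2.1 w.2.1) (Nat.land Y v.2.2.2)
          (fun p hp => hLM p (List.mem_cons_of_mem _ (List.mem_filter.1 hp).1)) h'.1
          (S.erase x)
          (by rw [card_erase_of_mem hx, hS]; rfl)
          (fun y hy => hR y (mem_of_mem_erase hy))
          (fun y hy z hz => hO y (mem_of_mem_erase hy) z (mem_of_mem_erase hz))
          (by
            intro y hy
            have hyS := mem_of_mem_erase hy
            have hyx : y ≠ x := ne_of_mem_erase hy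
            obtain ⟨p, hp, hpy⟩ := hl y hyS
            refine ⟨p, ?_, hpy⟩
            rw [List.mem_filter]
            constructor
            · rcases List.mem_cons.1 hp with h2 | h2
              · exfalso
                exact hyx (LME6b_inj (LME6b_lin_R6 (hR y hyS)) (LME6b_lin_R6 (hR x hx))
                  (by rw [← hpy, h2, hxv]))
              · exact h2
            · have h3 := hO x hx y hyS hyx.symm
              rw [LME6b_dp_eq (LME6b_lin_R6 (hR x hx)) (LME6b_lin_R6 (hR y hyS)), hxv, ← hpy] at h3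
              exact (LME6b_maskO hvLM (hLM p hp)).2 h3)
        rw [LME6b_tb_land] at hi
        refine ⟨i, hi.1, ?_⟩
        intro z hz
        by_cases hzx : z = x
        · exact ⟨v, hvLM, by rw [hzx, hxv], hi.2⟩
        · exact hiS z (mem_erase.2 ⟨hzx, hz⟩)
      · refine ihr Y (fun p hp => hLM p (List.mem_cons_of_mem _ hp)) h'.2 S hS hR hO ?_
        intro x hx
        obtain ⟨p, hp, hpx⟩ := hl x hx
        rcases List.mem_cons.1 hp with h2 | h2
        · exact absurd ⟨x, hx, by rw [← hpx, h2]⟩ hv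
        · exact ⟨p, h2, hpx⟩

theorem LME6b_mask_lt : (LME6b_LM.all fun p => Nat.blt p.2.2.2 (2 ^ 72)) = true := by
  decide +kernel

theorem LME6b_of_idx {i : ℕ} (hi : i < 72) : ∃ q ∈ LME6b_LM, q.2.1 = i := by
  have h : i ∈ LME6b_LM.map (fun p => p.2.1) := by
    rw [LME6b_idx, List.mem_range]
    exact hi
  rw [List.mem_map] at h
  exact h

theorem LME6b_ofV_dp (v w : LME6b_V) : dp (LME6b_ofV v) (LME6b_ofV w) = LME6b_dp v w := by
  have h1 : ∀ v, LME6b_lin (LME6b_ofV v) := by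
    intro v
    simp [LME6b_lin, LME6b_ofV]
  rw [LME6b_dp_eq (h1 v) (h1 w)]
  rfl

theorem LME6b_dp_comm (x y : Vec 8) : dp x y = dp y x := by
  rw [LME6b_dp8, LME6b_dp8]
  ring

theorem LME6b_dp_add_left (x y z : Vec 8) : dp (x + y) z = dp x z + dp y z := by
  rw [LME6b_dp8, LME6b_dp8, LME6b_dp8]
  simp only [Pi.add_apply]
  ring

theorem LME6b_dp_sum (S : Finset (Vec 8)) (z : Vec 8) : dp (∑ x ∈ S, x) z = ∑ x ∈ S, dp x z := by
  classical
  induction S using Finset.induction_on with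
  | empty =>
    rw [sum_empty, sum_empty, LME6b_dp8]
    simp
  | insert a s ha ih => rw [sum_insert ha, sum_insert ha, LME6b_dp_add_left, ih]

theorem LME6b_zero {z : Vec 8} (h : dp z z = 0) : z = 0 := by
  rw [LME6b_dp8] at h
  have h0 := mul_self_nonneg (z 0)
  have h1 := mul_self_nonneg (z 1)
  have h2 := mul_self_nonneg (z 2)
  have h3 := mul_self_nonneg (z 3)
  have h4 := mul_self_nonneg (z 4)
  have h5 := mul_self_nonneg (z 5)
  have h6 := mul_self_nonneg (z 6)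
  have h7 := mul_self_nonneg (z 7)
  have k0 : z 0 = 0 := mul_self_eq_zero.1 (by linarith)
  have k1 : z 1 = 0 := mul_self_eq_zero.1 (by linarith)
  have k2 : z 2 = 0 := mul_self_eq_zero.1 (by linarith)
  have k3 : z 3 = 0 := mul_self_eq_zero.1 (by linarith)
  have k4 : z 4 = 0 := mul_self_eq_zero.1 (by linarith)
  have k5 : z 5 = 0 := mul_self_eq_zero.1 (by linarith)
  have k6 : z 6 = 0 := mul_self_eq_zero.1 (by linarith)
  have k7 : z 7 = 0 := mul_self_eq_zero.1 (by linarith)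
  funext i
  fin_cases i
  · exact k0
  · exact k1
  · exact k2
  · exact k3
  · exact k4
  · exact k5
  · exact k6
  · exact k7

theorem LME6b_norm {x : Vec 8} (hx : x ∈ R6) : dp x x = 8 := by
  have := hx.2.2.2
  rw [this]
  norm_num

theorem LME6b_final {s w : Vec 8} (h2 : dp s w = 16) (h3 : dp s s = 32) (h4 : dp w w = 8) : s = w + w := by
  have h5 : s - (w + w) = 0 := by
    apply LME6b_zero
    have e3 : dp (s - (w + w)) (s - (w + w)) = dp s s - 4 * dp s w + 4 * dp w w := by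
      simp only [LME6b_dp8, Pi.sub_apply, Pi.add_apply]
      ring
    rw [e3, h2, h3, h4]
    norm_num
  exact sub_eq_zero.1 h5

theorem LME6b_half {S : Finset (Vec 8)} (hS : S.card = 4) (hR : ∀ x ∈ S, x ∈ R6)
    (hO : ∀ x ∈ S, ∀ y ∈ S, x ≠ y → dp x y = 0) {y : LME6b_E} (hy : y ∈ LME6b_LM)
    (h : ∀ x ∈ S, LME6b_dp (LME6b_toV x) y.1 = 4) : ∃ y ∈ R6, ∑ x ∈ S, x = y + y := by
  have hyR : LME6b_ofV y.1 ∈ R6 := LME6b_ofV_R6 (LME6b_isR_of_mem hy)
  refine ⟨_, hyR, ?_⟩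
  set w := LME6b_ofV y.1 with hw
  set s := ∑ x ∈ S, x with hs
  have h1 : ∀ x ∈ S, dp x w = 4 := by
    intro x hx
    rw [LME6b_dp_eq (LME6b_lin_R6 (hR x hx)) (LME6b_lin_R6 hyR)]
    exact h x hx
  have h2 : dp s w = 16 := by
    rw [hs, LME6b_dp_sum, sum_congr rfl h1, sum_const, hS]
    norm_num
  have h3 : dp s s = 32 := by
    have e1 : ∀ x ∈ S, dp x s = 8 := by
      intro x hx
      rw [LME6b_dp_comm, hs, LME6b_dp_sum, sum_eq_single x]
      · exact LME6b_norm (hR x hx)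
      · intro z hz hzx
        exact hO z hz x hx hzx
      · intro h9
        exact absurd hx h9
    have e2 : dp s s = ∑ x ∈ S, dp x s := by
      conv_lhs => rw [hs]
      rw [LME6b_dp_sum]
    rw [e2, sum_congr rfl e1, sum_const, hS]
    norm_num
  exact LME6b_final h2 h3 (LME6b_norm hyR)

theorem LME6b_back (hCLQ : CLQ_stmt) {y : Vec 8} (hy : y ∈ R6) : y + y ∈ VE R6 4 := by
  obtain ⟨v, hv, hvy⟩ := LME6b_memL (LME6b_toV_isR hy)
  have h1 := List.all_eq_true.1 LME6b_f v hv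
  unfold LME6b_fnd at h1
  obtain ⟨a, ha, h1⟩ := List.any_eq_true.1 h1
  rw [Bool.and_eq_true] at h1
  obtain ⟨ha4, h1⟩ := h1
  obtain ⟨b, hb, h1⟩ := List.any_eq_true.1 h1
  rw [Bool.and_eq_true] at h1
  obtain ⟨hb4, h1⟩ := h1
  obtain ⟨c, hc, h1⟩ := List.any_eq_true.1 h1
  rw [Bool.and_eq_true] at h1
  obtain ⟨hc4, h1⟩ := h1
  obtain ⟨d, hd, hd4⟩ := List.any_eq_true.1 h1
  simp only [LME6b_tb_land] at hb4 hc4 hd4
  have va := (LME6b_maskP hv ha).1 ha4
  have vb := (LME6b_maskP hv hb).1 hb4.1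
  have vc := (LME6b_maskP hv hc).1 hc4.1.1
  have vd := (LME6b_maskP hv hd).1 hd4.1.1.1
  have ab := (LME6b_maskO ha hb).1 hb4.2
  have ac := (LME6b_maskO ha hc).1 hc4.1.2
  have bc := (LME6b_maskO hb hc).1 hc4.2
  have ad := (LME6b_maskO ha hd).1 hd4.1.1.2
  have bd := (LME6b_maskO hb hd).1 hd4.1.2
  have cd := (LME6b_maskO hc hd).1 hd4.2
  have aR := LME6b_ofV_R6 (LME6b_isR_of_mem ha)
  have bR := LME6b_ofV_R6 (LME6b_isR_of_mem hb)
  have cR := LME6b_ofV_R6 (LME6b_isR_of_mem hc)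
  have dR := LME6b_ofV_R6 (LME6b_isR_of_mem hd)
  have hyv : LME6b_ofV v.1 = y := by
    rw [hvy, LME6b_ofV_toV (LME6b_lin_R6 hy)]
  have hfin := hCLQ R6 [LME6b_ofV a.1, LME6b_ofV b.1, LME6b_ofV c.1, LME6b_ofV d.1] (by
      intro x hx
      have hx' : x ∈ R6 := by
        simp only [List.mem_cons, List.not_mem_nil, or_false] at hx
        rcases hx with rfl | rfl | rfl | rfl
        · exact aR
        · exact bR
        · exact cR
        · exact dR
      refine ⟨hx', ?_⟩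
      have := hx'.2.2.2
      rw [this]
      norm_num) (by
      simp only [List.pairwise_cons, List.mem_cons, List.not_mem_nil, or_false, forall_eq_or_imp,
        forall_eq, LME6b_ofV_dp]
      exact ⟨⟨ab, ac, ad⟩, ⟨bc, bd⟩, cd, by simp, List.Pairwise.nil⟩)
  have hsum : [LME6b_ofV a.1, LME6b_ofV b.1, LME6b_ofV c.1, LME6b_ofV d.1].sum = y + y := by
    simp only [List.sum_cons, List.sum_nil, add_zero]
    apply LME6b_final
    · rw [← hyv]
      simp only [LME6b_dp_add_left]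
      rw [LME6b_dp_comm _ (LME6b_ofV v.1), LME6b_dp_comm _ (LME6b_ofV v.1), LME6b_dp_comm _ (LME6b_ofV v.1),
        LME6b_dp_comm _ (LME6b_ofV v.1), LME6b_ofV_dp, LME6b_ofV_dp, LME6b_ofV_dp, LME6b_ofV_dp, va, vb, vc, vd]
      norm_num
    · have e : ∀ x y z w : Vec 8, dp (x + (y + (z + w))) (x + (y + (z + w))) = dp x x + dp y y + dp z z + dp w w +
          2 * (dp x y + dp x z + dp x w + dp y z + dp y w + dp z w) := by
        intro x y z w
        simp only [LME6b_dp8, Pi.add_apply]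
        ring
      rw [e, LME6b_norm aR, LME6b_norm bR, LME6b_norm cR, LME6b_norm dR]
      simp only [LME6b_ofV_dp]
      rw [ab, ac, ad, bc, bd, cd]
      norm_num
    · exact LME6b_norm hy
  rw [hsum] at hfin
  exact hfin

theorem ME6bL (hREP : REP_stmt) (hCTE : CTE_stmt) (hPRD : PRD_stmt) (hCLQ : CLQ_stmt) : ME6b_stmt := by
  refine ⟨fun x => ⟨?_, ?_⟩, ?_⟩
  · rintro ⟨S, hS, hR, hO, rfl⟩
    obtain ⟨i, hi, h⟩ := LME6b_sound 4 LME6b_LM (2 ^ 72 - 1) (fun p hp => hp) LME6b_c4 S hS hR hO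
      (fun x hx => LME6b_memL (LME6b_toV_isR (hR x hx)))
    have hi72 : i < 72 := by
      rw [LME6b_tb_eq] at hi
      by_contra hcon
      push Not at hcon
      have h2 : (2 ^ 72 - 1 : ℕ) < 2 ^ i := by
        calc (2 ^ 72 - 1 : ℕ) < 2 ^ 72 := by norm_num
          _ ≤ 2 ^ i := Nat.pow_le_pow_right (by norm_num) hcon
      rw [Nat.testBit_lt_two_pow h2] at hi
      exact Bool.noConfusion hi
    obtain ⟨q, hq, hqi⟩ := LME6b_of_idx hi72
    refine LME6b_half hS hR hO hq ?_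
    intro x hx
    obtain ⟨p, hp, hpx, hpi⟩ := h x hx
    rw [← hqi, LME6b_maskP hp hq] at hpi
    rw [← hpx]
    exact hpi
  · rintro ⟨y, hy, rfl⟩
    exact LME6b_back hCLQ hy
  · intro k hk
    rw [Set.eq_empty_iff_forall_notMem]
    rintro x ⟨S, hS, hR, hO, -⟩
    obtain ⟨T, hTS, hT⟩ := exists_subset_card_eq (s := S) (n := 5) (by omega)
    obtain ⟨i, hi, _⟩ := LME6b_sound 5 LME6b_LM 0 (fun p hp => hp) LME6b_c5 T hT
      (fun x hx => hR x (hTS hx)) (fun x hx y hy => hO x (hTS hx) y (hTS hy))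
      (fun x hx => LME6b_memL (LME6b_toV_isR (hR x (hTS hx))))
    rw [LME6b_tb_eq, Nat.zero_testBit] at hi
    exact Bool.noConfusion hi

end Pool.Agent.SOL
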