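import Pool.Agent.helper1.SOL.Bridge
import Pool.Agent.helper1.CAD.A1

/-! Good edges in type A (MP_cad530_co). -/

namespace Pool.Agent.SOL

open Finset Pool.Agent.helper1.CAD

theorem AGD_bd (w : ℤ) : bd .A w = true ↔ |w| ≤ 1 := by
  unfold bd
  rw [Bool.and_eq_true, decide_eq_true_eq, decide_eq_true_eq, abs_le]
  rfl

theorem AGD_mem {n k : ℕ} (x : Vec n) : x ∈ VA n k ↔ mem .A (k : ℤ) x := by
  unfold VA mem dp
  simp only [Set.mem_setOf_eq]
  have hb : (∀ i, |x i| ≤ 1) ↔ ∀ i, bd .A (x i) = true := by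
    simp only [AGD_bd]
  rw [hb]
  have e0 : ∀ i, bd .A (x i) = true → x i = (if x i = 1 then (1 : ℤ) else 0) - (if x i = -1 then 1 else 0) ∧
      x i * x i = (if x i = 1 then (1 : ℤ) else 0) + (if x i = -1 then 1 else 0) := by
    intro i hi
    rw [AGD_bd, abs_le] at hi
    obtain ⟨h1, h2⟩ := hi
    generalize x i = w at *
    interval_cases w <;> simp
  have hst : (∀ j < nst .A, ∑ i, stat .A j (x i) = (k : ℤ)) ↔
      ∑ i, (if x i = 1 then (1 : ℤ) else 0) = k ∧ ∑ i, (if x i = -1 then (1 : ℤ) else 0) = k := by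
    constructor
    · intro h
      exact ⟨h 0 (by decide), h 1 (by decide)⟩
    · rintro ⟨h1, h2⟩ j hj
      have : j = 0 ∨ j = 1 := by
        have : j < 2 := hj
        omega
      rcases this with rfl | rfl
      · exact h1
      · exact h2
  rw [hst]
  constructor
  · rintro ⟨h1, h2, h3⟩
    rw [sum_congr rfl fun i _ => (e0 i (h1 i)).1, sum_sub_distrib] at h2
    rw [sum_congr rfl fun i _ => (e0 i (h1 i)).2, sum_add_distrib] at h3
    refine ⟨h1, ⟨by linarith, by linarith⟩, fun h => absurd h (by decide)⟩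
  · rintro ⟨h1, ⟨h2, h3⟩, _⟩
    refine ⟨h1, ?_, ?_⟩
    · rw [sum_congr rfl fun i _ => (e0 i (h1 i)).1, sum_sub_distrib]
      linarith
    · rw [sum_congr rfl fun i _ => (e0 i (h1 i)).2, sum_add_distrib]
      linarith

/-- the pattern of the certificate `A1` -/
structure APat {n : ℕ} (k : ℕ) (x y : Vec n) : Prop where
  pair : ∀ i, (x i, y i) ∈ A1.pairs
  n1 : #{i | (x i, y i) = ((1 : ℤ), (1 : ℤ))} = k
  n2 : #{i | (x i, y i) = ((-1 : ℤ), (0 : ℤ))} = k
  n3 : #{i | (x i, y i) = ((0 : ℤ), (-1 : ℤ))} = k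

/-- the pattern exists -/
theorem APat_ex {n k : ℕ} (hn : 3 * k ≤ n) {x : Vec n} (hx : x ∈ VA n k) :
    ∃ y : Vec n, APat k x y := by
  have hm := (AGD_mem x).mp hx
  have hp1 : #{i | x i = 1} = k := by
    have := hm.2.1 0 (by decide)
    have h2 : ∑ i, (if x i = 1 then (1 : ℤ) else 0) = k := this
    rw [sum_boole] at h2
    exact_mod_cast h2
  have hp2 : #{i | x i = -1} = k := by
    have := hm.2.1 1 (by decide)
    have h2 : ∑ i, (if x i = -1 then (1 : ℤ) else 0) = k := this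
    rw [sum_boole] at h2
    exact_mod_cast h2
  have hcov : ∀ i, x i = 1 ∨ x i = -1 ∨ x i = 0 := by
    intro i
    have := hx.1 i
    rw [abs_le] at this
    omega
  have hp0 : #{i | x i = 0} + k + k = n := by
    have := dot_map_count'' (fun i => x i) (fun _ => (1 : ℤ)) [1, -1, 0] (by decide) (by
      intro i
      simp only [List.mem_cons, List.not_mem_nil, or_false]
      exact hcov i)
    simp only [List.map_cons, List.map_nil, dot, hp1, hp2, sum_const, card_univ, Fintype.card_fin,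
      nsmul_eq_mul, mul_one, one_mul] at this
    omega
  obtain ⟨f0, a1, a2, a3, a4⟩ := distr [(-1, k)] (univ.filter fun i => x i = 0) (by simp)
    (by simp) (by simp only [List.map_cons, List.map_nil, List.sum_cons, List.sum_nil]; omega)
  have a2' : #{i ∈ univ.filter (fun i => x i = 0) | f0 i = -1} = k := a2 (-1, k) (by simp)
  -- y = 1 where x = 1, 0 where x = -1, f0 where x = 0
  set y : Vec n := fun i => if x i = 1 then 1 else if x i = 0 then f0 i else 0 with hy
  have y1 : ∀ i, x i = 1 → y i = 1 := fun i h => by simp only [hy]; rw [if_pos h]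
  have y2 : ∀ i, x i = -1 → y i = 0 := fun i h => by simp only [hy]; rw [h]; simp
  have y3 : ∀ i, x i = 0 → y i = f0 i := fun i h => by simp only [hy]; rw [h]; simp
  have hf : ∀ i, f0 i = 0 ∨ f0 i = -1 := fun i => by simpa using a1 i
  have hpair : ∀ i, (x i, y i) ∈ A1.pairs := by
    intro i
    have e : A1.pairs = [(1, 1), (-1, 0), (0, -1), (0, 0)] := rfl
    rw [e]
    rcases hcov i with h | h | h
    · rw [h, y1 i h]; simp
    · rw [h, y2 i h]; simp
    · rw [h, y3 i h]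
      rcases hf i with h' | h' <;> rw [h'] <;> simp
  have n1 : #{i | (x i, y i) = ((1 : ℤ), (1 : ℤ))} = k := by
    rw [← hp1]; congr 1; ext i
    simp only [mem_filter, mem_univ, true_and, Prod.mk.injEq]
    exact ⟨fun h => h.1, fun h => ⟨h, y1 i h⟩⟩
  have n2 : #{i | (x i, y i) = ((-1 : ℤ), (0 : ℤ))} = k := by
    rw [← hp2]; congr 1; ext i
    simp only [mem_filter, mem_univ, true_and, Prod.mk.injEq]
    exact ⟨fun h => h.1, fun h => ⟨h, y2 i h⟩⟩
  have n3 : #{i | (x i, y i) = ((0 : ℤ), (-1 : ℤ))} = k := by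
    rw [← a2']; congr 1; ext i
    simp only [mem_filter, mem_univ, true_and, Prod.mk.injEq]
    constructor
    · rintro ⟨h1, h2⟩; exact ⟨h1, by rw [← y3 i h1]; exact h2⟩
    · rintro ⟨h1, h2⟩; exact ⟨h1, by rw [y3 i h1]; exact h2⟩
  exact ⟨y, hpair, n1, n2, n3⟩

/-- the complementary pattern, up to the sign -/
theorem APat.compl {n k : ℕ} {x y : Vec n} (h : APat k x y) : APat k (-x) (y - x) := by
  have key : ∀ i, (x i, y i) = (1, 1) ∨ (x i, y i) = (-1, 0) ∨ (x i, y i) = (0, -1) ∨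
      (x i, y i) = (0, 0) := by
    intro i
    have := h.pair i
    have e : A1.pairs = [(1, 1), (-1, 0), (0, -1), (0, 0)] := rfl
    rw [e] at this
    simpa using this
  have e1 : ∀ i, ((-x) i, (y - x) i) = ((1 : ℤ), (1 : ℤ)) ↔ (x i, y i) = ((-1 : ℤ), (0 : ℤ)) := by
    intro i
    rw [Pi.neg_apply, Pi.sub_apply, Prod.mk.injEq, Prod.mk.injEq]
    omega
  have e2 : ∀ i, ((-x) i, (y - x) i) = ((-1 : ℤ), (0 : ℤ)) ↔ (x i, y i) = ((1 : ℤ), (1 : ℤ)) := by
    intro i
    rw [Pi.neg_apply, Pi.sub_apply, Prod.mk.injEq, Prod.mk.injEq]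
    omega
  have e3 : ∀ i, ((-x) i, (y - x) i) = ((0 : ℤ), (-1 : ℤ)) ↔ (x i, y i) = ((0 : ℤ), (-1 : ℤ)) := by
    intro i
    rw [Pi.neg_apply, Pi.sub_apply, Prod.mk.injEq, Prod.mk.injEq]
    omega
  refine ⟨?_, ?_, ?_, ?_⟩
  · intro i
    have e : A1.pairs = [(1, 1), (-1, 0), (0, -1), (0, 0)] := rfl
    rw [e, Pi.neg_apply, Pi.sub_apply]
    rcases key i with h1 | h1 | h1 | h1 <;> rw [Prod.mk.injEq] at h1 <;> rw [h1.1, h1.2] <;> simp
  · simp only [e1]; exact h.n2
  · simp only [e2]; exact h.n1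
  · simp only [e3]; exact h.n3

/-- the pattern gives a good edge -/
theorem APat.good {n k : ℕ} (hk : 1 ≤ k) {x y : Vec n} (hx : x ∈ VA n k) (h : APat k x y) :
    y ∈ VA n k ∧ x - y ∈ VA n k ∧ Good (VA n k) x y := by
  obtain ⟨hpair, n1, n2, n3⟩ := h
  have key : ∀ i, (x i, y i) = (1, 1) ∨ (x i, y i) = (-1, 0) ∨ (x i, y i) = (0, -1) ∨
      (x i, y i) = (0, 0) := by
    intro i
    have := hpair i
    have e : A1.pairs = [(1, 1), (-1, 0), (0, -1), (0, 0)] := rfl
    rw [e] at this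
    simpa using this
  have hcnt : ∀ t ∈ A1.tys, ((#{i | (x i, y i) = (t.1, t.2.1)} : ℕ) : ℤ) =
      dot t.2.2.1 [(k : ℤ)] + t.2.2.2 := by
    intro t ht
    simp only [A1, List.mem_cons, List.not_mem_nil, or_false] at ht
    rcases ht with rfl | rfl | rfl
    · show ((#{i | (x i, y i) = ((1 : ℤ), (1 : ℤ))} : ℕ) : ℤ) = _
      rw [n1]; simp [dot]
    · show ((#{i | (x i, y i) = ((-1 : ℤ), (0 : ℤ))} : ℕ) : ℤ) = _
      rw [n2]; simp [dot]
    · show ((#{i | (x i, y i) = ((0 : ℤ), (-1 : ℤ))} : ℕ) : ℤ) = _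
      rw [n3]; simp [dot]
  -- sums over pairs
  have hsum : ∀ F : ℤ → ℤ → ℤ, F 0 0 = 0 → ∑ i, F (x i) (y i) = k * (F 1 1 + F (-1) 0 + F 0 (-1)) := by
    intro F h0
    have := dot_map_count'' (fun i => (x i, y i)) (fun q => F q.1 q.2) [(1, 1), (-1, 0), (0, -1), (0, 0)]
      (by decide) hpair
    simp only [List.map_cons, List.map_nil, dot, n1, n2, n3, h0] at this
    rw [← this]; ring
  have my : mem .A (k : ℤ) y := by
    refine ⟨?_, ?_, fun h => absurd h (by decide)⟩
    · intro i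
      rcases key i with h | h | h | h <;> rw [Prod.mk.injEq] at h <;> rw [h.2] <;> decide
    · intro j hj
      have hj' : j = 0 ∨ j = 1 := by
        have : j < 2 := hj
        omega
      rcases hj' with rfl | rfl
      · rw [hsum (fun _ b => stat .A 0 b) (by decide)]
        simp [stat]
      · rw [hsum (fun _ b => stat .A 1 b) (by decide)]
        simp [stat]
  have mxy : mem .A (k : ℤ) (fun i => y i - x i) := by
    refine ⟨?_, ?_, fun h => absurd h (by decide)⟩
    · intro i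
      show bd .A (y i - x i) = true
      rcases key i with h | h | h | h <;> rw [Prod.mk.injEq] at h <;> rw [h.1, h.2] <;> decide
    · intro j hj
      have hj' : j = 0 ∨ j = 1 := by
        have : j < 2 := hj
        omega
      rcases hj' with rfl | rfl
      · rw [hsum (fun a b => stat .A 0 (b - a)) (by decide)]
        simp [stat]
      · rw [hsum (fun a b => stat .A 1 (b - a)) (by decide)]
        simp [stat]
  have hneg : ∀ a b : Vec n, a - b ∈ VA n k → b - a ∈ VA n k := fun a b h => by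
    have := VA_neg h
    rwa [neg_sub] at this
  have hyV : y ∈ VA n k := (AGD_mem y).mpr my
  have hyx : y - x ∈ VA n k := (AGD_mem _).mpr mxy
  refine ⟨hyV, hneg _ _ hyx, ?_⟩
  intro w hw hyw hwx hxw hwne
  obtain ⟨u, h2, h3, h4, h5⟩ := Spec.useA (S := A1) rfl (by decide) (p := [(k : ℤ)]) (k := (k : ℤ))
    (v := x) (x := y) (z := w)
    ⟨rfl, rfl, by simp [A1], by simp, by simp [A1, lePw]; omega, by simp [A1, dot]⟩
    hpair hcnt rfl rfl rfl rfl ((AGD_mem w).mp hw) ((AGD_mem _).mp hyw) my mxy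
    (fun i => (AGD_bd _).mpr (hx.1 i)) rfl hwne hwx
    (fun h => hxw (hneg _ _ ((AGD_mem _).mpr h))) A1_ok0
  exact ⟨u, (AGD_mem u).mpr h3, h2, hneg _ _ ((AGD_mem _).mpr h4), hneg _ _ ((AGD_mem _).mpr h5)⟩

theorem Good_neg {n : ℕ} {V : Set (Vec n)} (hV : ∀ x ∈ V, -x ∈ V) {x y : Vec n}
    (h : Good V (-x) (-y)) : Good V x y := by
  intro w hw h1 h2 h3 h4
  obtain ⟨v, hv, h5, h6, h7⟩ := h (-w) (hV _ hw) (by
    have := hV _ h1
    rwa [show -(y - w) = -y - -w by abel] at this) (fun h => h2 (neg_injective h)) (fun h => h3 (by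
    have := hV _ h
    rwa [show -(-x - -w) = x - w by abel] at this)) (fun h => h4 (by
    have : -w = -(y - x) := by rw [h]; abel
    exact neg_injective this))
  refine ⟨-v, hV _ hv, fun h => h5 (by rw [← h, neg_neg]), ?_, ?_⟩
  · have := hV _ h6
    rwa [show -(-x - v) = x - -v by abel] at this
  · have := hV _ h7
    rwa [show -(-w - v) = w - -v by abel] at this

/-- type A: good edges at all vertices -/
theorem AGD {n k : ℕ} (hk : 1 ≤ k) (hn : 3 * k ≤ n) {x : Vec n} (hx : x ∈ VA n k) :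
    ∃ y ∈ VA n k, x - y ∈ VA n k ∧ Good (VA n k) x y ∧ Good (VA n k) x (x - y) := by
  obtain ⟨y, hy⟩ := APat_ex hn hx
  obtain ⟨h1, h2, h3⟩ := hy.good hk hx
  obtain ⟨_, _, h6⟩ := hy.compl.good hk (VA_neg hx)
  refine ⟨y, h1, h2, h3, Good_neg (fun x h => VA_neg h) ?_⟩
  rwa [neg_sub]

end Pool.Agent.SOL
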