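import Pool.Agent.helper1.CAD.Pat2
import Pool.Agent.helper20.SOL.Basic

/-! The certificates in the language of project SOL (MP_cad530_co). -/

namespace Pool.Agent.SOL

open Finset Pool.Agent.helper1.CAD

theorem GD_bd {K : Kind} (hK : lim K = 2) (w : ℤ) : bd K w = true ↔ |w| ≤ 2 := by
  unfold bd
  rw [hK, Bool.and_eq_true, decide_eq_true_eq, decide_eq_true_eq, abs_le]

theorem GD_zt (w : ℤ) (h : |w| ≤ 2) : |w| + zt w = 1 := by
  rw [abs_le] at h
  obtain ⟨h1, h2⟩ := h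
  interval_cases w <;> simp [zt]

/-- the vertex sets -/
theorem GD_mem {n k : ℕ} (x : Vec n) : x ∈ VD n k ↔ mem .D (2 * (k : ℤ)) x := by
  unfold VD mem dp l1
  simp only [Set.mem_setOf_eq]
  have hb : (∀ i, |x i| ≤ 2) ↔ ∀ i, bd .D (x i) = true := by
    simp only [GD_bd (K := .D) rfl]
  have hst : (∀ j < nst .D, ∑ i, stat .D j (x i) = 2 * (k : ℤ)) ↔ ∑ i, x i * x i = 2 * k := by
    simp [nst, stat]
  rw [hb, hst]
  constructor
  · rintro ⟨h1, h2, h3⟩
    refine ⟨h1, h2, fun _ => ?_⟩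
    have h4 : ∑ i, (|x i| + zt (x i)) = n := by
      rw [sum_congr rfl fun i _ => GD_zt (x i) ((GD_bd (K := .D) rfl _).mp (h1 i))]
      simp
    rw [sum_add_distrib] at h4
    linarith
  · rintro ⟨h1, h2, h3⟩
    refine ⟨h1, h2, ?_⟩
    have h4 : ∑ i, (|x i| + zt (x i)) = n := by
      rw [sum_congr rfl fun i _ => GD_zt (x i) ((GD_bd (K := .D) rfl _).mp (h1 i))]
      simp
    rw [sum_add_distrib] at h4
    have := h3 rfl
    linarith

/-- the sign of the entries -/
def GD_s {n : ℕ} (x : Vec n) : Vec n := fun i => if x i < 0 then -1 else 1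

theorem GD_sg {n : ℕ} (x : Vec n) : IsSgn (GD_s x) := by
  intro i
  unfold GD_s
  split_ifs
  · right; rfl
  · left; rfl

theorem GD_sx {n : ℕ} (x : Vec n) (i : Fin n) : GD_s x i * x i = |x i| := by
  unfold GD_s
  split_ifs with h
  · rw [abs_of_neg h]; ring
  · rw [abs_of_nonneg (by omega)]; ring

theorem GD_s012 {n k : ℕ} {x : Vec n} (h : x ∈ VD n k) (i : Fin n) :
    GD_s x i * x i = 0 ∨ GD_s x i * x i = 1 ∨ GD_s x i * x i = 2 := by
  rw [GD_sx]
  have h1 := h.1 i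
  have h2 := abs_nonneg (x i)
  omega

/-- the numbers of twos, ones and zeros -/
theorem GD_cnt {n k : ℕ} {x : Vec n} (h : x ∈ VD n k) :
    #{i | GD_s x i * x i = 2} = tw x ∧ 4 * tw x + #{i | GD_s x i * x i = 1} = 2 * k ∧
    #{i | GD_s x i * x i = 0} + #{i | GD_s x i * x i = 1} + tw x = n ∧
    2 * tw x + #{i | GD_s x i * x i = 1} ≤ n := by
  simp only [GD_sx]
  have h1 : #{i | |x i| = 2} = tw x := rfl
  have hd : ∀ i, |x i| = 0 ∨ |x i| = 1 ∨ |x i| = 2 := fun i => by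
    have := GD_s012 h i
    rwa [GD_sx] at this
  have e1 : ∀ F : ℤ → ℤ, ∑ i, F |x i| = F 0 * #{i | |x i| = 0} + F 1 * #{i | |x i| = 1} +
      F 2 * #{i | |x i| = 2} := by
    intro F
    have := dot_map_count'' (fun i => |x i|) F [0, 1, 2] (by decide) (by
      intro i
      simp only [List.mem_cons, List.not_mem_nil, or_false]
      exact hd i)
    simp only [List.map_cons, List.map_nil, dot] at this
    rw [← this]; ring
  have e2 := e1 (fun a => a * a)
  have e3 : ∑ i, |x i| * |x i| = dp x x := by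
    unfold dp
    exact sum_congr rfl fun i _ => abs_mul_abs_self (x i)
  rw [e3, h.2.1] at e2
  have e4 := e1 (fun _ => 1)
  simp only [sum_const, card_univ, Fintype.card_fin, nsmul_eq_mul, mul_one, one_mul] at e4
  have e5 := e1 (fun a => a)
  have e6 : ∑ i, |x i| ≤ n := h.2.2
  rw [e5] at e6
  rw [h1] at e2 e4 e6 ⊢
  refine ⟨rfl, ?_, ?_, ?_⟩ <;> omega

/-- a pattern with a certificate gives a good edge -/
theorem GD_gen {n k : ℕ} (S : Spec) (hK : S.K = .D) (hg : S.good = true) (hv : S.pv = 0) (hx : S.px = 0)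
    (hvx : S.pvx = 0) (nd : S.T.Nodup) (ndp : S.pairs.Nodup)
    (h0 : ∀ t ∈ S.tys, (t.1, t.2.1) ≠ (0, 0))
    (ok : ∀ b ∈ S.branches, ∃ I : Inst, S.instOK 0 b.1 b.2 I = true)
    {v x : Vec n} {p : List ℤ} {s : Vec n} (hP : S.Par p k) (hpat : S.Pat v x p s) (hvV : v ∈ VD n k)
    (hsl : S.sl.1 ≤ ∑ i, zt (v i)) (hsl2 : S.sl.2 = -1)
    (bx : ∀ t ∈ S.tys, bd .D t.2.1 = true)
    (bxv : ∀ t ∈ S.tys, bd .D (t.2.1 - t.1) = true)
    (sx : (S.tys.map fun t => t.2.1 * t.2.1 * num p t).sum = 2 * k)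
    (sxv : (S.tys.map fun t => (t.2.1 - t.1) * (t.2.1 - t.1) * num p t).sum = 2 * k)
    (zx : (S.tys.map fun t => (1 - zt t.2.1) * num p t).sum ≤ n)
    (zxv : (S.tys.map fun t => (1 - zt (t.2.1 - t.1)) * num p t).sum ≤ n) :
    x ∈ VD n k ∧ v - x ∈ VD n k ∧ Good (VD n k) v x := by
  have hKA : S.K ≠ .A := by rw [hK]; decide
  have hcard : (Fintype.card (Fin n) : ℤ) = n := by simp
  have hnst : nst Kind.D = 1 := rfl
  have m1 : mem .D (2 * (k : ℤ)) x := by
    have := hpat.mem_x ndp hKA (2 * (k : ℤ)) (by rw [hK]; exact bx) (by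
      intro j _
      rw [hK]
      exact sx) (by intro _; rw [hcard]; exact zx)
    rwa [hK] at this
  have m2 : mem .D (2 * (k : ℤ)) (fun i => x i - v i) := by
    have := hpat.mem_xv ndp hKA (2 * (k : ℤ)) (by rw [hK]; exact bxv) (by
      intro j _
      rw [hK]
      exact sxv) (by intro _; rw [hcard]; exact zxv)
    rwa [hK] at this
  have hx' : x ∈ VD n k := (GD_mem x).mpr m1
  have hxv : x - v ∈ VD n k := (GD_mem _).mpr m2
  have hneg : ∀ a b : Vec n, a - b ∈ VD n k → b - a ∈ VD n k := fun a b h => by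
    have := VD_neg h
    rwa [neg_sub] at this
  refine ⟨hx', hneg _ _ hxv, ?_⟩
  intro w hw hxw hwv hvw hwne
  have mul2 : mul S.K = 2 := by rw [hK]; rfl
  obtain ⟨u, pu, h1, h2, h3, h4, h5⟩ := Spec.use (S := S) hKA nd h0 hP hpat (z := w) 0
    (by rw [mul2, hK, sub_zero]; exact (GD_mem w).mp hw)
    (by rw [mul2, hK, hx]; show mem .D (2 * (k : ℤ) - 0) _; rw [sub_zero]; exact (GD_mem _).mp hxw)
    (by rw [mul2, hK, hx, sub_zero]; exact m1)
    (by rw [mul2, hK, hvx, sub_zero]; exact m2)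
    (by rw [hK]; exact fun i => (GD_bd (K := .D) rfl _).mpr (hvV.1 i))
    (by intro _; exact hsl)
    (by intro _ h; rw [hsl2] at h; exact absurd h (by decide))
    (by intro h; rw [hK] at h; exact absurd h (by decide))
    (by intro h; rw [hK] at h; exact absurd h (by decide))
    (by intro _ h; exact hwne h)
    hwv
    (by
      rw [mul2, hK, hv]
      show ¬ mem .D (2 * (k : ℤ) - 0) _
      rw [sub_zero]
      intro h
      exact hvw (hneg _ _ ((GD_mem _).mpr h)))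
    ok
  have hpu : pu = 0 := by
    rcases h1 with h1 | h1
    · exact h1
    · rw [hK] at h1; exact absurd h1.1 (by decide)
  subst hpu
  rw [mul2, hK, sub_zero] at h3
  rw [mul2, hK, hv] at h4
  rw [mul2, hK] at h5
  have h4' : mem .D (2 * (k : ℤ) - 0) (fun i => u i - v i) := h4
  have h5' : mem .D (2 * (k : ℤ) - 0) (fun i => u i - w i) := h5
  rw [sub_zero] at h4' h5'
  exact ⟨u, (GD_mem u).mpr h3, h2, hneg _ _ ((GD_mem _).mpr h4'), hneg _ _ ((GD_mem _).mpr h5')⟩

end Pool.Agent.SOL
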