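import Pool.Agent.helper1.SOL.Bridge

/-! Existence of patterns with three lists (MP_cad530_co). -/

namespace Pool.Agent.SOL

open Finset Pool.Agent.helper1.CAD

/-- three lists -/
def GD_L (L0 L1 L2 : List (ℤ × ℕ)) (a : ℤ) : List (ℤ × ℕ) :=
  if a = 2 then L2 else if a = 1 then L1 else if a = 0 then L0 else []

/-- existence of a pattern, with three lists -/
theorem GD_pat {n k : ℕ} {x : Vec n} (hx : x ∈ VD n k) (S : Spec) (p : List ℤ)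
    (L0 L1 L2 : List (ℤ × ℕ)) (d0 : (L0.map Prod.fst).Nodup) (d1 : (L1.map Prod.fst).Nodup)
    (d2 : (L2.map Prod.fst).Nodup) (e0 : ∀ c ∈ L0, c.1 ≠ 0) (e1 : ∀ c ∈ L1, c.1 ≠ 0)
    (e2 : ∀ c ∈ L2, c.1 ≠ 0)
    (s0 : (L0.map Prod.snd).sum ≤ #{i | GD_s x i * x i = 0})
    (s1 : (L1.map Prod.snd).sum ≤ #{i | GD_s x i * x i = 1})
    (s2 : (L2.map Prod.snd).sum ≤ #{i | GD_s x i * x i = 2})
    (p0 : ∀ c ∈ L0, ((0 : ℤ), c.1) ∈ S.pairs) (p1 : ∀ c ∈ L1, ((1 : ℤ), c.1) ∈ S.pairs)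
    (p2 : ∀ c ∈ L2, ((2 : ℤ), c.1) ∈ S.pairs)
    (z1 : (L1.map Prod.snd).sum < #{i | GD_s x i * x i = 1} → ((1 : ℤ), (0 : ℤ)) ∈ S.pairs)
    (z2 : (L2.map Prod.snd).sum < #{i | GD_s x i * x i = 2} → ((2 : ℤ), (0 : ℤ)) ∈ S.pairs)
    (hc : ∀ t ∈ S.tys, (t.1 = 0 ∧ ∃ c ∈ L0, c.1 = t.2.1 ∧ (c.2 : ℤ) = num p t) ∨
      (t.1 = 1 ∧ ((∃ c ∈ L1, c.1 = t.2.1 ∧ (c.2 : ℤ) = num p t) ∨
        (t.2.1 = 0 ∧ ((#{i | GD_s x i * x i = 1} : ℕ) : ℤ) = ((L1.map Prod.snd).sum : ℕ) + num p t))) ∨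
      (t.1 = 2 ∧ ((∃ c ∈ L2, c.1 = t.2.1 ∧ (c.2 : ℤ) = num p t) ∨
        (t.2.1 = 0 ∧ ((#{i | GD_s x i * x i = 2} : ℕ) : ℤ) = ((L2.map Prod.snd).sum : ℕ) + num p t)))) :
    ∃ y : Vec n, S.Pat x y p (GD_s x) := by
  have hL0 : GD_L L0 L1 L2 0 = L0 := rfl
  have hL1 : GD_L L0 L1 L2 1 = L1 := rfl
  have hL2 : GD_L L0 L1 L2 2 = L2 := rfl
  refine pat_exists (GD_sg x) (GD_s012 hx) (GD_L L0 L1 L2) ?_ ?_ ?_ ?_ ?_ ?_
  · intro a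
    unfold GD_L
    split_ifs
    · exact d2
    · exact d1
    · exact d0
    · simp
  · intro a
    unfold GD_L
    split_ifs
    · exact e2
    · exact e1
    · exact e0
    · simp
  · intro a ha
    rcases ha with rfl | rfl | rfl
    · rw [hL0]; exact s0
    · rw [hL1]; exact s1
    · rw [hL2]; exact s2
  · intro a u ha hu
    rcases ha with rfl | rfl | rfl
    · rw [hL0, List.mem_map] at hu; obtain ⟨c, hc, rfl⟩ := hu; exact p0 c hc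
    · rw [hL1, List.mem_map] at hu; obtain ⟨c, hc, rfl⟩ := hu; exact p1 c hc
    · rw [hL2, List.mem_map] at hu; obtain ⟨c, hc, rfl⟩ := hu; exact p2 c hc
  · intro a ha hu
    rcases ha with rfl | rfl | rfl
    · unfold Spec.pairs; simp
    · rw [hL1] at hu; exact z1 hu
    · rw [hL2] at hu; exact z2 hu
  · intro t ht
    rcases hc t ht with ⟨h1, h2⟩ | ⟨h1, h2⟩ | ⟨h1, h2⟩
    · refine ⟨Or.inl h1, Or.inl ?_⟩
      rw [h1, hL0]; exact h2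
    · refine ⟨Or.inr (Or.inl h1), ?_⟩
      rw [h1, hL1]; exact h2
    · refine ⟨Or.inr (Or.inr h1), ?_⟩
      rw [h1, hL2]; exact h2

end Pool.Agent.SOL
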