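import Pool.Agent.helper1.SOL.Bridge2
import Pool.Agent.helper1.CAD.Compl

/-! Two good edges from a self complementary pattern (MP_cad530_co). -/

namespace Pool.Agent.SOL

open Finset Pool.Agent.helper1.CAD

/-- a self complementary pattern with a certificate gives two good edges -/
theorem GD_gen2 {n k : ℕ} (S : Spec) (hK : S.K = .D) (hg : S.good = true) (hv : S.pv = 0) (hx : S.px = 0)
    (hvx : S.pvx = 0) (nd : S.T.Nodup) (ndp : S.pairs.Nodup)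
    (h0 : ∀ t ∈ S.tys, (t.1, t.2.1) ≠ (0, 0))
    (hcp : ∀ t ∈ S.tys, (t.1, cpl t.1 t.2.1, t.2.2) ∈ S.tys)
    (ok : ∀ b ∈ S.branches, ∃ I : Inst, S.instOK 0 b.1 b.2 I = true)
    {v x : Vec n} {p : List ℤ} {s : Vec n} (hP : S.Par p k) (hpat : S.Pat v x p s) (hvV : v ∈ VD n k)
    (hsl : S.sl.1 ≤ ∑ i, zt (v i)) (hsl2 : S.sl.2 = -1)
    (bx : ∀ t ∈ S.tys, bd .D t.2.1 = true)
    (bxv : ∀ t ∈ S.tys, bd .D (t.2.1 - t.1) = true)
    (sx : (S.tys.map fun t => t.2.1 * t.2.1 * num p t).sum = 2 * k)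
    (sxv : (S.tys.map fun t => (t.2.1 - t.1) * (t.2.1 - t.1) * num p t).sum = 2 * k)
    (zx : (S.tys.map fun t => (1 - zt t.2.1) * num p t).sum ≤ n)
    (zxv : (S.tys.map fun t => (1 - zt (t.2.1 - t.1)) * num p t).sum ≤ n) :
    x ∈ VD n k ∧ v - x ∈ VD n k ∧ Good (VD n k) v x ∧ Good (VD n k) v (v - x) := by
  obtain ⟨h1, h2, h3⟩ := GD_gen S hK hg hv hx hvx nd ndp h0 ok hP hpat hvV hsl hsl2 bx bxv sx sxv zx zxv
  obtain ⟨_, _, h6⟩ := GD_gen S hK hg hv hx hvx nd ndp h0 ok hP (hpat.compl hcp) hvV hsl hsl2 bx bxv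
    sx sxv zx zxv
  exact ⟨h1, h2, h3, h6⟩

end Pool.Agent.SOL
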