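import Pool.Agent.helper20.SOL.Spec

/-!
# Project sol (MP_cad530_co), part N: the root systems of types B, C, F4, G2

Vertex sets: `VB n k` (type `B_n`), `VC n k` (type `C_n`), see rows `VB1`, `VC1`. For an edge `x, y`
(`x, y, x - y ∈ S`) let `SS S x y` be the set of the neighbours `z ≠ x` of `y`, not adjacent to `x`,
for which `y` is the only common neighbour of `x` and `z`. `EE S x y`: an edge with `SS S x y = ∅`.
For symmetric sets of constant norm `y - x ∈ SS S x y`, so they have no empty edges. The graphs of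
type `B`, `C` have empty edges at exactly the vertices outside of `NS S`; `NS (VB n k)` consists of even
vectors, and an isomorphism restricts to the sets `NS`.

Every row: file `Pool/Agent/<seat>/SOL/XX.lean`, `import Pool.Agent.helper1.SOL.SpecN`, namespace
`Pool.Agent.SOL`, `theorem XX (hypotheses in the order of the docstring) : XX_stmt`, auxiliary lemmas
prefixed with the row name (`XX_...`).
-/

set_option autoImplicit false

namespace Pool.Agent.SOL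

open Pool.Agent.helper54.SOG Finset

open scoped BigOperators

/-! ## Definitions -/

/-- the vertices of `Γ(B_n, k)`: entries `0, ±1, ±2`, square sum `2 k` (even vertices) or `2 k - 1` (odd
vertices), sum of the absolute values at most `n` -/
def VB (n k : ℕ) : Set (Vec n) :=
  {x | (∀ i, |x i| ≤ 2) ∧ (dp x x = 2 * k ∨ dp x x = 2 * k - 1) ∧ l1 x ≤ n}

/-- the vertices of `Γ(C_n, k)`: entries `0, ±1, ±2`, sum of the absolute values `2 k` -/
def VC (n k : ℕ) : Set (Vec n) := {x | (∀ i, |x i| ≤ 2) ∧ l1 x = 2 * k}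

/-- the root system of type `C_l` -/
def rootsC (l : ℕ) : Set (Fin l → ℝ) :=
  rootsD l ∪ {v | ∃ i : Fin l, ∃ s : ℝ, (s = 1 ∨ s = -1) ∧ v = Pi.single i (2 * s)}

/-- the root system of type `F_4` -/
def rootsF4 : Set (Fin 4 → ℝ) := rootsB 4 ∪ {v | ∀ i, v i = 1 / 2 ∨ v i = -1 / 2}

/-- `F_4` in doubled coordinates -/
def RF4 : Set (Vec 4) := {x | dp x x = 4 ∨ (dp x x = 8 ∧ ∀ i, x i % 2 = 0)}

/-- `G_2` with integer coordinates -/
def RG2 : Set (Vec 3) := {x | ∑ i, x i = 0 ∧ (dp x x = 2 ∨ dp x x = 6)}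

section General

variable {A : Type*} [AddCommGroup A]

/-- symmetric sets without zero -/
structure Sy (S : Set A) : Prop where
  neg : ∀ x ∈ S, -x ∈ S
  zero : (0 : A) ∉ S

/-- the set `S(x, y)` -/
def SS (S : Set A) (x y : A) : Set A :=
  {z | z ∈ S ∧ y - z ∈ S ∧ z ≠ x ∧ x - z ∉ S ∧ ∀ v ∈ S, x - v ∈ S → z - v ∈ S → v = y}

/-- an empty edge -/
def EE (S : Set A) (x y : A) : Prop := x ∈ S ∧ y ∈ S ∧ x - y ∈ S ∧ SS S x y = ∅

/-- the non isolated vertices without empty edges -/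
def NS (S : Set A) : Set A := {x | x ∈ NI S ∧ ∀ y, ¬ EE S x y}

/-- the neighbours -/
def NB (S : Set A) (x : A) : Set A := {y | y ∈ S ∧ x - y ∈ S}

/-- two complementary good edges -/
def GPr (S : Set A) (x : A) : Prop := ∃ y ∈ S, x - y ∈ S ∧ Good S x y ∧ Good S x (x - y)

end General

/-- the odd part of an isomorphism -/
noncomputable def odp {n m : ℕ} {S : Set (Vec n)} {S' : Set (Vec m)} (ψ : gph S ≃g gph S')
    (x : Vec n) : Fin m → ℝ := (1 / 2 : ℝ) • (cv (up ψ x) - cv (up ψ (-x)))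

/-- the generic pairs of type B -/
def GenB (n k : ℕ) : Prop :=
  2 ≤ n ∧ 1 ≤ k ∧ ((k % 2 = 1 ∧ k + 1 ≤ n) ∨ (k % 2 = 0 ∧ k + 2 ≤ n ∧ ¬ (n = 4 ∧ k = 2)))

/-- the generic pairs of type C -/
def GenC (n k : ℕ) : Prop := 3 ≤ n ∧ 1 ≤ k ∧ 3 * k < 2 * n

/-- the even non isolated vertices of `Γ(B_n, k)` -/
def EvB (n k : ℕ) : Set (Vec n) := {x | x ∈ NI (VB n k) ∧ dp x x = 2 * k}

/-! ## Block 1: the vertex sets -/

/-- ROW `VB1` (medium). `sosSums (rootsB n) k = cv '' VB n k`. Use row `VD1` (hypothesis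
`hVD1 : VD1_stmt`) and its ideas. A strongly orthogonal set `S` of `rootsB n` contains at most one short
root `σ e_i` (`e_i ± e_j` are roots). If it contains none, `S ⊆ rootsD n` is strongly orthogonal in
`rootsD n`; conversely a strongly orthogonal set of `rootsD n` is strongly orthogonal in `rootsB n` (sums
and differences of elements of `rootsD n` have an even coordinate sum, so they are not short). So the sums
of the `S` without short roots are `cv '' VD n k`, the even vertices. If `S = S' ∪ {σ e_i}` then no root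
of `S'` has `i` in its support (`e_i - (e_i ± e_j) = ∓ e_j`), so `S'` is a strongly orthogonal set of
`k - 1` long roots with supports in `univ \ {i}`: the sum has `|x i| = 1`, and after deleting the
coordinate `i` it is in `VD (n-1) (k-1)` (`Fin.succAbove`; or redo the argument of `VD1` with supports in
a finset): square sum `1 + 2 (k - 1) = 2 k - 1`, `l1 x ≤ 1 + (n - 1) = n`. Conversely, let `x` have the
square sum `2 k - 1` and `l1 x ≤ n`: the number of entries `±1` is odd, so there is `i` with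
`|x i| = 1`; delete it: square sum `2 (k-1)`, `l1 ≤ n - 1`, so the rest is a sum of a strongly
orthogonal set of `k - 1` long roots avoiding `i`, add the root `x i e_i`. (`k = 0`: only the empty set;
`VB n 0 = {0}`.) -/
def VB1_stmt : Prop := ∀ n k : ℕ, sosSums (rootsB n) k = cv '' VB n k

/-- ROW `VC1` (medium). `sosSums (rootsC n) k = cv '' VC n k`. In a strongly orthogonal set of `rootsC n`
two different elements have disjoint supports: for `±e_i ± e_j`, `±e_p ± e_q` with exactly one common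
index a sum or difference is `± e ± e` with two different indices, a root (or `a + b` or `a - b` is
`±e_i ± e_j`); with the same support `{i, j}`: `b ≠ ±a`, so `b = ±(σ e_i - τ e_j)` for `a = σ e_i + τ e_j`
and `a + b` is `±2 e_i` or `±2 e_j`, a root; `2 σ e_i` and `±e_i ± e_j`: `±(σ e_i ...)` the sum or difference
is `σ e_i ± e_j`, a root; `2 σ e_i` and `2 τ e_i` are equal or opposite. So every coordinate of the sum is
`0, ±1, ±2` and `l1 = 2 k` (every root has `l1 = 2`). Conversely for `x` with `t` entries `±2` and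
`s` entries `±1`, `2 t + s = 2 k`, take `x_i e_i` for the entries `±2` and pair the entries `±1`
(`s` is even); disjoint supports imply strongly orthogonal (`k` roots). Induction on `k` is possible. -/
def VC1_stmt : Prop := ∀ n k : ℕ, sosSums (rootsC n) k = cv '' VC n k

/-- ROW `CRD` (short-medium). The number of vectors of type `TD n t s`: choose the `t` positions of the
entries `±2`, the `s` positions of the entries `±1` in the rest, and the signs. For example as a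
bijection with the disjoint union over `P ∈ powersetCard t univ`, `Q ∈ powersetCard s (univ \ P)` of the
functions to `{1, -1}` on `P ∪ Q`, or induction on `n` (`Fin.cons`, Pascal). Also: `TD n t s` is finite,
and nonempty iff `t + s ≤ n`. -/
def CRD_stmt : Prop :=
  (∀ n t s : ℕ, (TD n t s).Finite) ∧
  (∀ n t s : ℕ, t + s ≤ n → (TD n t s).ncard = n.choose t * (n - t).choose s * 2 ^ (t + s)) ∧
  (∀ n t s : ℕ, n < t + s → TD n t s = ∅)

/-- ROW `BTY` (short, from `CNT`). Types of the vertices of `Γ(B_n, k)` and `Γ(C_n, k)`.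
(1) `x ∈ VB n k` iff `|x i| ≤ 2`, (`4 cnt x 2 + cnt x 1 = 2 k` or `4 cnt x 2 + cnt x 1 + 1 = 2 k`),
`2 cnt x 2 + cnt x 1 ≤ n`; (2) `x ∈ VC n k` iff `|x i| ≤ 2`, `2 cnt x 2 + cnt x 1 = 2 k`; (3), (4) for
`|x i| ≤ 2`: `dp x x = 4 cnt x 2 + cnt x 1`, `l1 x = 2 cnt x 2 + cnt x 1` (prove these first, as in
`CNT`); (5), (6) closed under `flp`, `swp`; (7) symmetric without `0` when `1 ≤ k`; (8) finite
(`VB n k` and `VC n k` are contained in the finite set of vectors with `|x i| ≤ 2`).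
Hypothesis: `hCNT : CNT_stmt`. -/
def BTY_stmt : Prop :=
  (∀ (n k : ℕ) (x : Vec n), x ∈ VB n k ↔ (∀ i, |x i| ≤ 2) ∧
    (4 * cnt x 2 + cnt x 1 = 2 * k ∨ 4 * cnt x 2 + cnt x 1 + 1 = 2 * k) ∧
    2 * cnt x 2 + cnt x 1 ≤ n) ∧
  (∀ (n k : ℕ) (x : Vec n), x ∈ VC n k ↔ (∀ i, |x i| ≤ 2) ∧ 2 * cnt x 2 + cnt x 1 = 2 * k) ∧
  (∀ (n : ℕ) (x : Vec n), (∀ i, |x i| ≤ 2) → dp x x = 4 * cnt x 2 + cnt x 1) ∧
  (∀ (n : ℕ) (x : Vec n), (∀ i, |x i| ≤ 2) → l1 x = 2 * cnt x 2 + cnt x 1) ∧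
  (∀ (n k : ℕ) (x : Vec n), x ∈ VB n k →
    (∀ i, flp i x ∈ VB n k) ∧ ∀ a b, swp a b x ∈ VB n k) ∧
  (∀ (n k : ℕ) (x : Vec n), x ∈ VC n k →
    (∀ i, flp i x ∈ VC n k) ∧ ∀ a b, swp a b x ∈ VC n k) ∧
  (∀ n k : ℕ, 1 ≤ k → Sy (VB n k) ∧ Sy (VC n k)) ∧
  (∀ n k : ℕ, (VB n k).Finite ∧ (VC n k).Finite)

/-! ## Block 2: isomorphisms of difference graphs -/

/-- ROW `SYA` (short-medium). Let `ψ` be an isomorphism of `gph S` and `gph S'`, both sets symmetric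
without `0`. Adjacency in `gph S` is `x - y ∈ S` (`x - y ∈ S` iff `y - x ∈ S`, and then `x ≠ y`), cf.
`SLs.adj_iff`, `up_adj`, `up_NI` in `Basic.lean`, which only use `neg` and `zero`. (1) adjacency,
(2) the sets `SS`, (3) empty edges, (4) `NS`, (5) `NI`, (6) degrees, (7) surjective, (8) injective.
For (2): `SS` is expressed by adjacency: `y - z ∈ S` is `y ~ z`, `x - z ∉ S` is `not x ~ z`. -/
def SYA_stmt : Prop :=
  ∀ (n m : ℕ) (S : Set (Vec n)) (S' : Set (Vec m)) (ψ : gph S ≃g gph S'), Sy S → Sy S' →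
    (∀ x ∈ S, ∀ y ∈ S, (up ψ x - up ψ y ∈ S' ↔ x - y ∈ S)) ∧
    (∀ x ∈ S, ∀ y ∈ S, SS S' (up ψ x) (up ψ y) = up ψ '' SS S x y) ∧
    (∀ x ∈ S, ∀ y ∈ S, EE S x y → EE S' (up ψ x) (up ψ y)) ∧
    (∀ x ∈ S, (x ∈ NS S ↔ up ψ x ∈ NS S')) ∧
    (∀ x ∈ S, (x ∈ NI S ↔ up ψ x ∈ NI S')) ∧
    (∀ x ∈ S, (NB S x).ncard = (NB S' (up ψ x)).ncard) ∧
    (∀ x' ∈ S', ∃ x ∈ S, up ψ x = x') ∧
    (∀ x ∈ S, ∀ y ∈ S, up ψ x = up ψ y → x = y)

/-- ROW `RST` (short-medium). Restriction of an isomorphism to subsets `P`, `P'` which correspond to each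
other and are closed under adjacent differences. The adjacency in `gph P` is `x - y ∈ P`, for
`x, y ∈ P` the same as `x - y ∈ S`. Construct the equivalence from `ψ` (`up_of_mem`).
Hypothesis: `hSYA : SYA_stmt`. -/
def RST_stmt : Prop :=
  ∀ (n m : ℕ) (S P : Set (Vec n)) (S' P' : Set (Vec m)) (ψ : gph S ≃g gph S'), Sy S → Sy S' →
    P ⊆ S → P' ⊆ S' → (∀ x ∈ P, -x ∈ P) → (∀ x ∈ P', -x ∈ P') →
    (∀ x ∈ S, (x ∈ P ↔ up ψ x ∈ P')) →
    (∀ x ∈ P, ∀ y ∈ P, x - y ∈ S → x - y ∈ P) → (∀ x ∈ P', ∀ y ∈ P', x - y ∈ S' → x - y ∈ P') →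
    ∃ ψ' : gph P ≃g gph P', ∀ x ∈ P, up ψ' x = up ψ x

/-- ROW `THS` (medium). THE ODD PART OF AN ISOMORPHISM IS ADDITIVE ON ALL EDGES. Let `S`, `S'` be
symmetric without `0`, `S` finite, `χ = odp ψ`. Then `χ (-x) = -χ x` and `χ (x - y) = χ x - χ y` for
`x, y, x - y ∈ S`. Proof. Fix a coordinate `j` of the target, `F x = (up ψ x) j` (real), `f x` the
coordinate of `χ x`, so `f x = (F x - F (-x)) / 2`, odd. For `x ∈ S` let `N x = {y ∈ S | x - y ∈ S}` (as a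
finset), `d x` its number of elements; `y ↦ x - y` is an involution of `N x`. The same in `S'`: for
`x' = up ψ x` the set `N' x'` is the image of `N x` under the injection `up ψ` (`SYA`), and with the
involution `y' ↦ x' - y'`: `2 ∑_{y' ∈ N' x'} y' = d x • x'`. So `∑_{y ∈ N x} F y = (d x / 2) F x`. As
`N (-x) = -N x` (and `d (-x) = d x`): `∑_{y ∈ N x} f y = (d x / 2) f x`. (*)
Let `E` be the finset of the pairs `(x, y)` with `x, y, x - y ∈ S`, `D = ∑_{x ∈ S} d x (f x)²`. The maps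
`(x, y) ↦ (x, x - y)`, `(x, y) ↦ (y, x)`, `(x, y) ↦ (y, y - x)` are bijections of `E`. Hence
`∑_E f(x)² = ∑_E f(y)² = ∑_E f(x-y)² = D`, by (*) `∑_E f(x) f(y) = D/2` and
`∑_E f(x) f(x-y) = D/2`, and `∑_E f(y) f(x-y) = -∑_E f(y) f(y-x) = -∑_E f(x) f(y) = -D/2` (third map).
So `∑_E (f(x) - f(y) - f(x-y))² = 3 D - D - D + 2 (-D/2) = 0`, all terms vanish.
Hypothesis: `hSYA : SYA_stmt`. -/
def THS_stmt : Prop :=
  ∀ (n m : ℕ) (S : Set (Vec n)) (S' : Set (Vec m)) (ψ : gph S ≃g gph S'), S.Finite → Sy S → Sy S' →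
    (∀ x ∈ S, odp ψ (-x) = -odp ψ x) ∧
    ∀ x ∈ S, ∀ y ∈ S, x - y ∈ S → odp ψ (x - y) = odp ψ x - odp ψ y

/-- ROW `ODG` (short-medium). If `x` has two complementary good edges and all edges of `S'` at
`up ψ x` and at `up ψ (-x)` are sharp (`y' - x' ∈ SS S' x' y'`) then `up ψ (-x) = -up ψ x`. Proof. Let
`y ∈ S`, `x - y ∈ S` with `Good S x y`, `Good S x (x - y)`. `Good S x y` says `SS S x y ⊆ {y - x}`. By
`SYA` (2) the element `ψ y - ψ x` of `SS S' (ψ x) (ψ y)` is `ψ z` with `z ∈ SS S x y`, so `z = y - x` and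
`ψ (y - x) = ψ y - ψ x`. `Good` is invariant under negation of both arguments (`S` symmetric), so
`Good S (-x) (y - x)`, hence `SS S (-x) (y - x) ⊆ {(y - x) - (-x)} = {y}` and in the same way
`ψ y = ψ (y - x) - ψ (-x)`. Add. Hypothesis: `hSYA : SYA_stmt`. -/
def ODG_stmt : Prop :=
  ∀ (n m : ℕ) (S : Set (Vec n)) (S' : Set (Vec m)) (ψ : gph S ≃g gph S'), Sy S → Sy S' →
    ∀ x ∈ S, GPr S x →
    (∀ y' ∈ S', up ψ x - y' ∈ S' → y' - up ψ x ∈ SS S' (up ψ x) y') →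
    (∀ y' ∈ S', up ψ (-x) - y' ∈ S' → y' - up ψ (-x) ∈ SS S' (up ψ (-x)) y') →
    up ψ (-x) = -up ψ x

/-- ROW `SLE` (short). In a set with `SLs` all edges are sharp: `y - x ∈ SS S x y`; in particular there
are no empty edges and `NS S = NI S`. Proof: `y - (y - x) = x`; `y - x ≠ x` by `two`; `x - (y - x) ∉ S`:
`nc` with `x` and `v = x - y` says `x + (x - y) ∉ S`; uniqueness: `uc` with `y, x, v`: `y - x ∈ S`,
`x - v ∈ S`, `y - x - v ∈ S` imply `v = y`. (`SLs` gives `Sy`.) -/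
def SLE_stmt : Prop :=
  ∀ (n : ℕ) (S : Set (Vec n)), SLs S → Sy S ∧
    (∀ x ∈ S, ∀ y ∈ S, x - y ∈ S → y - x ∈ SS S x y) ∧ (∀ x y, ¬ EE S x y) ∧ NS S = NI S

/-! ## Block 3: geometry of types B and C -/

/-- ROW `SHB` (short-medium). Edges of `Γ(B_n, k)`. Let `x, y, x - y ∈ VB n k`, `1 ≤ k`. Even: `dp = 2 k`,
odd: `dp = 2 k - 1`. (1) `x - y` is even iff `x`, `y` are both even or both odd (`dp_sub_sub`, parity of
`dp (x-y) (x-y) = dp x x - 2 dp x y + dp y y`). (2) `dp x y = k` if one of `x, y` is even, `dp x y = k - 1`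
if both are odd (`dp_sub_sub` and (1)). (3) if `x` is even, or `x` and `y` are odd, the edge is sharp:
`y - x ∈ SS (VB n k) x y`. Proof: `y - x ∈ VB` (symmetric), `y - (y - x) = x`, `y ≠ 2 x` and
`x - (y - x) = 2 x - y ∉ VB` by the norm: `dp (2x-y) (2x-y) = 4 dp x x - 4 dp x y + dp y y ≥ 6 k - 1 > 2 k`.
Let `v ∈ VB`, `x - v ∈ VB`, `y - x - v ∈ VB`. By (2) `dp v x` and `dp v (y - x)` are `k` or `k - 1`
according to parities, so `dp v y = dp v x + dp v (y - x)` is: `x` even, `y` even: `v` even `2 k`, `v` odd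
`2 k`; `x` even, `y` odd: `v` even `2 k`, `v` odd `2 k - 1`; `x, y` odd: `v` even `2 k`, `v` odd `2 k - 1`.
`0 ≤ dp (v - y) (v - y) = dp v v + dp y y - 2 dp v y` is negative or zero in all cases, so `v = y`
(`eq_zero_of_dp`). -/
def SHB_stmt : Prop :=
  ∀ (n k : ℕ) (x y : Vec n), 1 ≤ k → x ∈ VB n k → y ∈ VB n k → x - y ∈ VB n k →
    (dp (x - y) (x - y) = 2 * k ↔ (dp x x = 2 * k ↔ dp y y = 2 * k)) ∧
    (dp x x = 2 * k ∨ dp y y = 2 * k → dp x y = k) ∧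
    (dp x x = 2 * k - 1 → dp y y = 2 * k - 1 → dp x y = k - 1) ∧
    (dp x x = 2 * k ∨ dp y y = 2 * k - 1 → y - x ∈ SS (VB n k) x y)

/-- ROW `SHC` (medium). Edges of `Γ(C_n, k)` at the vertices `x ∈ TD n k 0` (all entries `0, ±2`).
Let `x ∈ TD n k 0`, `y, x - y ∈ VC n k`, `1 ≤ k`, `P = supp x`, `x i = 2 ε i` for `i ∈ P`. (1) `ε i y i ≥ 0` on
`P` (`|x i - y i| ≤ 2`) and `∑_{P} |y i| = k = ∑_{i ∉ P} |y i|`: `l1 (x - y) = ∑_P (2 - |y i|) + ∑_{i ∉ P} |y i|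
= 2 k` and `l1 y = 2 k`. (2) the edge is sharp. Proof: `z = y - x`. `z ≠ x` (`y = 2 x` has entries `4`).
`x - z = 2 x - y ∈ VC` would need `|4 - |y i|| ≤ 2`, so `|y i| = 2` on `P`, contradicting (1). Let
`v, x - v, z - v ∈ VC`. On `P`: `ε v ∈ [0,2]`, `ε z = ε y - 2`, `|z i - v i| = 2 - ε y + ε v ≤ 2`, so
`ε v ≤ ε y` on `P`, and the sums over `P` are both `k` by (1) for `v` and `y`, so `v = y` on `P`. Then
`|z i - v i| = 2` on `P`, so `l1 (z - v) = 2 k` gives `∑_{i ∉ P} |y i - v i| = 0`, `v = y`. (3) if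
`x, y ∈ TD n k 0` and `x - y ∈ VC n k` then `x - y ∈ TD n k 0` (entries even and `≤ 2`).
Hypothesis: `hBTY : BTY_stmt`. -/
def SHC_stmt : Prop :=
  ∀ (n k : ℕ) (x y : Vec n), 1 ≤ k → x ∈ TD n k 0 → y ∈ VC n k → x - y ∈ VC n k →
    y - x ∈ SS (VC n k) x y ∧ (y ∈ TD n k 0 → x - y ∈ TD n k 0)

/-- ROW `NEB` (short-medium). Graphs without edges. (1) If `x, y, x - y ∈ VB n k`, `1 ≤ k`, then (`k` odd and
`k + 1 ≤ n`), or (`k % 4 = 2` and `k + 1 ≤ n`), or (`k % 4 = 0` and `k ≤ n`). Proof. By `BTY`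
`4 t + s ∈ {2 k, 2 k - 1}`, `2 t + s ≤ n`, so `2 k - 1 ≤ 2 n - s`, `k ≤ n`. `k` odd and `n = k`: `4 t + s = 2 k`
and `2 t + s ≤ k` would give `2 t ≥ k`, `4 t ≥ 2 k + 2` (`k` odd), impossible; so all three vertices are
odd, contradicting `SHB` (1). `k % 4 = 2` and `n = k`: all three have type `(k/2, 0)`, so all entries are
even, `dp x y = k` (`SHB`) is divisible by `4`, contradiction. (2) If `x, y, x - y ∈ VC n k` then
`3 k ≤ 2 n`: `|a| + |b| + |a - b| = 2 max(|a|, |b|, |a-b|) ≤ 4` for the coordinates (as the three numbers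
`a, -b, b - a` have sum `0`), the sum over the coordinates is `6 k ≤ 4 n`.
Hypotheses: `hBTY : BTY_stmt`, `hSHB : SHB_stmt`. -/
def NEB_stmt : Prop :=
  (∀ (n k : ℕ) (x y : Vec n), 1 ≤ k → x ∈ VB n k → y ∈ VB n k → x - y ∈ VB n k →
    (k % 2 = 1 ∧ k + 1 ≤ n) ∨ (k % 4 = 2 ∧ k + 1 ≤ n) ∨ (k % 4 = 0 ∧ k ≤ n)) ∧
  (∀ (n k : ℕ) (x y : Vec n), x ∈ VC n k → y ∈ VC n k → x - y ∈ VC n k → 3 * k ≤ 2 * n)

/-- ROW `BDN` (short). `VB n n = VD n n` when `4 ∣ n` (and always `VD n k ⊆ VB n k`): for `n = k` even the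
type `4 t + s + 1 = 2 k`, `2 t + s ≤ k` is impossible: `2 t ≥ k - 1`, so `2 t ≥ k`, `4 t ≥ 2 k`.
Also the even vertices of `Γ(B_n, k)` are the vertices of `Γ(D_n, k)`: `x ∈ VB n k`, `dp x x = 2 k` iff
`x ∈ VD n k`. Hypotheses: `hCNT : CNT_stmt`, `hBTY : BTY_stmt`. -/
def BDN_stmt : Prop :=
  (∀ n : ℕ, n % 4 = 0 → VB n n = VD n n) ∧
  (∀ (n k : ℕ) (x : Vec n), x ∈ VD n k ↔ x ∈ VB n k ∧ dp x x = 2 * k)

/-! ## Block 4: the special graphs `n = k + 1`, `k` even (type B) and `2 n = 3 k` (type C) -/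

/-- ROW `BFN` (medium). `κ ≥ 2`, `n = 2 κ + 1`, `k = 2 κ`: `Γ(B_n, k)` has no empty edges. The vertices are
the even ones `TD n κ 0` and the odd ones `TD n (κ-1) 3` (`BTY`: `4 t + s = 4 κ`, `2 t + s ≤ 2 κ + 1` gives
`t = κ`; `4 t + s + 1 = 4 κ` gives `t = κ - 1`). By `SHB` (3) only edges with `x ∈ TD n (κ-1) 3` odd and
`y ∈ TD n κ 0` even remain. Let `T = supp y`, `a, b, c` the numbers of `i ∈ T` with `|x i| = 2, 1, 0`. On
`T` the signs agree where `x i ≠ 0` (`|x i - y i| ≤ 2`), `dp x y = 2 (2 a + b) = 2 κ`, `a + b + c = κ`; so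
`2 a + b = κ`, `c = a`, `b ≤ 3`.
Case `b ≠ 1`: `y - x ∈ SS`. As in `SHB`, except the uniqueness for `v` odd (`v` even gives
`dp v y = 2 k`, `v = y`): `dp v x = k - 1`, `dp v (y - x) = k - 1` (`x`, `y - x`, `v` odd), so
`dp v y = 2 k - 2`, i.e. `∑_{i ∈ T} ε i v i = 2 κ - 1` (`y i = 2 ε i`, `|T| = κ`): `ε i v i = 2` for all `i ∈ T`
except one `p` with `|v p| = 1`. `x - v` is even, so in `TD n κ 0`, so `v ≡ x mod 2`: `v` and `x` have their
odd entries at the same three places. `v` has `κ - 1` entries `±2`, all in `T`, so the three odd entries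
of `v` are at `p` and at two places outside of `T`: `b = 1`, contradiction.
Case `b = 1`: then `κ` is odd, `κ ≥ 3`, `a = (κ-1)/2 ≥ 1`. Outside of `T` the vector `x` has
`κ - 1 - a = a ≥ 1` entries `±2` and two entries `±1`. Choose `q, p ∉ T` with `|x q| = 2`, `|x p| = 1`, and let
`z = y - x` except `z q = -x q / 2`, `z p = -2 x p`. Then `z ∈ TD n (κ-1) 3` and `y - z ∈ TD n (κ-1) 3` (it
is `x` with the absolute values at `p`, `q` exchanged), `|x p - z p| = 3`, so `z ≠ x`, `x - z ∉ VB`. Let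
`v ∈ VB` with `x - v, z - v ∈ VB`. `v` odd: then `x - v`, `z - v` are even, so `v ≡ x`, `v ≡ z mod 2`, but `x`, `z`
differ mod `2` at `q`. `v` even: `dp v x = dp v z = k`, so `∑_{i ∈ supp v} ε' i (x i + z i) = 2 κ` with
`v i = 2 ε' i`, `|supp v| = κ`, while `|x i + z i| = 2` for `i ∈ T`, `|x i + z i| ≤ 1` for `i ∉ T`: so
`supp v = T` and `v = y`. Hypotheses: `hCNT : CNT_stmt`, `hBTY : BTY_stmt`, `hSHB : SHB_stmt`. -/
def BFN_stmt : Prop :=
  ∀ κ : ℕ, 2 ≤ κ → ∀ x y : Vec (2 * κ + 1), ¬ EE (VB (2 * κ + 1) (2 * κ)) x y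

/-- ROW `C2S` (medium). `κ ≥ 1`, `n = 3 κ`, `k = 2 κ`: every edge `x, y` of `Γ(C_n, k)` has at least two
elements in `SS`. For an edge every coordinate satisfies `|x i| + |y i| + |x i - y i| ≤ 4` (row `NEB`) and
the sum over the coordinates is `6 k = 4 n`; so equality holds everywhere, i.e. `max = 2`; up to a common
sign the pairs `(x i, y i)` are `(2,2), (2,0), (0,2), (2,1), (1,2), (1,-1)`; let `a, b, c, d, e, f` be
their numbers. Then `a + b + c + d + e + f = 3 κ` and the three sums `l1 = 4 κ` give `2 c + e + f = 2 κ`,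
`2 b + d + f = 2 κ`, `2 a + d + e = 2 κ`. So for `|w| ≤ 2` and an edge `(x, w)`: `w i` is in the set `A (x i)`,
`A 2 = {0,1,2}`, `A 1 = {2,-1}`, `A 0 = {2,-2}`, `A (-1) = {-2,1}`, `A (-2) = {0,-1,-2}`; conversely if
`y i ∈ A (x i)` for all `i` and `l1 x = l1 y = 4 κ` then `l1 (x - y) = 12 κ - 8 κ`, so it is an edge.
Criterion: let `z` with `l1 z = 4 κ`, `z i ∈ A (y i)` for all `i`, `z i ∉ A (x i)` for some `i`, and suppose that
for each `i` either `A (x i) ∩ A (z i) = {y i}` or the elements of `A (x i) ∩ A (z i)` other than `y i` have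
a smaller absolute value than `y i`, except for at most one `i` for which the elements of the
intersection have different absolute values (and in this exceptional case all the other `i` are of the
first kind). Then `z ∈ SS` (a common neighbour `v` has `v i ∈ A (x i) ∩ A (z i)` and `l1 v = 4 κ = l1 y`).
First element: `z = y - x`: values (up to the sign) `0, -2, 2, -1, 1, -2`; the intersections are `{y i}`
except for the pairs `(1,2)`, `z i = 1`: `{2,-1}`. Not adjacent to `x`: `2 b + d + f = 2 κ > 0`, and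
`-2 ∉ A 2`, `-1 ∉ A 2`, `-2 ∉ A 1`. Second element, a modification of `y - x` in two coordinates:
`e ≥ 2`: two pairs `(1,2)`: `z = 0` and `z = 2` instead of `1, 1`. `e = 1` (then `d` is odd, `d ≥ 1`): the
pair `(1,2)`: `z = 0`, one pair `(2,1)`: `z = 2` (instead of `1`, `-1`; exceptional `i`,
`A 2 ∩ A 2 = {0,1,2}`). `e = 0`, `a, c ≥ 1`: `(2,2)`: `z = 1`, `(0,2)`: `z = 1`. `e = 0 = a`: `d = 2 κ`, `c = κ`:
`(2,1)`: `z = 2` (exceptional), `(0,2)`: `z = 1`. `e = 0 = c`: `f = 2 κ`, `a = κ`: `(1,-1)`: `z = 1`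
(exceptional, `A 1 ∩ A 1 = {2,-1}`), `(2,2)`: `z = 1`. Not adjacent to `x` because of a value `0 ∉ A 1`, or
`1 ∉ A 0`, or another pair `(1,-1)` with `z = -2`. (A proof by cases with a general lemma
is fine.) Hypothesis: `hBTY : BTY_stmt`. -/
def C2S_stmt : Prop :=
  ∀ κ : ℕ, 1 ≤ κ → ∀ x y : Vec (3 * κ), x ∈ VC (3 * κ) (2 * κ) → y ∈ VC (3 * κ) (2 * κ) →
    x - y ∈ VC (3 * κ) (2 * κ) → ∃ z ∈ SS (VC (3 * κ) (2 * κ)) x y,
      ∃ z' ∈ SS (VC (3 * κ) (2 * κ)) x y, z ≠ z'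

/-- ROW `MON` (short-medium). The vertex numbers increase strictly: append `(2, 0)` (type B: the square
sum increases by `4 = 2 * 2`, `l1` by `2`) resp. `(2, 2, 0)` (type C: `l1` increases by `4`) to a vertex;
this is injective and not surjective (`(..., -2, 0)` resp. `(..., -2, 2, 0)` is a vertex as well, the
vertex sets are nonempty). The sets are finite (`BTY`). Hypothesis: `hBTY : BTY_stmt`. -/
def MON_stmt : Prop :=
  (∀ κ κ' : ℕ, 1 ≤ κ → κ < κ' →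
    (VB (2 * κ + 1) (2 * κ)).ncard < (VB (2 * κ' + 1) (2 * κ')).ncard) ∧
  (∀ κ κ' : ℕ, 1 ≤ κ → κ < κ' → (VC (3 * κ) (2 * κ)).ncard < (VC (3 * κ') (2 * κ')).ncard)

/-- ROW `TRS` (short-medium). Transitivity: a function on `TD n t s` which is invariant under all `flp i`
and `swp a b` is constant. (As in the proof of `LX3`: induction on the number of `j` with
`|x j| ≠ |x' j|`, then on the number of `j` with `x j ≠ x' j`.) Second statement: the same for `VA n 1`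
with `swp` only. Hypothesis: `hCNT : CNT_stmt`. -/
def TRS_stmt : Prop :=
  (∀ (n t s : ℕ) (M : Type) (g : Vec n → M), (∀ x ∈ TD n t s, ∀ i, g (flp i x) = g x) →
    (∀ x ∈ TD n t s, ∀ a b, g (swp a b x) = g x) → ∀ x ∈ TD n t s, ∀ x' ∈ TD n t s, g x = g x') ∧
  (∀ (n : ℕ) (M : Type) (g : Vec n → M), (∀ x ∈ VA n 1, ∀ a b, g (swp a b x) = g x) →
    ∀ x ∈ VA n 1, ∀ x' ∈ VA n 1, g x = g x')

/-- ROW `BDG` (medium). `κ ≥ 2`, `n = 2 κ + 1`, `k = 2 κ`: even and odd vertices of `Γ(B_n, k)` have different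
degrees. Proof. `V = VB n k = TD n κ 0 ∪ TD n (κ-1) 3` (see `BFN`). For `v` even let `m(v)` be the number of odd
neighbours, for `x` odd let `m'(x)` be the number of even neighbours. They are invariant under `flp`,
`swp` (which preserve `V` and the parities and commute with subtraction), so constant `m`, `m'` (`TRS`).
Double counting of the pairs: `|TD n κ 0| m = |TD n (κ-1) 3| m'`. For `x` odd `y ↦ x - y` is a bijection of
the even and the odd neighbours (`SHB` (1)), so the degree of `x` is `2 m'`; the degree of `v` is at least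
`m`. If the degrees are equal, `m ≤ 2 m'`, so `|TD n (κ-1) 3| m' ≤ 2 |TD n κ 0| m'`. `m' > 0`: the vertex
`x = (2^{κ-1}, 1^3, 0^{κ-1})` has an even neighbour (`PAT` with
`(a, κ-1-a, 0 | 0, 3-b, b, 0 | a, 0, κ-1-a)`, `b = κ % 2`, `2 a + b = κ`, or explicitly). So
`|TD n (κ-1) 3| ≤ 2 |TD n κ 0|`. By `CRD` these numbers are `C(n,κ-1) C(κ+2,3) 2^(κ+2)` and
`C(n,κ) 2^κ`, and `κ C(n,κ) = (κ+2) C(n,κ-1)` (`Nat.succ_mul_choose_eq` or similar), so
`4 κ C(κ+2,3) ≤ 2 (κ+2)`, false since `C(κ+2,3) ≥ 4`.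
Hypotheses: `hCNT : CNT_stmt`, `hPAT : PAT_stmt`, `hBTY : BTY_stmt`, `hSHB : SHB_stmt`,
`hTRS : TRS_stmt`, `hCRD : CRD_stmt`. -/
def BDG_stmt : Prop :=
  ∀ κ : ℕ, 2 ≤ κ → ∀ v ∈ TD (2 * κ + 1) κ 0, ∀ x ∈ TD (2 * κ + 1) (κ - 1) 3,
    (NB (VB (2 * κ + 1) (2 * κ)) v).ncard ≠ (NB (VB (2 * κ + 1) (2 * κ)) x).ncard

/-- ROW `PRB` (medium). `κ ≥ 2`, `n = 2 κ + 1`, `k = 2 κ`, `x ∈ TD n (κ-1) 3`, `w : Fin n → ℝ` with
`∑ y_i w_i = K` for all `y ∈ TD n κ 0` with `x - y ∈ VB n k`. Then `w i = (K / (2 κ)) x_i`. Proof. Patterns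
(`PAT`) `Y(a,b) = (a, κ-1-a, 0 | 0, 3-b, b, 0 | a, 0, κ-1-a)` with `2 a + b = κ`, `b ≤ 3`: then `y ∈ TD n κ 0`,
`x - y ∈ TD n (κ-1) 3 ⊆ VB n k`. (i) `w z = 0` when `x z = 0`: take `b = κ % 2`, `a = (κ-b)/2 ≥ 1`, `z ↦ 2`; `y` and
`flp z y` are both admissible (`x - flp z y = flp z (x - y)`), so `4 w z = 0`. (ii) `x_p w_p = x_q w_q` for
`|x p| = |x q| = 2`, `p ≠ q` (then `κ ≥ 3`): the same `(a, b)`, `1 ≤ a ≤ κ - 2`, `p ↦ 2`, `q ↦ 0`; the vector
`y'` with `y' p = 0`, `y' q = x q`, otherwise as `y`, is admissible. (iii) `x_p w_p = x_q w_q` for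
`|x p| = |x q| = 1`, `p ≠ q`: `b = 2` (`κ` even) or `b = 1` (`κ` odd), `p ↦ 2`, `q ↦ 0`, and exchange. Let
`x_p w_p = 2 A` for the entries `±2`, `x_p w_p = B` for the entries `±1`. The equation for `Y(a,b)` is
`2 a A + 2 b B = K` (`y_p = x_p` contributes `2 A`, `y_p = 2 x_p` contributes `2 B`). With `b = 0, 2`
(`κ` even) or `b = 1, 3` (`κ` odd, `κ ≥ 3`): `A = 2 B` and `κ A = K`. So `w p = (2 A) / x_p = A x_p / 2 =
(K / (2 κ)) x_p` for `|x p| = 2` and `w p = B x_p = (K / (2κ)) x_p` for `|x p| = 1`.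
Hypotheses: `hCNT : CNT_stmt`, `hPAT : PAT_stmt`, `hBTY : BTY_stmt`. -/
def PRB_stmt : Prop :=
  ∀ (κ : ℕ) (x : Vec (2 * κ + 1)) (w : Fin (2 * κ + 1) → ℝ) (K : ℝ), 2 ≤ κ →
    x ∈ TD (2 * κ + 1) (κ - 1) 3 →
    (∀ y ∈ TD (2 * κ + 1) κ 0, x - y ∈ VB (2 * κ + 1) (2 * κ) → ∑ i, (y i : ℝ) * w i = K) →
    ∀ i, w i = K / (2 * κ) * (x i : ℝ)

/-! ## Block 5: linearity on the orbits `TD n κ 0` -/

/-- ROW `GLZ` (medium). Let `V` be closed under `flp`, `swp` and negation, `f` odd on `V` and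
`f (x - y) = f x - f y` for all `x, y, x - y ∈ V`; `O = TD n κ 0 ⊆ V`; (h1) for `x ∈ O`, `i ≠ j` in the support
there is `y ∈ V`, `x - y ∈ V` with `y i = x i`, `y j = 0`; (h2) for `x ∈ O`, `i, a` in the support,
`b` not, all different, there is `y ∈ V`, `x - y ∈ V`, `y i = x i`, `|y a| = |y b|`. Then `f` is linear on `O`.
Proof. `D x := f x - f (flp i x)` for a fixed `i`. (A) if `y, x - y ∈ V`, `y i = x i`, then `D x = D y`:
`flp i x - (x - y) = flp i y`, so `f (flp i y) = f (flp i x) - f (x - y)` and `f y = f x - f (x - y)`.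
(B) `D (flp j x) = D x` for `x ∈ O`, `x i = 2`, `j ≠ i`: trivial if `x j = 0`; otherwise `y` from (h1) is also
a neighbour of `flp j x` (`flp j x - y = flp j (x - y)`), with `(flp j x) i = y i`, so both are `D y`. (C)
`D (swp a b x) = D x` for `x i = 2`, `a, b ≠ i`, `x a ≠ 0 = x b`: `y` from (h2); replacing `y` by
`flp b y` if necessary (`x - flp b y = flp b (x - y)` as `x b = 0`) we have `y a = y b`; then
`swp a b x - y = swp a b (x - y) ∈ V`, so `D (swp a b x) = D y = D x` by (A). By `LX3` (`w = 2`, `v = 2`; its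
third condition is void since the entries of `x ∈ O` have absolute value `0` or `2`) `D` is constant
on `{x ∈ O | x i = 2}`, say `= 4 T_i` (`T_i = 0` if the set is empty), and `D (flp i x) = -D x`; so
`D x = (2 x_i) T_i` for all `x ∈ O`. Apply `LX4`.
Hypotheses: `hCNT : CNT_stmt`, `hLX3 : LX3_stmt`, `hLX4 : LX4_stmt`. -/
def GLZ_stmt : Prop :=
  ∀ (n κ : ℕ) (V : Set (Vec n)) (M : Type) [AddCommGroup M] [Module ℝ M] (f : Vec n → M),
    (∀ x ∈ V, ∀ i, flp i x ∈ V) → (∀ x ∈ V, ∀ a b, swp a b x ∈ V) → (∀ x ∈ V, -x ∈ V) →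
    (∀ x ∈ V, f (-x) = -f x) → (∀ x ∈ V, ∀ y ∈ V, x - y ∈ V → f (x - y) = f x - f y) →
    (∀ x ∈ TD n κ 0, x ∈ V) →
    (∀ x ∈ TD n κ 0, ∀ i j, i ≠ j → x i ≠ 0 → x j ≠ 0 →
      ∃ y ∈ V, x - y ∈ V ∧ y i = x i ∧ y j = 0) →
    (∀ x ∈ TD n κ 0, ∀ i a b, i ≠ a → i ≠ b → a ≠ b → x i ≠ 0 → x a ≠ 0 → x b = 0 →
      ∃ y ∈ V, x - y ∈ V ∧ y i = x i ∧ |y a| = |y b|) →
    ∃ T : Fin n → M, ∀ x ∈ TD n κ 0, f x = ∑ i, (x i : ℝ) • T i

/-- ROW `GLB` (short-medium). The hypotheses (h1), (h2) of `GLZ` for `V = VB (2κ+1) (2κ)`, `κ ≥ 2`, and hence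
linearity. Patterns (`PAT`): `κ = 2 r`: `(r, r, 0 | 0, 0, 0, 0 | r, 0, r + 1)`: (h1) `i ↦ 2`, `j ↦ 0`; (h2)
`i ↦ 2`, `a ↦ 0`, `b ↦ 0`. `κ = 2 r + 1`, `r ≥ 1`: `(r, r, 1 | 0, 0, 0, 0 | r, 2, r)`: (h1) `i ↦ 2`, `j ↦ 0`;
(h2) `i ↦ 2`, `a ↦ 1`, `b ↦ 1`. (`sg (x i) * 2 = x i` when `|x i| = 2`; the types of `y`, `x - y` are
`(κ, 0)` resp. `(κ - 1, 3)`, in `VB` by `BTY`.) Hypotheses: `hCNT : CNT_stmt`, `hPAT : PAT_stmt`,
`hBTY : BTY_stmt`, `hGLZ : GLZ_stmt`. -/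
def GLB_stmt : Prop :=
  ∀ (κ : ℕ) (M : Type) [AddCommGroup M] [Module ℝ M] (f : Vec (2 * κ + 1) → M), 2 ≤ κ →
    (∀ x ∈ VB (2 * κ + 1) (2 * κ), f (-x) = -f x) →
    (∀ x ∈ VB (2 * κ + 1) (2 * κ), ∀ y ∈ VB (2 * κ + 1) (2 * κ), x - y ∈ VB (2 * κ + 1) (2 * κ) →
      f (x - y) = f x - f y) →
    ∃ T : Fin (2 * κ + 1) → M, ∀ x ∈ TD (2 * κ + 1) κ 0, f x = ∑ i, (x i : ℝ) • T i

/-- ROW `GLC` (short-medium). The same for `V = VC n k`, `k ≥ 2`, `3 k < 2 n`, `O = TD n k 0`. Patterns: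
`k = 2 r`: `(r, r, 0 | 0, 0, 0, 0 | r, 0, n - 3 r)`, `n - 3 r ≥ 1`, as in `GLB`; `k = 2 r + 1`, `r ≥ 1`:
`(r, r, 1 | 0, 0, 0, 0 | r, 1, n - 3 r - 2)`: (h1) `i ↦ 2`, `j ↦ 0`; (h2) `i ↦ 2`, `a ↦ 1`, `b ↦ 1`. The types
of `y`, `x - y` are `(2r, 0)` resp. `(2r, 2)`. Hypotheses: `hCNT : CNT_stmt`, `hPAT : PAT_stmt`,
`hBTY : BTY_stmt`, `hGLZ : GLZ_stmt`. -/
def GLC_stmt : Prop :=
  ∀ (n k : ℕ) (M : Type) [AddCommGroup M] [Module ℝ M] (f : Vec n → M), 2 ≤ k → 3 * k < 2 * n →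
    (∀ x ∈ VC n k, f (-x) = -f x) →
    (∀ x ∈ VC n k, ∀ y ∈ VC n k, x - y ∈ VC n k → f (x - y) = f x - f y) →
    ∃ T : Fin n → M, ∀ x ∈ TD n k 0, f x = ∑ i, (x i : ℝ) • T i

/-! ## Block 6: numbers -/

/-- ROW `NMB` (medium). Vertex numbers of generic graphs of type B. By `BTY` `VB n k` contains all types
`TD n t s` with `4 t + s ∈ {2k, 2k-1}`, `2 t + s ≤ n`, and is their disjoint union; `CRD`. (1) `k = 1`:
`|VB n 1| = 2 n (n-1) + 2 n = 2 n²`. (2) `GenB n k` implies that `|VB n k|` is not `12, 14, 48, 120, 240`: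
`k = 1`: `2 n²`. `k = 2`, `n ≥ 5`: `n = 5`: `10 + 80 + 80 = 170`; `n ≥ 6`: at least
`2 n + 16 C(n,4) ≥ 252`. `k = 3`: `n = 4`: `96 + 48 = 144`; `n ≥ 5`: `TD n 1 2` and `TD n 1 1` have at least
`240 + 80` elements. `k = 4`, `n ≥ 6`: `TD n 1 4` at least `960`. `k = 5`, `n ≥ 6`: `TD n 2 2` at least `1440`.
`k ≥ 6` even, `n ≥ k + 2`: `TD n (k/2) 0`: `C(n, k/2) 2^(k/2) ≥ C(8,3) * 8 = 448`
(`C(n, t) ≥ C(2t+2, t) ≥ C(8,3)` for `t ≥ 3`, `n ≥ 2 t + 2`). `k ≥ 7` odd, `n ≥ k + 1`: `TD n ((k-1)/2) 2`: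
at least `C(n, t) 2^(t+2)`, `t = (k-1)/2 ≥ 3`, `n ≥ 2 t + 2`. (3) `|VB 4 3| = 144`, `|VB 4 2| = 56`,
`|VB 3 2| = 14`, `|VB 5 4| = 360`, `|VB 7 6| = 7000`, `109536 ≤ |VB 9 8|`.
Hypotheses: `hCNT : CNT_stmt`, `hBTY : BTY_stmt`, `hCRD : CRD_stmt`. -/
def NMB_stmt : Prop :=
  (∀ n : ℕ, (VB n 1).ncard = 2 * n ^ 2) ∧
  (∀ n k : ℕ, GenB n k → (VB n k).ncard ≠ 12 ∧ (VB n k).ncard ≠ 14 ∧ (VB n k).ncard ≠ 48 ∧
    (VB n k).ncard ≠ 120 ∧ (VB n k).ncard ≠ 240) ∧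
  (VB 4 3).ncard = 144 ∧ (VB 4 2).ncard = 56 ∧ (VB 3 2).ncard = 14 ∧ (VB 5 4).ncard = 360 ∧
    (VB 7 6).ncard = 7000 ∧ 109536 ≤ (VB 9 8).ncard

/-- ROW `NMC` (medium). The same for type C. `VC n k` is the disjoint union of the `TD n t s`,
`2 t + s = 2 k`. (1) `|VC n 1| = 2 n + 2 n (n-1) = 2 n²`. (2) `GenC n k` implies that `|VC n k|` is not
`12, 14, 48, 120, 240`: `k = 1`: `2 n²`, `n ≥ 3`; `k = 2`, `n ≥ 4`: `n = 4`: `24 + 96 + 16 = 136`; `n ≥ 5`: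
`TD n 2 0`, `TD n 1 2`: at least `40 + 240`; `k = 3`, `n ≥ 5`: `TD n 2 2` at least `480`; `k ≥ 4` (`n ≥ k + 3`):
`TD n k 0`: `C(n,k) 2^k ≥ C(k+3,3) 2^k ≥ 35 * 16`. (3) `|VC 3 2| = 36`, `|VC 6 4| = 3120`,
`102144 ≤ |VC 9 6|` (`TD 9 6 0` and `TD 9 5 2`). (4) `k ≥ 2`, `GenC n k`: `5 |TD n k 0| ≤ |VC n k|`: `TD n (k-1) 2`
has `|TD n k 0| * k (n-k)` elements (`C(n,k-1) C(n-k+1,2) 2^(k+1)` and
`C(n,k-1) (n-k+1) = k C(n,k)`), and `k (n - k) ≥ 4` (`n - k > k/2`, so `n - k ≥ 2`).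
(5) `|TD n 1 0| = 2 n`. Hypotheses: `hCNT : CNT_stmt`, `hBTY : BTY_stmt`, `hCRD : CRD_stmt`. -/
def NMC_stmt : Prop :=
  (∀ n : ℕ, (VC n 1).ncard = 2 * n ^ 2) ∧
  (∀ n k : ℕ, GenC n k → (VC n k).ncard ≠ 12 ∧ (VC n k).ncard ≠ 14 ∧ (VC n k).ncard ≠ 48 ∧
    (VC n k).ncard ≠ 120 ∧ (VC n k).ncard ≠ 240) ∧
  (VC 3 2).ncard = 36 ∧ (VC 6 4).ncard = 3120 ∧ 102144 ≤ (VC 9 6).ncard ∧
  (∀ n k : ℕ, GenC n k → 2 ≤ k → 5 * (TD n k 0).ncard ≤ (VC n k).ncard) ∧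
  (∀ n : ℕ, (TD n 1 0).ncard = 2 * n)

/-- ROW `NMA` (medium). Vertex number `56` for types A and D. (1) `VA n k`, `1 ≤ k`, `3 k ≤ n`: the number is
`C(n,k) C(n-k,k)`; it is `56` only for `k = 1`, `n = 8` (`k = 1`: `n (n-1)`; `k ≥ 2`: at least
`C(n,k) C(n-k,k) ≥ C(6,2) C(4,2) = 90`; e.g. `C(n,k) ≥ C(3k,k) ≥ 15` and
`C(n-k,k) ≥ C(2k,k) ≥ 6`). (2) `VD n k`, `4 ≤ n`, `1 ≤ k` and (`k % 4 = 0 ∧ k ≤ n` or `k % 2 = 1 ∧ k + 1 ≤ n` or
`k % 4 = 2 ∧ k + 2 ≤ n`): never `56`: `VD n k` is the disjoint union of `TD n t s`, `4 t + s = 2 k`,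
`2 t + s ≤ n` (`CNT`). `k = 1`: `2 n (n-1)`; `k = 2`: `n = 4`: `24`, `n ≥ 5`: `≥ 90`; `k = 3`: `TD n 1 2` `≥ 96`;
`k = 4`: `n = 4`: `24`, `n = 5`: `40`, `n ≥ 6`: `TD n 1 4` `≥ 960`; `k = 5`: `TD n 2 2` `≥ 1440`; `k = 6`, `n ≥ 8`:
`TD n 3 0` `≥ 448`; `k = 7`, `n ≥ 8`: `TD n 3 2` large; `k ≥ 8`: `TD n t s` with `t = k/2 ≥ 4`,
`s = 2k - 4t`, `t + s ≤ n`: at least `C(n,t) 2^t ≥ 2^4 C(8,4)`.
(3) all vertices of `Γ(A_{n-1}, 1)` have the same degree (`TRS` (2)).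
Hypotheses: `hCNT : CNT_stmt`, `hCRD : CRD_stmt`, `hTRS : TRS_stmt`. -/
def NMA_stmt : Prop :=
  (∀ n k : ℕ, 1 ≤ k → 3 * k ≤ n → (VA n k).ncard = 56 → k = 1 ∧ n = 8) ∧
  (∀ n k : ℕ, 4 ≤ n → 1 ≤ k → ((k % 4 = 0 ∧ k ≤ n) ∨ (k % 2 = 1 ∧ k + 1 ≤ n) ∨
    (k % 4 = 2 ∧ k + 2 ≤ n)) → (VD n k).ncard ≠ 56) ∧
  (∀ (n : ℕ) (x y : Vec n), x ∈ VA n 1 → y ∈ VA n 1 →
    (NB (VA n 1) x).ncard = (NB (VA n 1) y).ncard)

/-- ROW `SMB` (short-medium, finite computation in `Vec 3`, `Vec 4`). (1) `EE (VB 3 2) (1,1,1) (2,0,0)`.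
(2) `VB 4 2` has no empty edge (the edges at odd vertices: `x = (1,1,1,0)`, the even neighbours are
`±2 e_i`-like `(2,0,0,0)`; `SS` contains `(1,-1,-1,1)`; up to signs and permutations; the other edges are
sharp by `SHB`). (3) `(2,0,0,0)` and `(1,1,1,0)` have different degrees in `VB 4 2` (`20` and `6`).
(4) `VB 4 2` has an edge with at most one element in `SS`: `x = (2,0,0,0)`, `y = (1,1,1,1)`: then
`SS ⊆ {y - x}`. Everything by `decide +kernel` over the list of the vertices is fine (for (2) all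
`56` vertices: pairs `x, y` and a witness `z ∈ SS`, checking uniqueness over the `56` vertices).
Hypothesis (optional): `hSHB : SHB_stmt`. -/
def SMB_stmt : Prop :=
  EE (VB 3 2) ![1, 1, 1] ![2, 0, 0] ∧ (∀ x y, ¬ EE (VB 4 2) x y) ∧
  (![2, 0, 0, 0] ∈ VB 4 2 ∧ ![1, 1, 1, 0] ∈ VB 4 2 ∧
    (NB (VB 4 2) ![2, 0, 0, 0]).ncard ≠ (NB (VB 4 2) ![1, 1, 1, 0]).ncard) ∧
  ∃ x y : Vec 4, x ∈ VB 4 2 ∧ y ∈ VB 4 2 ∧ x - y ∈ VB 4 2 ∧
    ∀ z ∈ SS (VB 4 2) x y, z = y - x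

/-! ## Block 7: F4 and G2 -/

/-- ROW `F4S` (short-medium). Doubled coordinates: `sosSums rootsF4 k` is the image of `sosSums RF4 k`
under `x ↦ x / 2`. `RF4` consists of `±2 e_i`, `(±1,±1,±1,±1)` (norm `4`: one entry `±2` or four entries
`±1`) and `±2 e_i ± 2 e_j` (even entries, norm `8`); so `rootsF4` is the image of `RF4` under the
injective additive map `x ↦ x / 2`, and strongly orthogonal sets and sums correspond. -/
def F4S_stmt : Prop :=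
  ∀ k : ℕ, sosSums rootsF4 k = (fun x : Vec 4 => fun i => (x i : ℝ) / 2) '' sosSums RF4 k

/-- ROW `F4N` (medium, finite computation with `48` vectors in `ℤ^4`). The numbers of vertices
`48, 120, 240` for `k = 1, 2, 3`; `sosSums RF4 4` consists of the doubled long roots (`24` vectors
`(±4,±4,0,0)`); no strongly orthogonal sets with `5` elements. Two roots `a ≠ ±b` are strongly
orthogonal iff `dp a b = 0` and they are not both short. By `decide +kernel` over lists, or by hand: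
`k`-element sets of long roots of `D_4` (row `VD1`: even vertices) and one short root plus `k - 1` long
roots orthogonal to it. Also: `sosSums RF4 k` is symmetric without `0` for `k = 1, 2, 3, 4`. -/
def F4N_stmt : Prop :=
  (sosSums RF4 1).ncard = 48 ∧ (sosSums RF4 2).ncard = 120 ∧ (sosSums RF4 3).ncard = 240 ∧
  (∀ x : Vec 4, x ∈ sosSums RF4 4 ↔ ∃ y : Vec 4, dp y y = 8 ∧ (∀ i, y i % 2 = 0) ∧ x = y + y) ∧
  (∀ k : ℕ, 5 ≤ k → sosSums RF4 k = ∅) ∧ ∀ k : ℕ, 1 ≤ k → k ≤ 4 → Sy (sosSums RF4 k)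

/-- ROW `F4E` (medium, finite computation). Empty edges for `k = 1, 2, 3`. -/
def F4E_stmt : Prop :=
  EE (sosSums RF4 1) ![1, -1, -1, -1] ![0, -2, -2, 0] ∧
  EE (sosSums RF4 2) ![3, 1, -1, -1] ![2, 2, -2, 2] ∧
  EE (sosSums RF4 3) ![-3, 1, 1, 3] ![-4, 2, -2, 0]

/-- ROW `G2S` (short-medium). `sosSums rootsG2 k` is the image of `sosSums RG2 k` under `cv` (`rootsG2` is the
image of `RG2`: integer vectors of sum zero and norm `2` are `e_i - e_j`, norm `6`: `±(2,-1,-1)` up to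
permutations); `sosSums RG2 1 = RG2` has `12` elements, symmetric without `0`, with the empty edge
`(-1,0,1), (-2,1,1)`; `sosSums RG2 2` is the set of the `y + y`, `y` of norm `2` (a short root and the long
root orthogonal to it: `(1,-1,0) ± (1,1,-2)`; two different roots `a ≠ ±b` are strongly orthogonal iff
`dp a b = 0`); no strongly orthogonal sets with `3` elements. Finite computation. -/
def G2S_stmt : Prop :=
  (∀ k : ℕ, sosSums rootsG2 k = cv '' sosSums RG2 k) ∧ (sosSums RG2 1).ncard = 12 ∧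
  Sy (sosSums RG2 1) ∧ EE (sosSums RG2 1) ![-1, 0, 1] ![-2, 1, 1] ∧
  (∀ x : Vec 3, x ∈ sosSums RG2 2 ↔ ∃ y : Vec 3, ∑ i, y i = 0 ∧ dp y y = 2 ∧ x = y + y) ∧
  ∀ k : ℕ, 3 ≤ k → sosSums RG2 k = ∅

/-! ## Rows of helper1 (certificates) -/

/-- every non isolated odd vertex of a generic graph of type B has an empty edge -/
def PB_stmt : Prop :=
  ∀ (n k : ℕ) (x : Vec n), GenB n k → x ∈ NI (VB n k) → dp x x = 2 * k - 1 → ∃ y, EE (VB n k) x y

/-- every vertex with an entry `±1` of a generic graph of type C has an empty edge -/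
def PC_stmt : Prop :=
  ∀ (n k : ℕ) (x : Vec n), GenC n k → x ∈ VC n k → x ∉ TD n k 0 → ∃ y, EE (VC n k) x y

/-- good edges in the special graphs of type B -/
def GBS_stmt : Prop :=
  ∀ κ : ℕ, 2 ≤ κ → ∀ x ∈ TD (2 * κ + 1) κ 0, GPr (VB (2 * κ + 1) (2 * κ)) x

/-- good edges in type C -/
def GCC_stmt : Prop :=
  ∀ n k : ℕ, 2 ≤ k → 3 * k < 2 * n → ∀ x ∈ TD n k 0, GPr (VC n k) x

end Pool.Agent.SOL
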