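import Pool.Agent.helper1.SOL.Bridge3
import Pool.Agent.helper1.SOL.SpecN

/-! The certificates for types B and C in the language of project SOL (MP_cad530_co). -/

namespace Pool.Agent.SOL

open Finset Pool.Agent.helper1.CAD

theorem HN_zsum {n : ℕ} {x : Vec n} (h : ∀ i, |x i| ≤ 2) : l1 x + ∑ i, zt (x i) = n := by
  have h4 : ∑ i, (|x i| + zt (x i)) = n := by
    rw [sum_congr rfl fun i _ => GD_zt (x i) (h i)]
    simp
  rw [sum_add_distrib] at h4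
  exact h4

/-- membership in `mem .B` -/
theorem HB_mem' {n : ℕ} (κ : ℤ) (x : Vec n) :
    mem .B κ x ↔ (∀ i, |x i| ≤ 2) ∧ dp x x = κ ∧ l1 x ≤ n := by
  unfold mem dp
  have hb : (∀ i, bd .B (x i) = true) ↔ ∀ i, |x i| ≤ 2 := by
    simp only [GD_bd (K := .B) rfl]
  have hst : (∀ j < nst .B, ∑ i, stat .B j (x i) = κ) ↔ ∑ i, x i * x i = κ := by
    simp [nst, stat]
  rw [hb, hst]
  constructor
  · rintro ⟨h1, h2, h3⟩
    have := HN_zsum h1
    have h4 := h3 rfl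
    exact ⟨h1, h2, by linarith⟩
  · rintro ⟨h1, h2, h3⟩
    have := HN_zsum h1
    exact ⟨h1, h2, fun _ => by linarith⟩

theorem HB_mem {n k : ℕ} (x : Vec n) :
    x ∈ VB n k ↔ mem .B (2 * (k : ℤ)) x ∨ mem .B (2 * (k : ℤ) - 1) x := by
  rw [HB_mem', HB_mem']
  unfold VB
  simp only [Set.mem_setOf_eq]
  tauto

/-- membership in `mem .C` -/
theorem HC_mem {n k : ℕ} (x : Vec n) : x ∈ VC n k ↔ mem .C (2 * (k : ℤ)) x := by
  unfold VC mem l1
  simp only [Set.mem_setOf_eq]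
  have hb : (∀ i, bd .C (x i) = true) ↔ ∀ i, |x i| ≤ 2 := by
    simp only [GD_bd (K := .C) rfl]
  have hs : ∀ w : ℤ, stat .C 0 w = |w| := by
    intro w
    unfold stat
    show (if 0 ≤ w then w else -w) = |w|
    split_ifs with h
    · rw [abs_of_nonneg h]
    · rw [abs_of_neg (by omega)]
  have hst : (∀ j < nst .C, ∑ i, stat .C j (x i) = 2 * (k : ℤ)) ↔ ∑ i, |x i| = 2 * k := by
    simp only [nst, Nat.lt_one_iff, forall_eq, hs]
  rw [hb, hst]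
  constructor
  · rintro ⟨h1, h2⟩
    exact ⟨h1, h2, fun h => absurd h (by decide)⟩
  · rintro ⟨h1, h2, _⟩
    exact ⟨h1, h2⟩

theorem HN_s012 {n : ℕ} {x : Vec n} (h : ∀ i, |x i| ≤ 2) (i : Fin n) :
    GD_s x i * x i = 0 ∨ GD_s x i * x i = 1 ∨ GD_s x i * x i = 2 := by
  rw [GD_sx]
  have h1 := h i
  have h2 := abs_nonneg (x i)
  omega

/-- the numbers of twos, ones and zeros -/
theorem HN_cnt {n : ℕ} {x : Vec n} (h : ∀ i, |x i| ≤ 2) :
    #{i | GD_s x i * x i = 2} = cnt x 2 ∧ #{i | GD_s x i * x i = 1} = cnt x 1 ∧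
    #{i | GD_s x i * x i = 0} + cnt x 1 + cnt x 2 = n ∧
    dp x x = 4 * cnt x 2 + cnt x 1 ∧ l1 x = 2 * cnt x 2 + cnt x 1 := by
  simp only [GD_sx]
  have h1 : #{i | |x i| = 2} = cnt x 2 := rfl
  have h1' : #{i | |x i| = 1} = cnt x 1 := rfl
  have hd : ∀ i, |x i| = 0 ∨ |x i| = 1 ∨ |x i| = 2 := fun i => by
    have := HN_s012 h i
    rwa [GD_sx] at this
  have e1 : ∀ F : ℤ → ℤ, ∑ i, F |x i| = F 0 * #{i | |x i| = 0} + F 1 * #{i | |x i| = 1} +
      F 2 * #{i | |x i| = 2} := by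
    intro F
    have := dot_map_count'' (fun i => |x i|) F [0, 1, 2] (by decide) (by
      intro i
      simp only [List.mem_cons, List.not_mem_nil, or_false]
      exact hd i)
    simp only [List.map_cons, List.map_nil, dot] at this
    rw [← this]; ring
  have e2 := e1 (fun a => a * a)
  have e3 : ∑ i, |x i| * |x i| = dp x x := by
    unfold dp
    exact sum_congr rfl fun i _ => abs_mul_abs_self (x i)
  rw [e3] at e2
  have e4 := e1 (fun _ => 1)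
  simp only [sum_const, card_univ, Fintype.card_fin, nsmul_eq_mul, mul_one, one_mul] at e4
  have e5 := e1 (fun a => a)
  have e6 : ∑ i, |x i| = l1 x := rfl
  rw [e6] at e5
  rw [h1, h1'] at e2 e4 e5
  refine ⟨h1, h1', ?_, ?_, ?_⟩ <;> omega

/-- existence of a pattern, with three lists -/
theorem HN_pat {n : ℕ} {x : Vec n} (hx : ∀ i, |x i| ≤ 2) (S : Spec) (p : List ℤ)
    (L0 L1 L2 : List (ℤ × ℕ)) (d0 : (L0.map Prod.fst).Nodup) (d1 : (L1.map Prod.fst).Nodup)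
    (d2 : (L2.map Prod.fst).Nodup) (e0 : ∀ c ∈ L0, c.1 ≠ 0) (e1 : ∀ c ∈ L1, c.1 ≠ 0)
    (e2 : ∀ c ∈ L2, c.1 ≠ 0)
    (s0 : (L0.map Prod.snd).sum ≤ #{i | GD_s x i * x i = 0})
    (s1 : (L1.map Prod.snd).sum ≤ cnt x 1)
    (s2 : (L2.map Prod.snd).sum ≤ cnt x 2)
    (p0 : ∀ c ∈ L0, ((0 : ℤ), c.1) ∈ S.pairs) (p1 : ∀ c ∈ L1, ((1 : ℤ), c.1) ∈ S.pairs)
    (p2 : ∀ c ∈ L2, ((2 : ℤ), c.1) ∈ S.pairs)
    (z1 : (L1.map Prod.snd).sum < cnt x 1 → ((1 : ℤ), (0 : ℤ)) ∈ S.pairs)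
    (z2 : (L2.map Prod.snd).sum < cnt x 2 → ((2 : ℤ), (0 : ℤ)) ∈ S.pairs)
    (hc : ∀ t ∈ S.tys, (t.1 = 0 ∧ ∃ c ∈ L0, c.1 = t.2.1 ∧ (c.2 : ℤ) = num p t) ∨
      (t.1 = 1 ∧ ((∃ c ∈ L1, c.1 = t.2.1 ∧ (c.2 : ℤ) = num p t) ∨
        (t.2.1 = 0 ∧ ((cnt x 1 : ℕ) : ℤ) = ((L1.map Prod.snd).sum : ℕ) + num p t))) ∨
      (t.1 = 2 ∧ ((∃ c ∈ L2, c.1 = t.2.1 ∧ (c.2 : ℤ) = num p t) ∨
        (t.2.1 = 0 ∧ ((cnt x 2 : ℕ) : ℤ) = ((L2.map Prod.snd).sum : ℕ) + num p t)))) :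
    ∃ y : Vec n, S.Pat x y p (GD_s x) := by
  obtain ⟨q2, q1, _⟩ := HN_cnt hx
  rw [← q1] at s1 z1
  rw [← q2] at s2 z2
  have hL0 : GD_L L0 L1 L2 0 = L0 := rfl
  have hL1 : GD_L L0 L1 L2 1 = L1 := rfl
  have hL2 : GD_L L0 L1 L2 2 = L2 := rfl
  refine pat_exists (GD_sg x) (HN_s012 hx) (GD_L L0 L1 L2) ?_ ?_ ?_ ?_ ?_ ?_
  · intro a
    unfold GD_L
    split_ifs
    · exact d2
    · exact d1
    · exact d0
    · simp
  · intro a
    unfold GD_L
    split_ifs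
    · exact e2
    · exact e1
    · exact e0
    · simp
  · intro a ha
    rcases ha with rfl | rfl | rfl
    · rw [hL0]; exact s0
    · rw [hL1]; exact s1
    · rw [hL2]; exact s2
  · intro a u ha hu
    rcases ha with rfl | rfl | rfl
    · rw [hL0, List.mem_map] at hu; obtain ⟨c, hc, rfl⟩ := hu; exact p0 c hc
    · rw [hL1, List.mem_map] at hu; obtain ⟨c, hc, rfl⟩ := hu; exact p1 c hc
    · rw [hL2, List.mem_map] at hu; obtain ⟨c, hc, rfl⟩ := hu; exact p2 c hc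
  · intro a ha hu
    rcases ha with rfl | rfl | rfl
    · unfold Spec.pairs; simp
    · rw [hL1] at hu; exact z1 hu
    · rw [hL2] at hu; exact z2 hu
  · intro t ht
    rcases hc t ht with ⟨h1, h2⟩ | ⟨h1, h2⟩ | ⟨h1, h2⟩
    · refine ⟨Or.inl h1, Or.inl ?_⟩
      rw [h1, hL0]; exact h2
    · refine ⟨Or.inr (Or.inl h1), ?_⟩
      rw [h1, hL1, q1]; exact h2
    · refine ⟨Or.inr (Or.inr h1), ?_⟩
      rw [h1, hL2, q2]; exact h2

/-- the interface of a vertex set of kind `K` -/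
structure HN_V {n : ℕ} (K : Kind) (k : ℕ) (V : Set (Vec n)) : Prop where
  hK : K ≠ .A
  bdd : ∀ x ∈ V, ∀ i, bd K (x i) = true
  of : ∀ x : Vec n, ∀ p : ℤ, (p = 0 ∨ (K = .B ∧ p = 1)) → mem K (mul K * k - p) x → x ∈ V
  ex : ∀ x ∈ V, ∃ p : ℤ, (p = 0 ∨ (K = .B ∧ p = 1)) ∧ mem K (mul K * k - p) x
  par : ∀ x z : Vec n, ∀ a b : ℤ, mem K (mul K * k - a) x → mem K (mul K * k - b) z → x - z ∈ V →
    mem K (mul K * k - par a b) (fun i => x i - z i)
  neg : ∀ x ∈ V, -x ∈ V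

theorem HN_mem_neg {n : ℕ} {K : Kind} (hK : K ≠ .A) (κ : ℤ) (x : Vec n) :
    mem K κ (-x) ↔ mem K κ x := by
  have := mem_sgn hK κ (fun _ => -1) x (fun _ => Or.inr rfl)
  have e : (fun i => (-1 : ℤ) * x i) = -x := by
    funext i
    simp
  rwa [e] at this

theorem HN_VB {n k : ℕ} : HN_V (n := n) .B k (VB n k) where
  hK := by decide
  bdd := fun x hx i => (GD_bd (K := .B) rfl _).mpr (hx.1 i)
  of := by
    rintro x p (rfl | ⟨_, rfl⟩) h
    · exact (HB_mem x).mpr (Or.inl (by rwa [sub_zero] at h))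
    · exact (HB_mem x).mpr (Or.inr h)
  ex := by
    intro x hx
    rcases (HB_mem x).mp hx with h | h
    · exact ⟨0, Or.inl rfl, by rwa [sub_zero]⟩
    · exact ⟨1, Or.inr ⟨rfl, rfl⟩, h⟩
  par := by
    intro x z a b hx hz hxz
    have hmul : mul Kind.B = 2 := rfl
    rw [hmul] at hx hz ⊢
    obtain ⟨_, hx2, _⟩ := (HB_mem' _ x).mp hx
    obtain ⟨_, hz2, _⟩ := (HB_mem' _ z).mp hz
    have e : (fun i => x i - z i) = x - z := rfl
    rw [e, HB_mem']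
    obtain ⟨h1, h2, h3⟩ := hxz
    refine ⟨h1, ?_, h3⟩
    rw [dp_sub_sub, hx2, hz2] at h2 ⊢
    unfold Pool.Agent.helper1.CAD.par
    omega
  neg := by
    intro x hx
    rcases (HB_mem x).mp hx with h | h
    · exact (HB_mem _).mpr (Or.inl ((HN_mem_neg (by decide) _ _).mpr h))
    · exact (HB_mem _).mpr (Or.inr ((HN_mem_neg (by decide) _ _).mpr h))

theorem HN_VC {n k : ℕ} : HN_V (n := n) .C k (VC n k) where
  hK := by decide
  bdd := fun x hx i => (GD_bd (K := .C) rfl _).mpr (hx.1 i)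
  of := by
    rintro x p (rfl | ⟨h, _⟩) h1
    · exact (HC_mem x).mpr (by rwa [sub_zero] at h1)
    · exact absurd h (by decide)
  ex := by
    intro x hx
    exact ⟨0, Or.inl rfl, by rw [sub_zero]; exact (HC_mem x).mp hx⟩
  par := by
    intro x z a b hx hz hxz
    have hmul : mul Kind.C = 2 := rfl
    rw [hmul] at hx hz ⊢
    have h1 := hx.2.1 0 (by decide)
    have h2 := hz.2.1 0 (by decide)
    have e : (fun i => x i - z i) = x - z := rfl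
    have h3 := (HC_mem _).mp hxz
    have h4 := h3.2.1 0 (by decide)
    have h5 : Pool.Agent.helper1.CAD.par a b = 0 := by
      have hs : ∀ w : ℤ, ∃ c, stat .C 0 w = w + 2 * c := by
        intro w
        unfold stat
        show ∃ c, (if 0 ≤ w then w else -w) = w + 2 * c
        split_ifs with h
        · exact ⟨0, by ring⟩
        · exact ⟨-w, by ring⟩
      choose f hf using hs
      simp only [hf, sum_add_distrib, ← mul_sum] at h1 h2 h4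
      have h6 : ∑ i, (x - z) i = ∑ i, x i - ∑ i, z i := by
        rw [← sum_sub_distrib]
        rfl
      rw [h6] at h4
      unfold Pool.Agent.helper1.CAD.par
      omega
    rw [h5, e, sub_zero]
    exact h3
  neg := by
    intro x hx
    exact (HC_mem _).mpr ((HN_mem_neg (by decide) _ _).mpr ((HC_mem x).mp hx))

/-- a pattern with certificates: the edge `v, x`, and a second common neighbour for every `z` -/
theorem HN_gen {n k : ℕ} {K : Kind} {V : Set (Vec n)} (HV : HN_V K k V) (S : Spec) (hK : S.K = K)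
    (hpv : S.pv = 0 ∨ (K = .B ∧ S.pv = 1))
    (hpx : S.px = 0 ∨ (K = .B ∧ S.px = 1)) (hpvx : S.pvx = 0 ∨ (K = .B ∧ S.pvx = 1))
    (nd : S.T.Nodup) (ndp : S.pairs.Nodup)
    (h0 : ∀ t ∈ S.tys, (t.1, t.2.1) ≠ (0, 0))
    (ok : ∀ pz : ℤ, (pz = 0 ∨ (K = .B ∧ pz = 1)) →
      ∀ b ∈ S.branches, ∃ I : Inst, S.instOK pz b.1 b.2 I = true)
    {v x : Vec n} {p : List ℤ} {s : Vec n} (hP : S.Par p k) (hpat : S.Pat v x p s)
    (hvV : mem K (mul K * k - S.pv) v)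
    (sl1 : hasZ S.K = true → S.sl.1 ≤ ∑ i, zt (v i))
    (sl2 : hasZ S.K = true → 0 ≤ S.sl.2 → ∑ i, zt (v i) ≤ S.sl.2)
    (fr1 : hasZ S.K = false → S.sl.1 ≤ #{i | v i = 0 ∧ x i = 0})
    (fr2 : hasZ S.K = false → 0 ≤ S.sl.2 → (#{i | v i = 0 ∧ x i = 0} : ℤ) ≤ S.sl.2)
    (bx : ∀ t ∈ S.tys, bd S.K t.2.1 = true)
    (bxv : ∀ t ∈ S.tys, bd S.K (t.2.1 - t.1) = true)
    (sx : ∀ j < nst S.K, (S.tys.map fun t => stat S.K j t.2.1 * num p t).sum = mul S.K * k - S.px)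
    (sxv : ∀ j < nst S.K, (S.tys.map fun t => stat S.K j (t.2.1 - t.1) * num p t).sum =
      mul S.K * k - S.pvx)
    (zx : hasZ S.K = true → (S.tys.map fun t => (1 - zt t.2.1) * num p t).sum ≤ n)
    (zxv : hasZ S.K = true → (S.tys.map fun t => (1 - zt (t.2.1 - t.1)) * num p t).sum ≤ n) :
    x ∈ V ∧ v - x ∈ V ∧ ∀ z ∈ V, x - z ∈ V → z ≠ v → v - z ∉ V →
      (S.good = true → z ≠ x - v) → ∃ u ∈ V, u ≠ x ∧ v - u ∈ V ∧ z - u ∈ V := by
  subst hK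
  have hKA : S.K ≠ .A := HV.hK
  have hcard : (Fintype.card (Fin n) : ℤ) = n := by simp
  have m1 : mem S.K (mul S.K * k - S.px) x :=
    hpat.mem_x ndp hKA _ bx sx (by intro h; rw [hcard]; exact zx h)
  have m2 : mem S.K (mul S.K * k - S.pvx) (fun i => x i - v i) :=
    hpat.mem_xv ndp hKA _ bxv sxv (by intro h; rw [hcard]; exact zxv h)
  have hx' : x ∈ V := HV.of x _ hpx m1
  have hxv : x - v ∈ V := HV.of _ _ hpvx m2
  have hneg : ∀ a b : Vec n, a - b ∈ V → b - a ∈ V := fun a b h => by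
    have := HV.neg _ h
    rwa [neg_sub] at this
  refine ⟨hx', hneg _ _ hxv, ?_⟩
  intro z hz hxz hzv hvz hne
  obtain ⟨pz, hpz, mz⟩ := HV.ex z hz
  have hpar : ∀ a b : ℤ, (a = 0 ∨ (S.K = .B ∧ a = 1)) → (b = 0 ∨ (S.K = .B ∧ b = 1)) →
      (par a b = 0 ∨ (S.K = .B ∧ par a b = 1)) := by
    intro a b ha hb
    unfold par
    rcases ha with rfl | ⟨h, rfl⟩ <;> rcases hb with rfl | ⟨h', rfl⟩
    · left; rfl
    · right; exact ⟨h', rfl⟩
    · right; exact ⟨h, rfl⟩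
    · left; rfl
  obtain ⟨u, pu, h1, h2, h3, h4, h5⟩ := Spec.use (S := S) hKA nd h0 hP hpat (z := z) pz mz
    (HV.par x z _ _ m1 mz hxz) m1 m2 (fun i => by
      have := hvV.1 i
      exact this) sl1 sl2 fr1 fr2 (fun h h' => hne h h') hzv
    (by
      intro h
      apply hvz
      exact hneg _ _ (HV.of (z - v) _ (hpar _ _ hpz hpv) h))
    (ok pz hpz)
  refine ⟨u, HV.of u _ h1 h3, h2, hneg _ _ (HV.of (u - v) _ (hpar _ _ h1 hpv) h4),
    hneg _ _ (HV.of (u - z) _ (hpar _ _ h1 hpz) h5)⟩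

/-- the conditions on a pattern, collected -/
structure HN_D {n : ℕ} (k : ℕ) (S : Spec) (v x : Vec n) (p : List ℤ) (s : Vec n) : Prop where
  hP : S.Par p k
  pat : S.Pat v x p s
  sl1 : hasZ S.K = true → S.sl.1 ≤ ∑ i, zt (v i)
  sl2 : hasZ S.K = true → 0 ≤ S.sl.2 → ∑ i, zt (v i) ≤ S.sl.2
  fr1 : hasZ S.K = false → S.sl.1 ≤ #{i | v i = 0 ∧ x i = 0}
  fr2 : hasZ S.K = false → 0 ≤ S.sl.2 → (#{i | v i = 0 ∧ x i = 0} : ℤ) ≤ S.sl.2
  sx : ∀ j < nst S.K, (S.tys.map fun t => stat S.K j t.2.1 * num p t).sum = mul S.K * k - S.px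
  sxv : ∀ j < nst S.K, (S.tys.map fun t => stat S.K j (t.2.1 - t.1) * num p t).sum =
      mul S.K * k - S.pvx
  zx : hasZ S.K = true → (S.tys.map fun t => (1 - zt t.2.1) * num p t).sum ≤ n
  zxv : hasZ S.K = true → (S.tys.map fun t => (1 - zt (t.2.1 - t.1)) * num p t).sum ≤ n

/-- the conditions on a specification with certificates -/
structure HN_S (K : Kind) (S : Spec) : Prop where
  hK : S.K = K
  hpv : S.pv = 0 ∨ (K = .B ∧ S.pv = 1)
  hpx : S.px = 0 ∨ (K = .B ∧ S.px = 1)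
  hpvx : S.pvx = 0 ∨ (K = .B ∧ S.pvx = 1)
  nd : S.T.Nodup
  ndp : S.pairs.Nodup
  h0 : ∀ t ∈ S.tys, (t.1, t.2.1) ≠ (0, 0)
  ok : ∀ pz : ℤ, (pz = 0 ∨ (K = .B ∧ pz = 1)) →
      ∀ b ∈ S.branches, ∃ I : Inst, S.instOK pz b.1 b.2 I = true
  bx : ∀ t ∈ S.tys, bd S.K t.2.1 = true
  bxv : ∀ t ∈ S.tys, bd S.K (t.2.1 - t.1) = true

/-- the number of the free coordinates -/
theorem HN_free {n : ℕ} {S : Spec} {v x : Vec n} {p : List ℤ} {s : Vec n} (h : S.Pat v x p s)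
    (nd : S.pairs.Nodup) :
    ((#{i | v i = 0 ∧ x i = 0} : ℕ) : ℤ) = n - (S.tys.map (num p)).sum := by
  have h1 := h.free nd
  have h2 : (univ.filter fun i => (s i * v i, s i * x i) = ((0 : ℤ), (0 : ℤ))) =
      univ.filter fun i => v i = 0 ∧ x i = 0 := by
    ext i
    simp only [mem_filter, mem_univ, true_and, Prod.mk.injEq]
    rcases h.sg i with h3 | h3 <;> rw [h3] <;> constructor <;> rintro ⟨h4, h5⟩ <;> constructor <;> omega
  rw [h2, Fintype.card_fin] at h1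
  exact h1

/-- an empty edge -/
theorem HN_EE {n k : ℕ} {K : Kind} {V : Set (Vec n)} (HV : HN_V K k V) {S : Spec} (HS : HN_S K S)
    (hg : S.good = false) {v x : Vec n} {p : List ℤ} {s : Vec n} (HD : HN_D k S v x p s)
    (hvV : mem K (mul K * k - S.pv) v) : EE V v x := by
  obtain ⟨h1, h2, h3⟩ := HN_gen HV S HS.hK HS.hpv HS.hpx HS.hpvx HS.nd HS.ndp HS.h0 HS.ok HD.hP HD.pat hvV
    HD.sl1 HD.sl2 HD.fr1 HD.fr2 HS.bx HS.bxv HD.sx HD.sxv HD.zx HD.zxv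
  refine ⟨HV.of v _ HS.hpv hvV, h1, h2, ?_⟩
  rw [Set.eq_empty_iff_forall_notMem]
  rintro z ⟨hz, hxz, hzv, hvz, hu⟩
  obtain ⟨u, hu1, hu2, hu3, hu4⟩ := h3 z hz hxz hzv hvz (by
    intro h
    rw [hg] at h
    exact absurd h (by decide))
  exact hu2 (hu u hu1 hu3 hu4)

/-- a self complementary pattern gives two good edges -/
theorem HN_GPr {n k : ℕ} {K : Kind} {V : Set (Vec n)} (HV : HN_V K k V) {S : Spec} (HS : HN_S K S)
    (hcp : ∀ t ∈ S.tys, (t.1, cpl t.1 t.2.1, t.2.2) ∈ S.tys)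
    {v x : Vec n} {p : List ℤ} {s : Vec n} (HD : HN_D k S v x p s)
    (hvV : mem K (mul K * k - S.pv) v) : GPr V v := by
  have hfree : (univ.filter fun i => v i = 0 ∧ (v - x) i = 0) = univ.filter fun i => v i = 0 ∧ x i = 0 := by
    ext i
    simp only [mem_filter, mem_univ, true_and, Pi.sub_apply]
    constructor
    · rintro ⟨h1, h2⟩
      exact ⟨h1, by omega⟩
    · rintro ⟨h1, h2⟩
      exact ⟨h1, by omega⟩
  obtain ⟨h1, h2, h3⟩ := HN_gen HV S HS.hK HS.hpv HS.hpx HS.hpvx HS.nd HS.ndp HS.h0 HS.ok HD.hP HD.pat hvV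
    HD.sl1 HD.sl2 HD.fr1 HD.fr2 HS.bx HS.bxv HD.sx HD.sxv HD.zx HD.zxv
  obtain ⟨_, _, h6⟩ := HN_gen HV S HS.hK HS.hpv HS.hpx HS.hpvx HS.nd HS.ndp HS.h0 HS.ok HD.hP
    (HD.pat.compl hcp) hvV HD.sl1 HD.sl2
    (by
      intro h
      have h7 : (univ.filter fun i => v i = 0 ∧ (fun i => v i - x i) i = 0) =
        univ.filter fun i => v i = 0 ∧ x i = 0 := hfree
      rw [h7]
      exact HD.fr1 h)
    (by
      intro h h'
      have h7 : (univ.filter fun i => v i = 0 ∧ (fun i => v i - x i) i = 0) =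
        univ.filter fun i => v i = 0 ∧ x i = 0 := hfree
      rw [h7]
      exact HD.fr2 h h') HS.bx HS.bxv HD.sx HD.sxv HD.zx HD.zxv
  refine ⟨x, h1, h2, ?_, ?_⟩
  · intro z hz hxz hzv hvz hne
    exact h3 z hz hxz hzv hvz (fun _ => hne)
  · intro z hz hxz hzv hvz hne
    exact h6 z hz hxz hzv hvz (fun _ => hne)

end Pool.Agent.SOL
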