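import Pool.Agent.helper1.SOL.Bridge3
import Pool.Agent.helper1.CAD.D1

/-! Good edges (MP_cad530_co). -/

namespace Pool.Agent.SOL

open Finset Pool.Agent.helper1.CAD

/-- `k = 4 r + 1`: good edges at the vertices with `2 r` entries `±2` -/
theorem DG1 {n r : ℕ} (hn : 4 * r + 2 ≤ n) (hn3 : 3 ≤ n) {x : Vec n} (hx : x ∈ VD n (4 * r + 1))
    (ht : tw x = 2 * r) : ∃ y ∈ VD n (4 * r + 1), x - y ∈ VD n (4 * r + 1) ∧ Good (VD n (4 * r + 1)) x y ∧
      Good (VD n (4 * r + 1)) x (x - y) := by
  obtain ⟨c2, c1, c0, c3⟩ := GD_cnt hx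
  obtain ⟨y, hy⟩ := GD_pat hx D1 [(r : ℤ)] [(2, r), (1, 1)] [(1, 1)] [(2, r)] (by simp) (by simp) (by simp) (by simp)
    (by simp) (by simp)
    (by simp only [List.map_cons, List.map_nil, List.sum_cons, List.sum_nil]; omega)
    (by simp only [List.map_cons, List.map_nil, List.sum_cons, List.sum_nil]; omega)
    (by simp only [List.map_cons, List.map_nil, List.sum_cons, List.sum_nil]; omega)
    (by simp only [List.mem_cons, List.not_mem_nil, or_false, forall_eq_or_imp, forall_eq]; decide)
    (by simp only [List.mem_cons, List.not_mem_nil, or_false, forall_eq_or_imp, forall_eq]; decide)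
    (by simp only [List.mem_cons, List.not_mem_nil, or_false, forall_eq_or_imp, forall_eq]; decide)
    (by intro _; decide)
    (by intro _; decide)
    (by
      intro t ht2
      simp only [D1, List.mem_cons, List.not_mem_nil, or_false] at ht2
      rcases ht2 with rfl | rfl | rfl | rfl | rfl | rfl
      · exact Or.inr (Or.inr ⟨rfl, Or.inl ⟨(2, r), by simp, rfl, by simp [num, dot]⟩⟩)
      · refine Or.inr (Or.inr ⟨rfl, Or.inr ⟨rfl, ?_⟩⟩)
        simp only [num, dot, List.map_cons, List.map_nil, List.sum_cons, List.sum_nil]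
        omega
      · exact Or.inl ⟨rfl, (2, r), by simp, rfl, by simp [num, dot]⟩
      · exact Or.inr (Or.inl ⟨rfl, Or.inl ⟨(1, 1), by simp, rfl, by simp [num, dot]⟩⟩)
      · refine Or.inr (Or.inl ⟨rfl, Or.inr ⟨rfl, ?_⟩⟩)
        simp only [num, dot, List.map_cons, List.map_nil, List.sum_cons, List.sum_nil]
        omega
      · exact Or.inl ⟨rfl, (1, 1), by simp, rfl, by simp [num, dot]⟩)
  have hz := hy.zt_v (by decide)
  obtain ⟨h1, h2, h3, h4⟩ := GD_gen2 (k := 4 * r + 1) D1 rfl rfl rfl rfl rfl (by decide) (by decide) (by decide)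
    (by decide) D1_ok0 (p := [(r : ℤ)]) ⟨rfl, rfl, by simp [D1], by simp, by simp [D1, lePw], by
      simp [D1, dot]⟩ hy hx
    (by
      rw [hz]
      simp [D1, dot, num, zt]
      omega) rfl (by decide) (by decide)
    (by simp [D1, dot, num]; ring)
    (by simp [D1, dot, num]; ring)
    (by simp [D1, dot, num, zt]; omega)
    (by simp [D1, dot, num, zt]; omega)
  exact ⟨y, h1, h2, h3, h4⟩

end Pool.Agent.SOL
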