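import Pool.Agent.helper1.SOL.Bridge3
import Pool.Agent.helper1.CAD.D86

/-! Good edges (MP_cad530_co). -/

namespace Pool.Agent.SOL

open Finset Pool.Agent.helper1.CAD

/-- `k = 6`: good edges at the vertices with `2` entries `±2` -/
theorem DG86 {n : ℕ} (hn : 8 ≤ n) {x : Vec n} (hx : x ∈ VD n 6)
    (ht : tw x = 2) : ∃ y ∈ VD n 6, x - y ∈ VD n 6 ∧ Good (VD n 6) x y ∧
      Good (VD n 6) x (x - y) := by
  obtain ⟨c2, c1, c0, c3⟩ := GD_cnt hx
  obtain ⟨y, hy⟩ := GD_pat hx D86 [] [(2, 2)] [(1, 2)] [(1, 2)] (by simp) (by simp) (by simp) (by simp)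
    (by simp) (by simp)
    (by simp only [List.map_cons, List.map_nil, List.sum_cons, List.sum_nil]; omega)
    (by simp only [List.map_cons, List.map_nil, List.sum_cons, List.sum_nil]; omega)
    (by simp only [List.map_cons, List.map_nil, List.sum_cons, List.sum_nil]; omega)
    (by simp only [List.mem_cons, List.not_mem_nil, or_false, forall_eq_or_imp, forall_eq]; decide)
    (by simp only [List.mem_cons, List.not_mem_nil, or_false, forall_eq_or_imp, forall_eq]; decide)
    (by simp only [List.mem_cons, List.not_mem_nil, or_false, forall_eq_or_imp, forall_eq]; decide)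
    (by intro _; decide)
    (by simp only [List.map_cons, List.map_nil, List.sum_cons, List.sum_nil]; intro h; omega)
    (by
      intro t ht2
      simp only [D86, List.mem_cons, List.not_mem_nil, or_false] at ht2
      rcases ht2 with rfl | rfl | rfl | rfl
      · exact Or.inr (Or.inr ⟨rfl, Or.inl ⟨(1, 2), by simp, rfl, by simp [num, dot]⟩⟩)
      · exact Or.inr (Or.inl ⟨rfl, Or.inl ⟨(1, 2), by simp, rfl, by simp [num, dot]⟩⟩)
      · refine Or.inr (Or.inl ⟨rfl, Or.inr ⟨rfl, ?_⟩⟩)
        simp only [num, dot, List.map_cons, List.map_nil, List.sum_cons, List.sum_nil]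
        omega
      · exact Or.inl ⟨rfl, (2, 2), by simp, rfl, by simp [num, dot]⟩)
  have hz := hy.zt_v (by decide)
  obtain ⟨h1, h2, h3, h4⟩ := GD_gen2 (k := 6) D86 rfl rfl rfl rfl rfl (by decide) (by decide) (by decide)
    (by decide) D86_ok0 (p := []) ⟨rfl, rfl, by simp [D86], by simp, by simp [D86, lePw], by
      simp [D86, dot]⟩ hy hx
    (by
      rw [hz]
      simp [D86, dot, num, zt]
      omega) rfl (by decide) (by decide)
    (by simp [D86, dot, num])
    (by simp [D86, dot, num])
    (by simp [D86, dot, num, zt]; omega)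
    (by simp [D86, dot, num, zt]; omega)
  exact ⟨y, h1, h2, h3, h4⟩

end Pool.Agent.SOL
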