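import Pool.Agent.helper1.SOL.BridgeN
import Pool.Agent.helper1.CAD.EB10

/-! Certificate EB10 (MP_cad530_co). -/

set_option maxRecDepth 10000

namespace Pool.Agent.SOL

open Finset Pool.Agent.helper1.CAD

theorem EB10_S : HN_S .B EB10 where
  hK := rfl
  hpv := Or.inr ⟨rfl, rfl⟩
  hpx := Or.inl rfl
  hpvx := Or.inr ⟨rfl, rfl⟩
  nd := by decide
  ndp := by decide
  h0 := by decide
  ok := by
    rintro pz (rfl | ⟨h, rfl⟩)
    · exact EB10_ok0
    · exact EB10_ok1
  bx := by decide
  bxv := by decide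

/-- odd vertices, `s ≡ 1`, `t` even -/
theorem EB10_row {n a b : ℕ} (h0 : 4 * a + 4 * b + 1 ≤ n) (h1 : 4 * a + 2 * b + 2 ≤ n) (h2 : 3 * a + 4 * b + 2 ≤ n) {x : Vec n} (hb : ∀ i, |x i| ≤ 2)
    (t2 : cnt x 2 = 2 * a) (t1 : cnt x 1 = 4 * b + 1) : ∃ y, EE (VB n (4 * a + 2 * b + 1)) x y := by
  obtain ⟨q2, q1, q0, qd, ql⟩ := HN_cnt hb
  obtain ⟨y, hy⟩ := HN_pat hb EB10 [(a : ℤ), (b : ℤ)] [(2, a), (1, 1)] [(2, b), (1, 1)] [(2, a)]
    (by simp) (by simp) (by simp) (by simp) (by simp) (by simp)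
    (by simp only [List.map_cons, List.map_nil, List.sum_cons, List.sum_nil]; omega)
    (by simp only [List.map_cons, List.map_nil, List.sum_cons, List.sum_nil]; omega)
    (by simp only [List.map_cons, List.map_nil, List.sum_cons, List.sum_nil]; omega)
    (by simp only [List.mem_cons, List.not_mem_nil, or_false, forall_eq_or_imp, forall_eq]; decide)
    (by simp only [List.mem_cons, List.not_mem_nil, or_false, forall_eq_or_imp, forall_eq]; decide)
    (by simp only [List.mem_cons, List.not_mem_nil, or_false, forall_eq_or_imp, forall_eq]; decide)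
    (by intro _; decide)
    (by intro _; decide)
    (by
      intro t ht2
      simp only [EB10, List.mem_cons, List.not_mem_nil, or_false] at ht2
      rcases ht2 with rfl | rfl | rfl | rfl | rfl | rfl | rfl
      · exact Or.inr (Or.inr ⟨rfl, Or.inl ⟨(2, a), by simp, rfl, by (simp [num, dot]; try omega)⟩⟩)
      · refine Or.inr (Or.inr ⟨rfl, Or.inr ⟨rfl, ?_⟩⟩)
        simp only [num, dot, List.map_cons, List.map_nil, List.sum_cons, List.sum_nil]
        omega
      · exact Or.inl ⟨rfl, (2, a), by simp, rfl, by (simp [num, dot]; try omega)⟩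
      · exact Or.inr (Or.inl ⟨rfl, Or.inl ⟨(2, b), by simp, rfl, by (simp [num, dot]; try omega)⟩⟩)
      · refine Or.inr (Or.inl ⟨rfl, Or.inr ⟨rfl, ?_⟩⟩)
        simp only [num, dot, List.map_cons, List.map_nil, List.sum_cons, List.sum_nil]
        omega
      · exact Or.inr (Or.inl ⟨rfl, Or.inl ⟨(1, 1), by simp, rfl, by (simp [num, dot]; try omega)⟩⟩)
      · exact Or.inl ⟨rfl, (1, 1), by simp, rfl, by (simp [num, dot]; try omega)⟩)
  have hz := hy.zt_v (by decide)
  have HD : HN_D (4 * a + 2 * b + 1) EB10 x y [(a : ℤ), (b : ℤ)] (GD_s x) := {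
    hP := ⟨rfl, rfl, by simp [EB10], by simp, by simp [EB10, lePw] <;> omega, by simp [EB10, dot] <;> omega⟩
    pat := hy
    sl1 := fun _ => by rw [hz]; simp [EB10, dot, num, zt]; omega
    sl2 := fun _ h => absurd h (by decide)
    fr1 := fun h => absurd h (by decide)
    fr2 := fun h => absurd h (by decide)
    sx := fun j _ => by simp [EB10, stat, mul, dot, num]; omega
    sxv := fun j _ => by simp [EB10, stat, mul, dot, num]; omega
    zx := fun _ => by simp [EB10, dot, num, zt]; omega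
    zxv := fun _ => by simp [EB10, dot, num, zt]; omega }
  have hv : mem .B (mul .B * ((4 * a + 2 * b + 1 : ℕ) : ℤ) - EB10.pv) x := by
    rw [HB_mem']
    refine ⟨hb, ?_, ?_⟩
    · rw [qd]; simp [EB10, mul]; omega
    · rw [ql]; omega
  exact ⟨y, HN_EE HN_VB EB10_S rfl HD hv⟩

end Pool.Agent.SOL
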