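import Pool.Agent.helper1.SOL.BridgeN
import Pool.Agent.helper1.CAD.EBi

/-! Certificate EBi (MP_cad530_co). -/

set_option maxRecDepth 10000

namespace Pool.Agent.SOL

open Finset Pool.Agent.helper1.CAD

theorem EBi_S : HN_S .B EBi where
  hK := rfl
  hpv := Or.inr ⟨rfl, rfl⟩
  hpx := Or.inl rfl
  hpvx := Or.inr ⟨rfl, rfl⟩
  nd := by decide
  ndp := by decide
  h0 := by decide
  ok := by
    rintro pz (rfl | ⟨h, rfl⟩)
    · exact EBi_ok0
    · exact EBi_ok1
  bx := by decide
  bxv := by decide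

/-- odd vertices, special 1 -/
theorem EBi_row {n b : ℕ} (h0 : n = 4 * b + 3) (hb1 : 1 ≤ b) {x : Vec n} (hb : ∀ i, |x i| ≤ 2)
    (t2 : cnt x 2 = 0) (t1 : cnt x 1 = 4 * b + 3) : ∃ y, EE (VB n (2 * b + 2)) x y := by
  obtain ⟨q2, q1, q0, qd, ql⟩ := HN_cnt hb
  obtain ⟨y, hy⟩ := HN_pat hb EBi [(b : ℤ)] [] [(2, b + 1)] []
    (by simp) (by simp) (by simp) (by simp) (by simp) (by simp)
    (by simp only [List.map_nil, List.sum_nil]; omega)
    (by simp only [List.map_cons, List.map_nil, List.sum_cons, List.sum_nil]; omega)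
    (by simp only [List.map_nil, List.sum_nil]; omega)
    (by simp)
    (by simp only [List.mem_cons, List.not_mem_nil, or_false, forall_eq_or_imp, forall_eq]; decide)
    (by simp)
    (by intro _; decide)
    (by simp only [List.map_nil, List.sum_nil]; intro h; omega)
    (by
      intro t ht2
      simp only [EBi, List.mem_cons, List.not_mem_nil, or_false] at ht2
      rcases ht2 with rfl | rfl
      · exact Or.inr (Or.inl ⟨rfl, Or.inl ⟨(2, b + 1), by simp, rfl, by (simp [num, dot]; try omega)⟩⟩)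
      · refine Or.inr (Or.inl ⟨rfl, Or.inr ⟨rfl, ?_⟩⟩)
        simp only [num, dot, List.map_cons, List.map_nil, List.sum_cons, List.sum_nil]
        omega)
  have hz := hy.zt_v (by decide)
  have HD : HN_D (2 * b + 2) EBi x y [(b : ℤ)] (GD_s x) := {
    hP := ⟨rfl, rfl, by simp [EBi], by simp, by simp [EBi, lePw] <;> omega, by simp [EBi, dot] <;> omega⟩
    pat := hy
    sl1 := fun _ => by rw [hz]; simp [EBi, dot, num, zt]; omega
    sl2 := fun _ h => by rw [hz]; simp [EBi, dot, num, zt]; omega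
    fr1 := fun h => absurd h (by decide)
    fr2 := fun h => absurd h (by decide)
    sx := fun j _ => by simp [EBi, stat, mul, dot, num]; omega
    sxv := fun j _ => by simp [EBi, stat, mul, dot, num]; omega
    zx := fun _ => by simp [EBi, dot, num, zt]; omega
    zxv := fun _ => by simp [EBi, dot, num, zt]; omega }
  have hv : mem .B (mul .B * ((2 * b + 2 : ℕ) : ℤ) - EBi.pv) x := by
    rw [HB_mem']
    refine ⟨hb, ?_, ?_⟩
    · rw [qd]; simp [EBi, mul]; omega
    · rw [ql]; omega
  exact ⟨y, HN_EE HN_VB EBi_S rfl HD hv⟩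

end Pool.Agent.SOL
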