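import Pool.Agent.helper1.SOL.BridgeN
import Pool.Agent.helper1.CAD.EC3

/-! Certificate EC3 (MP_cad530_co). -/

set_option maxRecDepth 10000

namespace Pool.Agent.SOL

open Finset Pool.Agent.helper1.CAD

theorem EC3_S : HN_S .C EC3 where
  hK := rfl
  hpv := Or.inl rfl
  hpx := Or.inl rfl
  hpvx := Or.inl rfl
  nd := by decide
  ndp := by decide
  h0 := by decide
  ok := by
    rintro pz (rfl | ⟨h, rfl⟩)
    · exact EC3_ok0
    · exact absurd h (by decide)
  bx := by decide
  bxv := by decide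

/-- type C, 3 -/
theorem EC3_row {n q t : ℕ} (h1 : 2 ≤ t) (h0 : 3 * q + 2 * t = n) {x : Vec n} (hb : ∀ i, |x i| ≤ 2)
    (t2 : cnt x 2 = q) (t1 : cnt x 1 = 2 * q + 2 * t) : ∃ y, EE (VC n (2 * q + t)) x y := by
  obtain ⟨q2, q1, q0, qd, ql⟩ := HN_cnt hb
  obtain ⟨y, hy⟩ := HN_pat hb EC3 [(q : ℤ), (t : ℤ)] [] [(2, 2 * q + t)] []
    (by simp) (by simp) (by simp) (by simp) (by simp) (by simp)
    (by simp only [List.map_nil, List.sum_nil]; omega)
    (by simp only [List.map_cons, List.map_nil, List.sum_cons, List.sum_nil]; omega)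
    (by simp only [List.map_nil, List.sum_nil]; omega)
    (by simp)
    (by simp only [List.mem_cons, List.not_mem_nil, or_false, forall_eq_or_imp, forall_eq]; decide)
    (by simp)
    (by intro _; decide)
    (by intro _; decide)
    (by
      intro t ht2
      simp only [EC3, List.mem_cons, List.not_mem_nil, or_false] at ht2
      rcases ht2 with rfl | rfl | rfl
      · exact Or.inr (Or.inl ⟨rfl, Or.inl ⟨(2, 2 * q + t), by simp, rfl, by (simp [num, dot]; try omega)⟩⟩)
      · refine Or.inr (Or.inr ⟨rfl, Or.inr ⟨rfl, ?_⟩⟩)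
        simp only [num, dot, List.map_nil, List.sum_nil]
        omega
      · refine Or.inr (Or.inl ⟨rfl, Or.inr ⟨rfl, ?_⟩⟩)
        simp only [num, dot, List.map_cons, List.map_nil, List.sum_cons, List.sum_nil]
        omega)
  have hz := HN_free hy (by decide)
  have HD : HN_D (2 * q + t) EC3 x y [(q : ℤ), (t : ℤ)] (GD_s x) := {
    hP := ⟨rfl, rfl, by simp [EC3], by simp, by simp [EC3, lePw] <;> omega, by simp [EC3, dot] <;> omega⟩
    pat := hy
    sl1 := fun h => absurd h (by decide)
    sl2 := fun h => absurd h (by decide)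
    fr1 := fun _ => by rw [hz]; simp [EC3, dot, num] <;> omega
    fr2 := fun _ h => by rw [hz]; simp [EC3, dot, num]; omega
    sx := fun j _ => by simp [EC3, stat, mul, dot, num] <;> omega
    sxv := fun j _ => by simp [EC3, stat, mul, dot, num]; omega
    zx := fun h => absurd h (by decide)
    zxv := fun h => absurd h (by decide) }
  have hv : mem .C (mul .C * ((2 * q + t : ℕ) : ℤ) - EC3.pv) x := by
    have h1 : mem .C (2 * ((2 * q + t : ℕ) : ℤ)) x := (HC_mem x).mp ⟨hb, by rw [ql]; omega⟩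
    have h2 : mul .C * ((2 * q + t : ℕ) : ℤ) - EC3.pv = 2 * ((2 * q + t : ℕ) : ℤ) := by
      simp [EC3, mul]
    rw [h2]
    exact h1
  exact ⟨y, HN_EE HN_VC EC3_S rfl HD hv⟩

end Pool.Agent.SOL
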