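import Pool.Agent.helper1.SOL.RowsN
import Pool.Agent.helper20.SOL.Full

/-!
# Project sol (MP_cad530_co): the non simply laced types

The pairs which are not treated by linear maps: empty edges, edges with at most one element in `SS`,
vertex numbers.
-/

set_option autoImplicit false

namespace Pool.Agent.SOL

open Pool.Agent.helper54.SOG Finset

open scoped BigOperators

/-- the rows of `SpecN` (helper1) used here -/
structure RowsM : Prop where
  cnt : CNT_stmt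
  csi : CSI_stmt
  bty : BTY_stmt
  crd : CRD_stmt
  sya : SYA_stmt
  sle : SLE_stmt
  shb : SHB_stmt
  neb : NEB_stmt
  bdn : BDN_stmt
  bfn : BFN_stmt
  c2s : C2S_stmt
  mon : MON_stmt
  nmb : NMB_stmt
  nmc : NMC_stmt
  nma : NMA_stmt
  smb : SMB_stmt
  f4s : F4S_stmt
  f4n : F4N_stmt
  f4e : F4E_stmt
  g2s : G2S_stmt
  vb1 : VB1_stmt
  vc1 : VC1_stmt
  e87 : (VE R8 7).ncard ≤ 82560

/-- the pairs treated by linear maps -/
structure PairsL : Prop where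
  bb : ∀ n k n' k' : ℕ, GenB n k → GenB n' k' → Nonempty (gph (VB n k) ≃g gph (VB n' k')) →
    n = n' ∧ k = k'
  bc : ∀ n k n' k' : ℕ, GenB n k → GenC n' k' → ¬ Nonempty (gph (VB n k) ≃g gph (VC n' k'))
  cc : ∀ n k n' k' : ℕ, GenC n k → GenC n' k' → Nonempty (gph (VC n k) ≃g gph (VC n' k')) →
    n = n' ∧ k = k'
  sd : ∀ κ n' k' : ℕ, 2 ≤ κ → 0 < k' → 4 ≤ n' →
    ¬ Nonempty (gph (VB (2 * κ + 1) (2 * κ)) ≃g gph (VD n' k'))
  sa : ∀ κ n' k' : ℕ, 2 ≤ κ → 0 < k' → 2 ≤ n' →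
    ¬ Nonempty (gph (VB (2 * κ + 1) (2 * κ)) ≃g gph (VA n' k'))

/-- names of the non simply laced types -/
inductive NT : Type
  | B (n : ℕ)
  | C (n : ℕ)
  | F
  | G
  deriving DecidableEq

/-- length of the vectors -/
def NT.d : NT → ℕ
  | .B n => n
  | .C n => n
  | .F => 4
  | .G => 3

/-- the vertex sets -/
def NT.V : (t : NT) → ℕ → Set (Vec t.d)
  | .B n, k => VB n k
  | .C n, k => VC n k
  | .F, k => sosSums RF4 k
  | .G, k => sosSums RG2 k

/-- the root systems -/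
def NT.R : (t : NT) → Set (Fin t.d → ℝ)
  | .B n => rootsB n
  | .C n => rootsC n
  | .F => rootsF4
  | .G => rootsG2

/-- the normal pairs -/
def NrmN (t : NT) (k : ℕ) : Prop :=
  match t with
  | .B n => GenB n k ∨ (n = 3 ∧ k = 2) ∨ (n = 4 ∧ k = 2) ∨ ∃ κ, 2 ≤ κ ∧ n = 2 * κ + 1 ∧ k = 2 * κ
  | .C n => GenC n k ∨ ∃ κ, 1 ≤ κ ∧ n = 3 * κ ∧ k = 2 * κ
  | .F => 1 ≤ k ∧ k ≤ 3
  | .G => k = 1

/-- there is an empty edge -/
def HasEE {n : ℕ} (S : Set (Vec n)) : Prop := ∃ x y, EE S x y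

/-- there is an edge with at most one element in `SS` -/
def Sub1 {n : ℕ} (S : Set (Vec n)) : Prop :=
  ∃ x ∈ S, ∃ y ∈ S, x - y ∈ S ∧ (SS S x y).Subsingleton

theorem HasEE.iso {n m : ℕ} {S : Set (Vec n)} {S' : Set (Vec m)} (R : RowsM) (hS : Sy S)
    (hS' : Sy S') (h : HasEE S) (hi : Iso S S') : HasEE S' := by
  obtain ⟨x, y, h⟩ := h
  obtain ⟨ψ⟩ := hi
  obtain ⟨_, _, h3, _⟩ := R.sya n m S S' ψ hS hS'
  exact ⟨up ψ x, up ψ y, h3 x h.1 y h.2.1 h⟩

theorem Sub1.iso {n m : ℕ} {S : Set (Vec n)} {S' : Set (Vec m)} (R : RowsM) (hS : Sy S)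
    (hS' : Sy S') (h : Sub1 S) (hi : Iso S S') : Sub1 S' := by
  obtain ⟨x, hx, y, hy, hxy, h⟩ := h
  obtain ⟨ψ⟩ := hi
  obtain ⟨h1, h2, _⟩ := R.sya n m S S' ψ hS hS'
  refine ⟨up ψ x, up_mem ψ hx, up ψ y, up_mem ψ hy, (h1 x hx y hy).2 hxy, ?_⟩
  rw [h2 x hx y hy]
  exact h.image _

theorem Good.sub1 {n : ℕ} {S : Set (Vec n)} {x y : Vec n} (h : Good S x y) :
    (SS S x y).Subsingleton := by
  have h1 : ∀ w ∈ SS S x y, w = y - x := by
    rintro w ⟨hw, hyw, hwx, hxw, hu⟩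
    by_contra hne
    obtain ⟨v, hv, hvy, hxv, hwv⟩ := h w hw hyw hwx hxw hne
    exact hvy (hu v hv hxv hwv)
  intro a ha b hb
  rw [h1 a ha, h1 b hb]

theorem GPr.sub1 {n : ℕ} {S : Set (Vec n)} {x : Vec n} (hx : x ∈ S) (h : GPr S x) : Sub1 S := by
  obtain ⟨y, hy, hxy, h1, _⟩ := h
  exact ⟨x, hx, y, hy, hxy, h1.sub1⟩

theorem EE.sub1 {n : ℕ} {S : Set (Vec n)} {x y : Vec n} (h : EE S x y) : Sub1 S :=
  ⟨x, h.1, y, h.2.1, h.2.2.1, by rw [h.2.2.2]; exact Set.subsingleton_empty⟩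

theorem HasEE.sub1 {n : ℕ} {S : Set (Vec n)} (h : HasEE S) : Sub1 S := by
  obtain ⟨x, y, h⟩ := h
  exact h.sub1

/-- generic graphs of type B have empty edges -/
theorem EE_GenB {n k : ℕ} (h : GenB n k) : HasEE (VB n k) := by
  obtain ⟨hn, hk, h⟩ := h
  rcases h with ⟨h1, h2⟩ | ⟨h1, h2, h3⟩
  · rcases (by omega : k % 4 = 1 ∨ k % 4 = 3) with h4 | h4
    · obtain ⟨a, rfl⟩ : ∃ a, k = 4 * a + 1 := ⟨k / 4, by omega⟩
      have hx := std_mem (n := n) (t := 2 * a) (s := 1) (by omega)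
      have := EB10_row (n := n) (a := a) (b := 0) (by omega) (by omega) (by omega) hx.1 hx.2.1
        (by rw [hx.2.2])
      exact ⟨_, this⟩
    · obtain ⟨a, rfl⟩ : ∃ a, k = 4 * a + 3 := ⟨k / 4, by omega⟩
      have hx := std_mem (n := n) (t := 2 * a + 1) (s := 1) (by omega)
      have := EB11_row (n := n) (a := a) (b := 0) (by omega) (by omega) hx.1 hx.2.1 (by rw [hx.2.2])
      exact ⟨_, this⟩
  · rcases (by omega : k % 4 = 2 ∨ k % 4 = 0) with h4 | h4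
    · obtain ⟨a, rfl⟩ : ∃ a, k = 4 * a + 2 := ⟨k / 4, by omega⟩
      have hx := std_mem (n := n) (t := 2 * a) (s := 3) (by omega)
      have := EB30_row (n := n) (a := a) (b := 0) (by omega) (by omega) (by omega) hx.1 hx.2.1
        (by rw [hx.2.2])
      exact ⟨_, this⟩
    · obtain ⟨a, rfl⟩ : ∃ a, k = 4 * a + 4 := ⟨k / 4 - 1, by omega⟩
      have hx := std_mem (n := n) (t := 2 * a + 1) (s := 3) (by omega)
      have := EB31_row (n := n) (a := a) (b := 0) (by omega) (by omega) (by omega) hx.1 hx.2.1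
        (by rw [hx.2.2])
      exact ⟨_, this⟩

/-- generic graphs of type C have empty edges -/
theorem EE_GenC {n k : ℕ} (h : GenC n k) : HasEE (VC n k) := by
  have h0 := h
  obtain ⟨hn, hk, h3⟩ := h
  have hx := std_mem (n := n) (t := k - 1) (s := 2) (by omega)
  obtain ⟨_, _, _, _, ql⟩ := HN_cnt hx.1
  obtain ⟨y, hy⟩ := PC n k _ h0 ⟨hx.1, by rw [ql, hx.2.1, hx.2.2]; omega⟩ (by
    rintro ⟨_, _, h4⟩
    rw [hx.2.2] at h4
    exact absurd h4 (by norm_num))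
  exact ⟨_, y, hy⟩

/-- `HasEE` or not, for the normal pairs -/
theorem NrmN.pos {t : NT} {k : ℕ} (h : NrmN t k) : 1 ≤ k := by
  cases t with
  | B n =>
    rcases h with h | ⟨_, h⟩ | ⟨_, h⟩ | ⟨κ, h1, _, h2⟩
    · exact h.2.1
    · omega
    · omega
    · omega
  | C n =>
    rcases h with h | ⟨κ, h1, _, h2⟩
    · exact h.2.1
    · omega
  | F => exact h.1
  | G =>
    have h1 : k = 1 := h
    omega

theorem NrmN.sy (R : RowsM) {t : NT} {k : ℕ} (h : NrmN t k) : Sy (t.V k) := by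
  have hk := h.pos
  cases t with
  | B n => exact (R.bty.2.2.2.2.2.2.1 n k hk).1
  | C n => exact (R.bty.2.2.2.2.2.2.1 n k hk).2
  | F => exact R.f4n.2.2.2.2.2 k h.1 (h.2.trans (by norm_num))
  | G =>
    have h1 : k = 1 := h
    subst h1
    exact R.g2s.2.2.1

theorem Tgt.sy {d : ℕ} {S : Set (Vec d)} {ρ m r : ℕ} (R : RowsM) (h : Tgt S ρ m r) : Sy S :=
  (R.sle d S (h.sl R.csi)).1

theorem Tgt.noEE {d : ℕ} {S : Set (Vec d)} {ρ m r : ℕ} (R : RowsM) (h : Tgt S ρ m r) :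
    ¬ HasEE S := by
  rintro ⟨x, y, h1⟩
  exact (R.sle d S (h.sl R.csi)).2.2.1 x y h1

/-- `Γ(B_{2κ+1}, 2κ)` -/
theorem BS_sub1 {κ : ℕ} (hκ : 2 ≤ κ) : Sub1 (VB (2 * κ + 1) (2 * κ)) := by
  have hx := std_mem (n := 2 * κ + 1) (t := κ) (s := 0) (by omega)
  obtain ⟨_, _, _, qd, ql⟩ := HN_cnt hx.1
  refine GPr.sub1 (x := std (2 * κ + 1) κ 0) ⟨hx.1, Or.inl ?_, ?_⟩ (GBS κ hκ _ hx)
  · rw [qd, hx.2.1, hx.2.2]
    push_cast
    ring
  · rw [ql, hx.2.1, hx.2.2]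
    push_cast
    omega

theorem CS_not {κ : ℕ} (R : RowsM) (hκ : 1 ≤ κ) : ¬ Sub1 (VC (3 * κ) (2 * κ)) := by
  rintro ⟨x, hx, y, hy, hxy, h⟩
  obtain ⟨z, hz, z', hz', hne⟩ := R.c2s κ hκ x y hx hy hxy
  exact hne (h hz hz')

theorem BS_card (R : RowsM) {κ : ℕ} (hκ : 2 ≤ κ) :
    (κ = 2 ∧ (VB (2 * κ + 1) (2 * κ)).ncard = 360) ∨
    (κ = 3 ∧ (VB (2 * κ + 1) (2 * κ)).ncard = 7000) ∨
    109536 ≤ (VB (2 * κ + 1) (2 * κ)).ncard := by
  obtain ⟨_, _, _, _, _, h5, h7, h9⟩ := R.nmb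
  rcases (by omega : κ = 2 ∨ κ = 3 ∨ κ = 4 ∨ 4 < κ) with rfl | rfl | rfl | h
  · exact Or.inl ⟨rfl, h5⟩
  · exact Or.inr (Or.inl ⟨rfl, h7⟩)
  · exact Or.inr (Or.inr h9)
  · have := R.mon.1 4 κ (by norm_num) h
    exact Or.inr (Or.inr (h9.trans this.le))

theorem CS_card (R : RowsM) {κ : ℕ} (hκ : 1 ≤ κ) :
    (κ = 1 ∧ (VC (3 * κ) (2 * κ)).ncard = 36) ∨
    (κ = 2 ∧ (VC (3 * κ) (2 * κ)).ncard = 3120) ∨
    102144 ≤ (VC (3 * κ) (2 * κ)).ncard := by
  obtain ⟨_, _, h3, h6, h9, _⟩ := R.nmc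
  rcases (by omega : κ = 1 ∨ κ = 2 ∨ κ = 3 ∨ 3 < κ) with rfl | rfl | rfl | h
  · exact Or.inl ⟨rfl, h3⟩
  · exact Or.inr (Or.inl ⟨rfl, h6⟩)
  · exact Or.inr (Or.inr h9)
  · have := R.mon.2 3 κ (by norm_num) h
    exact Or.inr (Or.inr (h9.trans this.le))

theorem BS_inj (R : RowsM) {κ κ' : ℕ} (hκ : 2 ≤ κ) (hκ' : 2 ≤ κ')
    (hi : Iso (VB (2 * κ + 1) (2 * κ)) (VB (2 * κ' + 1) (2 * κ'))) : κ = κ' := by
  have h1 := hi.ncard
  rcases lt_trichotomy κ κ' with h | h | h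
  · have := R.mon.1 κ κ' (by omega) h
    omega
  · exact h
  · have := R.mon.1 κ' κ (by omega) h
    omega

theorem CS_inj (R : RowsM) {κ κ' : ℕ} (hκ : 1 ≤ κ) (hκ' : 1 ≤ κ')
    (hi : Iso (VC (3 * κ) (2 * κ)) (VC (3 * κ') (2 * κ'))) : κ = κ' := by
  have h1 := hi.ncard
  rcases lt_trichotomy κ κ' with h | h | h
  · have := R.mon.2 κ κ' (by omega) h
    omega
  · exact h
  · have := R.mon.2 κ' κ (by omega) h
    omega

theorem BS_noEE (R : RowsM) {κ : ℕ} (hκ : 2 ≤ κ) : ¬ HasEE (VB (2 * κ + 1) (2 * κ)) := by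
  rintro ⟨x, y, h⟩
  exact R.bfn κ hκ x y h

theorem B42_noEE (R : RowsM) : ¬ HasEE (VB 4 2) := by
  rintro ⟨x, y, h⟩
  exact R.smb.2.1 x y h

theorem B42_sub1 (R : RowsM) : Sub1 (VB 4 2) := by
  obtain ⟨x, y, hx, hy, hxy, h⟩ := R.smb.2.2.2
  refine ⟨x, hx, y, hy, hxy, ?_⟩
  intro a ha b hb
  rw [h a ha, h b hb]

theorem B32_EE (R : RowsM) : HasEE (VB 3 2) := ⟨_, _, R.smb.1⟩

theorem F_EE (R : RowsM) {k : ℕ} (h1 : 1 ≤ k) (h3 : k ≤ 3) : HasEE (sosSums RF4 k) := by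
  obtain ⟨a, b, c⟩ := R.f4e
  interval_cases k
  · exact ⟨_, _, a⟩
  · exact ⟨_, _, b⟩
  · exact ⟨_, _, c⟩

theorem F_card (R : RowsM) {k : ℕ} (h1 : 1 ≤ k) (h3 : k ≤ 3) :
    (k = 1 ∧ (sosSums RF4 k).ncard = 48) ∨ (k = 2 ∧ (sosSums RF4 k).ncard = 120) ∨
      (k = 3 ∧ (sosSums RF4 k).ncard = 240) := by
  obtain ⟨a, b, c, _⟩ := R.f4n
  interval_cases k
  · exact Or.inl ⟨rfl, a⟩
  · exact Or.inr (Or.inl ⟨rfl, b⟩)
  · exact Or.inr (Or.inr ⟨rfl, c⟩)

theorem G_EE (R : RowsM) : HasEE (sosSums RG2 1) := ⟨_, _, R.g2s.2.2.2.1⟩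

/-- the classes of normal pairs -/
inductive NX : Type
  | gb (n k : ℕ)
  | b32
  | b42
  | bs (κ : ℕ)
  | gc (n k : ℕ)
  | cs (κ : ℕ)
  | f (k : ℕ)
  | g

/-- the type -/
def NX.t : NX → NT
  | .gb n _ => .B n
  | .b32 => .B 3
  | .b42 => .B 4
  | .bs κ => .B (2 * κ + 1)
  | .gc n _ => .C n
  | .cs κ => .C (3 * κ)
  | .f _ => .F
  | .g => .G

/-- the number -/
def NX.k : NX → ℕ
  | .gb _ k => k
  | .b32 => 2
  | .b42 => 2
  | .bs κ => 2 * κ
  | .gc _ k => k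
  | .cs κ => 2 * κ
  | .f k => k
  | .g => 1

/-- the conditions -/
def NX.ok : NX → Prop
  | .gb n k => GenB n k
  | .b32 => True
  | .b42 => True
  | .bs κ => 2 ≤ κ
  | .gc n k => GenC n k
  | .cs κ => 1 ≤ κ
  | .f k => 1 ≤ k ∧ k ≤ 3
  | .g => True

theorem NrmN.nx {t : NT} {k : ℕ} (h : NrmN t k) : ∃ c : NX, c.ok ∧ c.t = t ∧ c.k = k := by
  cases t with
  | B n =>
    rcases h with h | ⟨rfl, rfl⟩ | ⟨rfl, rfl⟩ | ⟨κ, h1, rfl, rfl⟩
    · exact ⟨.gb n k, h, rfl, rfl⟩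
    · exact ⟨.b32, trivial, rfl, rfl⟩
    · exact ⟨.b42, trivial, rfl, rfl⟩
    · exact ⟨.bs κ, h1, rfl, rfl⟩
  | C n =>
    rcases h with h | ⟨κ, h1, rfl, rfl⟩
    · exact ⟨.gc n k, h, rfl, rfl⟩
    · exact ⟨.cs κ, h1, rfl, rfl⟩
  | F => exact ⟨.f k, h, rfl, rfl⟩
  | G => exact ⟨.g, trivial, rfl, Eq.symm h⟩

theorem NX.nrm {c : NX} (h : c.ok) : NrmN c.t c.k := by
  cases c with
  | gb n k => exact Or.inl h
  | b32 => exact Or.inr (Or.inl ⟨rfl, rfl⟩)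
  | b42 => exact Or.inr (Or.inr (Or.inl ⟨rfl, rfl⟩))
  | bs κ => exact Or.inr (Or.inr (Or.inr ⟨κ, h, rfl, rfl⟩))
  | gc n k => exact Or.inl h
  | cs κ => exact Or.inr ⟨κ, h, rfl, rfl⟩
  | f k => exact h
  | g => exact rfl

/-- `0`: empty edges, `1`: no empty edges, an edge with one element in `SS`, `2`: the rest -/
def NX.cl : NX → ℕ
  | .gb _ _ => 0
  | .b32 => 0
  | .b42 => 1
  | .bs _ => 1
  | .gc _ _ => 0
  | .cs _ => 2
  | .f _ => 0
  | .g => 0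

theorem NX.ee (R : RowsM) {c : NX} (h : c.ok) : HasEE (c.t.V c.k) ↔ c.cl = 0 := by
  cases c with
  | gb n k => exact ⟨fun _ => rfl, fun _ => EE_GenB h⟩
  | b32 => exact ⟨fun _ => rfl, fun _ => B32_EE R⟩
  | b42 => exact ⟨fun h1 => absurd h1 (B42_noEE R), fun h1 => absurd h1 (by decide)⟩
  | bs κ => exact ⟨fun h1 => absurd h1 (BS_noEE R h), fun h1 => absurd h1 (Nat.one_ne_zero)⟩
  | gc n k => exact ⟨fun _ => rfl, fun _ => EE_GenC h⟩
  | cs κ => exact ⟨fun h1 => absurd h1.sub1 (CS_not R h), fun h1 => absurd h1 (Nat.succ_ne_zero 1)⟩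
  | f k => exact ⟨fun _ => rfl, fun _ => F_EE R h.1 h.2⟩
  | g => exact ⟨fun _ => rfl, fun _ => G_EE R⟩

theorem NX.sb (R : RowsM) {c : NX} (h : c.ok) : Sub1 (c.t.V c.k) ↔ c.cl ≤ 1 := by
  cases c with
  | gb n k => exact ⟨fun _ => Nat.zero_le 1, fun _ => (EE_GenB h).sub1⟩
  | b32 => exact ⟨fun _ => Nat.zero_le 1, fun _ => (B32_EE R).sub1⟩
  | b42 => exact ⟨fun _ => le_refl 1, fun _ => B42_sub1 R⟩
  | bs κ => exact ⟨fun _ => le_refl 1, fun _ => BS_sub1 h⟩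
  | gc n k => exact ⟨fun _ => Nat.zero_le 1, fun _ => (EE_GenC h).sub1⟩
  | cs κ => exact ⟨fun h1 => absurd h1 (CS_not R h), fun h1 => absurd h1 (Nat.not_succ_le_self 1)⟩
  | f k => exact ⟨fun _ => Nat.zero_le 1, fun _ => (F_EE R h.1 h.2).sub1⟩
  | g => exact ⟨fun _ => Nat.zero_le 1, fun _ => (G_EE R).sub1⟩

theorem NX.cl_iso (R : RowsM) {c c' : NX} (h : c.ok) (h' : c'.ok)
    (hi : Iso (c.t.V c.k) (c'.t.V c'.k)) : c.cl = c'.cl := by
  have s := (NX.nrm h).sy R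
  have s' := (NX.nrm h').sy R
  have e1 : c.cl = 0 ↔ c'.cl = 0 := by
    rw [← NX.ee R h, ← NX.ee R h']
    exact ⟨fun h1 => h1.iso R s s' hi, fun h1 => h1.iso R s' s hi.symm⟩
  have e2 : c.cl ≤ 1 ↔ c'.cl ≤ 1 := by
    rw [← NX.sb R h, ← NX.sb R h']
    exact ⟨fun h1 => h1.iso R s s' hi, fun h1 => h1.iso R s' s hi.symm⟩
  have b : ∀ c : NX, c.cl ≤ 2 := by
    intro c
    cases c <;> simp [NX.cl]
  have := b c
  have := b c'
  omega

/-- isomorphic graphs of non simply laced type belong to the same pair -/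
theorem nx_inj (R : RowsM) (P : PairsL) {c c' : NX} (h : c.ok) (h' : c'.ok)
    (hi : Iso (c.t.V c.k) (c'.t.V c'.k)) : c = c' := by
  have hcl := NX.cl_iso R h h' hi
  have hN := hi.ncard
  have n32 : (VB 3 2).ncard = 14 := R.nmb.2.2.2.2.1
  have n42 : (VB 4 2).ncard = 56 := R.nmb.2.2.2.1
  have nG : (sosSums RG2 1).ncard = 12 := R.g2s.2.1
  have gB : ∀ n k, GenB n k → (VB n k).ncard ≠ 12 ∧ (VB n k).ncard ≠ 14 ∧ (VB n k).ncard ≠ 48 ∧
    (VB n k).ncard ≠ 120 ∧ (VB n k).ncard ≠ 240 := R.nmb.2.1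
  have gC : ∀ n k, GenC n k → (VC n k).ncard ≠ 12 ∧ (VC n k).ncard ≠ 14 ∧ (VC n k).ncard ≠ 48 ∧
    (VC n k).ncard ≠ 120 ∧ (VC n k).ncard ≠ 240 := R.nmc.2.1
  cases c with
  | gb n k =>
    have h1 := gB n k h
    cases c' with
    | gb n' k' => obtain ⟨rfl, rfl⟩ := P.bb n k n' k' h h' hi; rfl
    | b32 => exact absurd (hN.trans n32) h1.2.1
    | b42 => exact absurd hcl (Nat.zero_ne_one)
    | bs κ => exact absurd hcl (Nat.zero_ne_one)
    | gc n' k' => exact absurd hi (P.bc n k n' k' h h')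
    | cs κ => exact absurd hcl (Nat.succ_ne_zero 1).symm
    | f k' =>
      exfalso
      have e : (VB n k).ncard = (sosSums RF4 k').ncard := hN
      rcases F_card R h'.1 h'.2 with ⟨_, h2⟩ | ⟨_, h2⟩ | ⟨_, h2⟩ <;> omega
    | g => exact absurd (hN.trans nG) h1.1
  | b32 =>
    cases c' with
    | gb n' k' => exact absurd (hN.symm.trans n32) (gB n' k' h').2.1
    | b32 => rfl
    | b42 => exact absurd hcl (Nat.zero_ne_one)
    | bs κ => exact absurd hcl (Nat.zero_ne_one)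
    | gc n' k' => exact absurd (hN.symm.trans n32) (gC n' k' h').2.1
    | cs κ => exact absurd hcl (Nat.succ_ne_zero 1).symm
    | f k' =>
      exfalso
      have e : (VB 3 2).ncard = (sosSums RF4 k').ncard := hN
      rcases F_card R h'.1 h'.2 with ⟨_, h2⟩ | ⟨_, h2⟩ | ⟨_, h2⟩ <;> omega
    | g =>
      exfalso
      have e : (VB 3 2).ncard = (sosSums RG2 1).ncard := hN
      omega
  | b42 =>
    cases c' with
    | gb n' k' => exact absurd hcl (Nat.one_ne_zero)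
    | b32 => exact absurd hcl (Nat.one_ne_zero)
    | b42 => rfl
    | bs κ =>
      exfalso
      have e : (VB 4 2).ncard = (VB (2 * κ + 1) (2 * κ)).ncard := hN
      rcases BS_card R h' with ⟨_, h2⟩ | ⟨_, h2⟩ | h2 <;> omega
    | gc n' k' => exact absurd hcl (Nat.one_ne_zero)
    | cs κ => exact absurd hcl (by simp [NX.cl])
    | f k' => exact absurd hcl (Nat.one_ne_zero)
    | g => exact absurd hcl (Nat.one_ne_zero)
  | bs κ =>
    cases c' with
    | gb n' k' => exact absurd hcl (Nat.one_ne_zero)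
    | b32 => exact absurd hcl (Nat.one_ne_zero)
    | b42 =>
      exfalso
      have e : (VB (2 * κ + 1) (2 * κ)).ncard = (VB 4 2).ncard := hN
      rcases BS_card R h with ⟨_, h2⟩ | ⟨_, h2⟩ | h2 <;> omega
    | bs κ' => rw [BS_inj R h h' hi]
    | gc n' k' => exact absurd hcl (Nat.one_ne_zero)
    | cs κ' => exact absurd hcl (by simp [NX.cl])
    | f k' => exact absurd hcl (Nat.one_ne_zero)
    | g => exact absurd hcl (Nat.one_ne_zero)
  | gc n k =>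
    have h1 := gC n k h
    cases c' with
    | gb n' k' => exact absurd hi.symm (P.bc n' k' n k h' h)
    | b32 => exact absurd (hN.trans n32) h1.2.1
    | b42 => exact absurd hcl (Nat.zero_ne_one)
    | bs κ => exact absurd hcl (Nat.zero_ne_one)
    | gc n' k' => obtain ⟨rfl, rfl⟩ := P.cc n k n' k' h h' hi; rfl
    | cs κ => exact absurd hcl (Nat.succ_ne_zero 1).symm
    | f k' =>
      exfalso
      have e : (VC n k).ncard = (sosSums RF4 k').ncard := hN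
      rcases F_card R h'.1 h'.2 with ⟨_, h2⟩ | ⟨_, h2⟩ | ⟨_, h2⟩ <;> omega
    | g => exact absurd (hN.trans nG) h1.1
  | cs κ =>
    cases c' with
    | gb n' k' => exact absurd hcl (by simp [NX.cl])
    | b32 => exact absurd hcl (by simp [NX.cl])
    | b42 => exact absurd hcl (by simp [NX.cl])
    | bs κ' => exact absurd hcl (by simp [NX.cl])
    | gc n' k' => exact absurd hcl (by simp [NX.cl])
    | cs κ' => rw [CS_inj R h h' hi]
    | f k' => exact absurd hcl (by simp [NX.cl])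
    | g => exact absurd hcl (by simp [NX.cl])
  | f k =>
    cases c' with
    | gb n' k' =>
      exfalso
      have e : (sosSums RF4 k).ncard = (VB n' k').ncard := hN
      have h1 := gB n' k' h'
      rcases F_card R h.1 h.2 with ⟨_, h2⟩ | ⟨_, h2⟩ | ⟨_, h2⟩ <;> omega
    | b32 =>
      exfalso
      have e : (sosSums RF4 k).ncard = (VB 3 2).ncard := hN
      rcases F_card R h.1 h.2 with ⟨_, h2⟩ | ⟨_, h2⟩ | ⟨_, h2⟩ <;> omega
    | b42 => exact absurd hcl (Nat.zero_ne_one)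
    | bs κ => exact absurd hcl (Nat.zero_ne_one)
    | gc n' k' =>
      exfalso
      have e : (sosSums RF4 k).ncard = (VC n' k').ncard := hN
      have h1 := gC n' k' h'
      rcases F_card R h.1 h.2 with ⟨_, h2⟩ | ⟨_, h2⟩ | ⟨_, h2⟩ <;> omega
    | cs κ => exact absurd hcl (by simp [NX.cl])
    | f k' =>
      have e : (sosSums RF4 k).ncard = (sosSums RF4 k').ncard := hN
      have hk : k = k' := by
        rcases F_card R h.1 h.2 with ⟨_, h2⟩ | ⟨_, h2⟩ | ⟨_, h2⟩ <;>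
          rcases F_card R h'.1 h'.2 with ⟨_, h3⟩ | ⟨_, h3⟩ | ⟨_, h3⟩ <;> omega
      rw [hk]
    | g =>
      exfalso
      have e : (sosSums RF4 k).ncard = (sosSums RG2 1).ncard := hN
      rcases F_card R h.1 h.2 with ⟨_, h2⟩ | ⟨_, h2⟩ | ⟨_, h2⟩ <;> omega
  | g =>
    cases c' with
    | gb n' k' => exact absurd (hN.symm.trans nG) (gB n' k' h').1
    | b32 =>
      exfalso
      have e : (sosSums RG2 1).ncard = (VB 3 2).ncard := hN
      omega
    | b42 => exact absurd hcl (Nat.zero_ne_one)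
    | bs κ => exact absurd hcl (Nat.zero_ne_one)
    | gc n' k' => exact absurd (hN.symm.trans nG) (gC n' k' h').1
    | cs κ => exact absurd hcl (by simp [NX.cl])
    | f k' =>
      exfalso
      have e : (sosSums RG2 1).ncard = (sosSums RF4 k').ncard := hN
      rcases F_card R h'.1 h'.2 with ⟨_, h2⟩ | ⟨_, h2⟩ | ⟨_, h2⟩ <;> omega
    | g => rfl

theorem nsl_inj (R : RowsM) (P : PairsL) {t t' : NT} {k k' : ℕ} (h : NrmN t k) (h' : NrmN t' k')
    (hi : Iso (t.V k) (t'.V k')) : t = t' ∧ k = k' := by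
  obtain ⟨c, hc, rfl, rfl⟩ := h.nx
  obtain ⟨c', hc', rfl, rfl⟩ := h'.nx
  rw [nx_inj R P hc hc' hi]
  exact ⟨rfl, rfl⟩

/-! ## Non simply laced against simply laced -/

theorem Nrm.pos {t : ST} {k : ℕ} (h : Nrm t k) : 0 < k := by
  cases t with
  | A n =>
    rcases h with h | h
    · exact h.1
    · omega
  | D n =>
    rcases h with h | h | h
    · exact h.pos
    · obtain ⟨_, h, _⟩ := h
      omega
    · omega
  | E6 => exact h.1
  | E7 => exact h.1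
  | E8 => exact h.1

theorem E_range (R : RowsM) (RN : RowsN) {t : ST} {k : ℕ} (ht : t = .E6 ∨ t = .E7 ∨ t = .E8)
    (h : Nrm t k) : (t.V k).ncard ≠ 56 ∧ (t.V k).ncard ≠ 360 ∧ (t.V k).ncard ≠ 7000 ∧
      (t.V k).ncard ≠ 36 ∧ (t.V k).ncard ≠ 3120 ∧ (t.V k).ncard < 102144 := by
  have h1 := E_numbers RN ht h
  have h2 := R.e87
  rcases ht with rfl | rfl | rfl
  · rcases h1 with ⟨_, h1⟩ | ⟨_, h1⟩ | ⟨_, h1⟩ <;> omega
  · rcases h1 with ⟨_, h1⟩ | ⟨_, h1⟩ | ⟨_, h1⟩ | ⟨_, h1⟩ | ⟨_, h1⟩ | ⟨_, h1, h3⟩ <;> omega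
  · rcases h1 with ⟨_, h1⟩ | ⟨_, h1⟩ | ⟨_, h1⟩ | ⟨_, h1⟩ | ⟨_, h1⟩ | ⟨_, h1⟩ | ⟨h4, h1⟩
    · omega
    · omega
    · omega
    · omega
    · omega
    · omega
    · subst h4
      have e : (ST.V .E8 7).ncard = (VE R8 7).ncard := rfl
      omega

theorem TD_VD {n k t s : ℕ} (R : RowsM) (h : 4 * t + s = 2 * k) (hle : 2 * t + s ≤ n) {x : Vec n}
    (hx : x ∈ TD n t s) : x ∈ VD n k := R.cnt.2.2.1 n k t s x h hle hx

/-- normal pairs of types A and D have an edge with at most one element in `SS` -/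
theorem AD_sub1 (R : RowsM) {t : ST} {k : ℕ} (ht : (∃ n, t = .A n) ∨ ∃ n, t = .D n)
    (h : Nrm t k) : Sub1 (t.V k) := by
  rcases ht with ⟨n, rfl⟩ | ⟨n, rfl⟩
  · have h1 : 1 ≤ k ∧ 3 * k ≤ n := by
      rcases h with h | h
      · exact ⟨h.1, h.2.1⟩
      · omega
    have hx := stdA_mem (n := n) (k := k) (by omega)
    exact GPr.sub1 hx (row_AG h1.1 h1.2 hx)
  · have h1 : 4 ≤ n ∧ ((k % 4 = 1 ∧ k + 1 ≤ n) ∨ (k % 4 = 3 ∧ k + 1 ≤ n) ∨
        (k % 4 = 2 ∧ k + 2 ≤ n) ∨ (k % 4 = 0 ∧ 4 ≤ k ∧ k ≤ n)) := by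
      rcases h with h | h | h
      · obtain ⟨h1, h2⟩ := h
        omega
      · obtain ⟨h1, h2, h3, h4⟩ := h
        omega
      · omega
    obtain ⟨h4, h1⟩ := h1
    show Sub1 (VD n k)
    rcases h1 with ⟨h1, h2⟩ | ⟨h1, h2⟩ | ⟨h1, h2⟩ | ⟨h1, h0, h2⟩
    · obtain ⟨q, rfl⟩ : ∃ q, k = 4 * q + 1 := ⟨k / 4, by omega⟩
      have hx := std_mem (n := n) (t := 2 * q) (s := 2) (by omega)
      have hxV : std n (2 * q) 2 ∈ VD n (4 * q + 1) := TD_VD R (by omega) (by omega) hx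
      exact GPr.sub1 hxV (row_DG1 (by omega) (by omega) hxV hx.2.1)
    · obtain ⟨q, rfl⟩ : ∃ q, k = 4 * q + 3 := ⟨k / 4, by omega⟩
      have hx := std_mem (n := n) (t := 2 * q + 1) (s := 2) (by omega)
      have hxV : std n (2 * q + 1) 2 ∈ VD n (4 * q + 3) := TD_VD R (by omega) (by omega) hx
      exact GPr.sub1 hxV (row_DG3 (by omega) hxV hx.2.1)
    · obtain ⟨q, rfl⟩ : ∃ q, k = 4 * q + 2 := ⟨k / 4, by omega⟩
      have hx := std_mem (n := n) (t := 2 * q + 1) (s := 0) (by omega)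
      have hxV : std n (2 * q + 1) 0 ∈ VD n (4 * q + 2) := TD_VD R (by omega) (by omega) hx
      exact GPr.sub1 hxV (row_DG2a (by omega) hxV hx.2.1)
    · obtain ⟨q, rfl⟩ : ∃ q, k = 4 * q := ⟨k / 4, by omega⟩
      have hx := std_mem (n := n) (t := 2 * q) (s := 0) (by omega)
      have hxV : std n (2 * q) 0 ∈ VD n (4 * q) := TD_VD R (by omega) (by omega) hx
      exact GPr.sub1 hxV (row_DG0 (by omega) (by omega) hxV hx.2.1)

theorem ST.cases3 (t : ST) : ((∃ n, t = .A n) ∨ ∃ n, t = .D n) ∨ (t = .E6 ∨ t = .E7 ∨ t = .E8) := by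
  cases t with
  | A n => exact Or.inl (Or.inl ⟨n, rfl⟩)
  | D n => exact Or.inl (Or.inr ⟨n, rfl⟩)
  | E6 => exact Or.inr (Or.inl rfl)
  | E7 => exact Or.inr (Or.inr (Or.inl rfl))
  | E8 => exact Or.inr (Or.inr (Or.inr rfl))

/-- `Γ(B_4, 2)` against the simply laced graphs -/
theorem B42_sl (R : RowsM) (RN : RowsN) {t : ST} {k : ℕ} (h : Nrm t k)
    (hi : Iso (VB 4 2) (t.V k)) : False := by
  have hN := hi.ncard
  have n42 : (VB 4 2).ncard = 56 := R.nmb.2.2.2.1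
  rw [n42] at hN
  rcases t.cases3 with (⟨n, rfl⟩ | ⟨n, rfl⟩) | ht
  · have h1 : 1 ≤ k ∧ 3 * k ≤ n := by
      rcases h with h | h
      · exact ⟨h.1, h.2.1⟩
      · omega
    obtain ⟨rfl, rfl⟩ := R.nma.1 n k h1.1 h1.2 hN.symm
    obtain ⟨a1, a2, a3⟩ := R.smb.2.2.1
    obtain ⟨ψ⟩ := hi
    have s1 : Sy (VB 4 2) := (R.bty.2.2.2.2.2.2.1 4 2 (by norm_num)).1
    have s2 : Sy (VA 8 1) := (VA_tgt (n := 8) (k := 1) (by norm_num)).sy R
    obtain ⟨_, _, _, _, _, d, _⟩ := R.sya 4 8 (VB 4 2) (VA 8 1) ψ s1 s2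
    apply a3
    rw [d _ a1, d _ a2]
    exact R.nma.2.2 8 _ _ (up_mem ψ a1) (up_mem ψ a2)
  · have h1 : 4 ≤ n ∧ ((k % 4 = 0 ∧ k ≤ n) ∨ (k % 2 = 1 ∧ k + 1 ≤ n) ∨ (k % 4 = 2 ∧ k + 2 ≤ n)) := by
      rcases h with h | h | h
      · obtain ⟨h1, h2⟩ := h
        omega
      · obtain ⟨h1, h2, h3, h4⟩ := h
        omega
      · omega
    exact R.nma.2.1 n k h1.1 h.pos h1.2 hN.symm
  · exact (E_range R RN ht h).1 hN.symm

/-- non simply laced normal pairs are not isomorphic to simply laced ones -/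
theorem nsl_sl (R : RowsM) (P : PairsL) (RN : RowsN) {t : NT} {t' : ST} {k k' : ℕ}
    (h : NrmN t k) (h' : Nrm t' k') (hi : Iso (t.V k) (t'.V k')) : False := by
  have s := h.sy R
  have T := ST.tgt RN t' h'.pos
  have s' := T.sy R
  obtain ⟨c, hc, rfl, rfl⟩ := h.nx
  have hN := hi.ncard
  by_cases h0 : c.cl = 0
  · exact T.noEE R (((NX.ee R hc).2 h0).iso R s s' hi)
  cases c with
  | gb n k => exact h0 rfl
  | b32 => exact h0 rfl
  | b42 => exact B42_sl R RN h' hi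
  | bs κ =>
    have hκ : 2 ≤ κ := hc
    rcases t'.cases3 with (⟨n, rfl⟩ | ⟨n, rfl⟩) | ht
    · refine P.sa κ n k' hκ h'.pos ?_ hi
      rcases h' with h | h
      · have := h.1
        have := h.2.1
        omega
      · omega
    · refine P.sd κ n k' hκ h'.pos ?_ hi
      rcases h' with h | h | h
      · exact h.1
      · obtain ⟨_, h8, h9, _⟩ := h
        omega
      · omega
    · obtain ⟨e1, e2, e3, e4, e5, e6⟩ := E_range R RN ht h'
      have e : (VB (2 * κ + 1) (2 * κ)).ncard = (t'.V k').ncard := hN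
      rcases BS_card R hκ with ⟨_, h2⟩ | ⟨_, h2⟩ | h2 <;> omega
  | gc n k => exact h0 rfl
  | cs κ =>
    have hκ : 1 ≤ κ := hc
    rcases t'.cases3 with ht | ht
    · exact CS_not R hκ ((AD_sub1 R ht h').iso R s' s hi.symm)
    · obtain ⟨e1, e2, e3, e4, e5, e6⟩ := E_range R RN ht h'
      have e : (VC (3 * κ) (2 * κ)).ncard = (t'.V k').ncard := hN
      rcases CS_card R hκ with ⟨_, h2⟩ | ⟨_, h2⟩ | h2 <;> omega
  | f k => exact h0 rfl
  | g => exact h0 rfl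

/-! ## The normal forms -/

theorem nsl_norm_B (R : RowsM) {n k : ℕ} (hn : 2 ≤ n) (hk : 0 < k) (he : HasE (VB n k)) :
    NrmN (.B n) k ∨ (n % 4 = 0 ∧ k = n) := by
  obtain ⟨x, hx, y, hy, hxy⟩ := he
  rcases R.neb.1 n k x y hk hx hy hxy with ⟨h1, h2⟩ | ⟨h1, h2⟩ | ⟨h1, h2⟩
  · exact Or.inl (Or.inl ⟨hn, hk, Or.inl ⟨h1, h2⟩⟩)
  · left
    by_cases h3 : n = k + 1
    · by_cases h4 : k = 2
      · exact Or.inr (Or.inl ⟨by omega, h4⟩)
      · exact Or.inr (Or.inr (Or.inr ⟨k / 2, by omega, by omega, by omega⟩))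
    · by_cases h4 : n = 4 ∧ k = 2
      · exact Or.inr (Or.inr (Or.inl h4))
      · exact Or.inl ⟨hn, hk, Or.inr ⟨by omega, by omega, h4⟩⟩
  · by_cases h3 : n = k
    · exact Or.inr ⟨by omega, h3.symm⟩
    · left
      by_cases h4 : n = k + 1
      · exact Or.inr (Or.inr (Or.inr ⟨k / 2, by omega, by omega, by omega⟩))
      · exact Or.inl ⟨hn, hk, Or.inr ⟨by omega, by omega, by omega⟩⟩

theorem nsl_norm_C (R : RowsM) {n k : ℕ} (hn : 3 ≤ n) (hk : 0 < k) (he : HasE (VC n k)) :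
    NrmN (.C n) k := by
  obtain ⟨x, hx, y, hy, hxy⟩ := he
  have h1 := R.neb.2 n k x y hx hy hxy
  by_cases h2 : 3 * k < 2 * n
  · exact Or.inl ⟨hn, hk, h2⟩
  · exact Or.inr ⟨k / 2, by omega, by omega, by omega⟩

theorem nsl_norm_F (R : RowsM) {k : ℕ} (hk : 0 < k) (he : HasE (sosSums RF4 k)) :
    NrmN .F k ∨ k = 4 := by
  obtain ⟨x, hx, _⟩ := he
  by_cases h : 5 ≤ k
  · rw [R.f4n.2.2.2.2.1 k h] at hx
    exact hx.elim
  · by_cases h4 : k = 4
    · exact Or.inr h4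
    · exact Or.inl ⟨hk, by omega⟩

theorem nsl_norm_G (R : RowsM) {k : ℕ} (hk : 0 < k) (he : HasE (sosSums RG2 k)) :
    NrmN .G k ∨ k = 2 := by
  obtain ⟨x, hx, _⟩ := he
  by_cases h : 3 ≤ k
  · rw [R.g2s.2.2.2.2.2 k h] at hx
    exact hx.elim
  · by_cases h4 : k = 2
    · exact Or.inr h4
    · left
      show k = 1
      omega

/-! ## Coincidences and graphs -/

/-- multiplication by an integer -/
def mulH (n : ℕ) (c : ℤ) : Vec n →+ Vec n where
  toFun x := fun i => c * x i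
  map_zero' := by funext i; simp
  map_add' x y := by funext i; simp [mul_add]

theorem mulH_inj (n : ℕ) {c : ℤ} (hc : c ≠ 0) : Function.Injective (mulH n c) := by
  intro x y h
  funext i
  have h1 : c * x i = c * y i := congrFun h i
  exact mul_left_cancel₀ hc h1

theorem dp_mulH {n : ℕ} (c : ℤ) (x : Vec n) : dp (mulH n c x) (mulH n c x) = c * c * dp x x := by
  unfold dp
  rw [Finset.mul_sum]
  refine Finset.sum_congr rfl fun i _ => ?_
  show c * x i * (c * x i) = c * c * (x i * x i)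
  ring

theorem abs_le_sq (a : ℤ) : |a| ≤ a * a := by
  rcases abs_cases a with ⟨h, h1⟩ | ⟨h, h1⟩ <;> rw [h] <;> nlinarith

theorem iso_F44 (R : RowsM) : Iso (sosSums RF4 4) (VD 4 1) := by
  have h1 : (mulH 4 4 : Vec 4 → Vec 4) '' VD 4 1 = sosSums RF4 4 := by
    ext x
    rw [R.f4n.2.2.2.1 x]
    constructor
    · rintro ⟨u, hu, rfl⟩
      refine ⟨mulH 4 2 u, ?_, ?_, ?_⟩
      · rw [dp_mulH, hu.2.1]
        norm_num
      · intro i
        show 2 * u i % 2 = 0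
        omega
      · funext i
        show 4 * u i = 2 * u i + 2 * u i
        ring
    · rintro ⟨y, hy, he, rfl⟩
      have hu : y = mulH 4 2 (fun i => y i / 2) := by
        funext i
        show y i = 2 * (y i / 2)
        have := he i
        omega
      refine ⟨fun i => y i / 2, ?_, ?_⟩
      · rw [hu, dp_mulH] at hy
        have hy2 : dp (fun i => y i / 2) (fun i => y i / 2) = 2 := by omega
        have hl : l1 (fun i => y i / 2) ≤ dp (fun i => y i / 2) (fun i => y i / 2) := by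
          unfold l1 dp
          exact Finset.sum_le_sum fun i _ => abs_le_sq _
        rw [hy2] at hl
        refine ⟨fun i => ?_, by rw [hy2]; norm_num, hl.trans (by norm_num)⟩
        refine le_trans ?_ hl
        unfold l1
        exact Finset.single_le_sum (f := fun i => |y i / 2|) (fun j _ => abs_nonneg _) (mem_univ i)
      · funext i
        show 4 * (y i / 2) = y i + y i
        have := he i
        omega
  have h2 := gph_image (mulH 4 4) (mulH_inj 4 (by norm_num)) (VD 4 1)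
  rw [h1] at h2
  exact Iso.symm h2

theorem iso_G22 (R : RowsM) : Iso (sosSums RG2 2) (VA 3 1) := by
  have h1 : (mulH 3 2 : Vec 3 → Vec 3) '' VA 3 1 = sosSums RG2 2 := by
    ext x
    rw [R.g2s.2.2.2.2.1 x]
    constructor
    · rintro ⟨u, hu, rfl⟩
      refine ⟨u, hu.2.1, by rw [hu.2.2]; norm_num, ?_⟩
      funext i
      show 2 * u i = u i + u i
      ring
    · rintro ⟨y, hy, he, rfl⟩
      refine ⟨y, ⟨?_, hy, by rw [he]; norm_num⟩, ?_⟩
      · intro i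
        by_contra h3
        have h4 : 2 ≤ |y i| := by omega
        have h5 : y i * y i ≤ dp y y := by
          unfold dp
          exact Finset.single_le_sum (f := fun i => y i * y i) (fun j _ => mul_self_nonneg _)
            (mem_univ i)
        have h6 : |y i| * |y i| = y i * y i := abs_mul_abs_self _
        nlinarith
      · funext i
        show 2 * y i = y i + y i
        ring
  have h2 := gph_image (mulH 3 2) (mulH_inj 3 (by norm_num)) (VA 3 1)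
  rw [h1] at h2
  exact Iso.symm h2

theorem VB_self (R : RowsM) {n : ℕ} (h : n % 4 = 0) : VB n n = VD n n := R.bdn.1 n h

/-- halving for `F_4` -/
noncomputable def hv4 : Vec 4 →+ (Fin 4 → ℝ) where
  toFun x := fun i => (x i : ℝ) / 2
  map_zero' := by funext i; simp
  map_add' x y := by funext i; simp [add_div]

theorem hv4_inj : Function.Injective hv4 := by
  intro x y h
  funext i
  have h1 : (x i : ℝ) / 2 = (y i : ℝ) / 2 := congrFun h i
  have h2 : (x i : ℝ) = y i := by linarith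
  exact_mod_cast h2

/-- the strongly orthogonal sum graph is the graph on integer vectors -/
theorem NT.graph (R : RowsM) (t : NT) (k : ℕ) : Nonempty (sosGraph t.R k ≃g gph (t.V k)) := by
  cases t with
  | B n =>
    obtain ⟨e⟩ := gph_image (cvH n) (cvH_inj n) (VB n k)
    have h : (cvH n : Vec n → Fin n → ℝ) '' VB n k = sosSums (rootsB n) k := (R.vb1 n k).symm
    rw [h] at e
    exact ⟨e.symm⟩
  | C n =>
    obtain ⟨e⟩ := gph_image (cvH n) (cvH_inj n) (VC n k)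
    have h : (cvH n : Vec n → Fin n → ℝ) '' VC n k = sosSums (rootsC n) k := (R.vc1 n k).symm
    rw [h] at e
    exact ⟨e.symm⟩
  | F =>
    obtain ⟨e⟩ := gph_image hv4 hv4_inj (sosSums RF4 k)
    have h : (hv4 : Vec 4 → Fin 4 → ℝ) '' sosSums RF4 k = sosSums rootsF4 k := (R.f4s k).symm
    rw [h] at e
    exact ⟨e.symm⟩
  | G =>
    obtain ⟨e⟩ := gph_image (cvH 3) (cvH_inj 3) (sosSums RG2 k)
    have h : (cvH 3 : Vec 3 → Fin 3 → ℝ) '' sosSums RG2 k = sosSums rootsG2 k := (R.g2s.1 k).symm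
    rw [h] at e
    exact ⟨e.symm⟩

end Pool.Agent.SOL
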