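import Pool.Agent.helper1.SOL.AGD
import Pool.Agent.helper1.SOL.DG0
import Pool.Agent.helper1.SOL.DG1
import Pool.Agent.helper1.SOL.DG2
import Pool.Agent.helper1.SOL.DG2b
import Pool.Agent.helper1.SOL.DG86
import Pool.Agent.helper1.SOL.DG3

/-! The good edges, all cases (MP_cad530_co).

For `x` with `t` entries `±2` and `s` entries `±1` (and `4 t + s = 2 k`, `2 t + s ≤ n`). -/

namespace Pool.Agent.SOL

open Finset Pool.Agent.helper1.CAD

/-- there are two complementary good edges at `x` -/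
def GoodPair {n : ℕ} (V : Set (Vec n)) (x : Vec n) : Prop :=
  ∃ y ∈ V, x - y ∈ V ∧ Good V x y ∧ Good V x (x - y)

theorem row_AG {n k : ℕ} (hk : 1 ≤ k) (hn : 3 * k ≤ n) {x : Vec n} (hx : x ∈ VA n k) :
    GoodPair (VA n k) x := AGD hk hn hx

theorem row_DG0 {n r : ℕ} (hr : 1 ≤ r) (hn : 4 * r ≤ n) {x : Vec n} (hx : x ∈ VD n (4 * r))
    (ht : tw x = 2 * r) : GoodPair (VD n (4 * r)) x := DG0 hr hn hx ht

theorem row_DG1 {n r : ℕ} (hn : 4 * r + 2 ≤ n) (hn3 : 3 ≤ n) {x : Vec n}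
    (hx : x ∈ VD n (4 * r + 1)) (ht : tw x = 2 * r) : GoodPair (VD n (4 * r + 1)) x :=
  DG1 hn hn3 hx ht

theorem row_DG2a {n r : ℕ} (hn : 4 * r + 4 ≤ n) {x : Vec n} (hx : x ∈ VD n (4 * r + 2))
    (ht : tw x = 2 * r + 1) : GoodPair (VD n (4 * r + 2)) x := DG2 hn hx ht

theorem row_DG2 {n r : ℕ} (hr : 1 ≤ r) (hn : 4 * r + 4 ≤ n) {x : Vec n}
    (hx : x ∈ VD n (4 * r + 2)) (ht : tw x = 2 * r) : GoodPair (VD n (4 * r + 2)) x := by
  rcases Nat.lt_or_ge 1 r with h | h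
  · exact DG2b hn (by omega) hx ht
  · obtain rfl : r = 1 := by omega
    exact DG86 (by omega) hx (by omega)

theorem row_DG3 {n r : ℕ} (hn : 4 * r + 4 ≤ n) {x : Vec n} (hx : x ∈ VD n (4 * r + 3))
    (ht : tw x = 2 * r + 1) : GoodPair (VD n (4 * r + 3)) x := DG3 hn hx ht

end Pool.Agent.SOL
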