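import Pool.Agent.helper1.SOL.NEB10
import Pool.Agent.helper1.SOL.NEB11
import Pool.Agent.helper1.SOL.NEB30
import Pool.Agent.helper1.SOL.NEB31
import Pool.Agent.helper1.SOL.NEBi
import Pool.Agent.helper1.SOL.NEBii
import Pool.Agent.helper1.SOL.NEBiii
import Pool.Agent.helper1.SOL.NEBiv
import Pool.Agent.helper1.SOL.NEC1
import Pool.Agent.helper1.SOL.NEC2
import Pool.Agent.helper1.SOL.NEC3
import Pool.Agent.helper1.SOL.NEC4
import Pool.Agent.helper1.SOL.NEC5
import Pool.Agent.helper1.SOL.NGC0
import Pool.Agent.helper1.SOL.NGC1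
import Pool.Agent.helper1.SOL.NBS0
import Pool.Agent.helper1.SOL.NBS2

/-! The rows `PB`, `PC`, `GBS`, `GCC` (MP_cad530_co). -/

namespace Pool.Agent.SOL

open Finset

/-- an odd vertex without zeros and entries `±2` is isolated if `k` is odd -/
theorem RN_iso {n k : ℕ} {x : Vec n} (hk : k % 2 = 1) (h1 : ∀ i, x i = 1 ∨ x i = -1)
    (hd : dp x x = 2 * k - 1) (hx : x ∈ NI (VB n k)) : False := by
  have key : ∀ y : Vec n, dp y y = 2 * k → dp x y = k → False := by
    intro y hy hxy
    have h2 : (2 : ℤ) ∣ ∑ i, (y i * y i - x i * y i) := by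
      refine Finset.dvd_sum fun i _ => ?_
      rcases h1 i with h | h
      · rw [h]
        rcases Int.emod_two_eq_zero_or_one (y i) with h3 | h3
        · obtain ⟨c, hc⟩ : ∃ c, y i = 2 * c := ⟨y i / 2, by omega⟩
          exact ⟨c * (2 * c - 1), by rw [hc]; ring⟩
        · obtain ⟨c, hc⟩ : ∃ c, y i = 2 * c + 1 := ⟨y i / 2, by omega⟩
          exact ⟨c * (2 * c + 1), by rw [hc]; ring⟩
      · rw [h]
        rcases Int.emod_two_eq_zero_or_one (y i) with h3 | h3
        · obtain ⟨c, hc⟩ : ∃ c, y i = 2 * c := ⟨y i / 2, by omega⟩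
          exact ⟨c * (2 * c + 1), by rw [hc]; ring⟩
        · obtain ⟨c, hc⟩ : ∃ c, y i = 2 * c + 1 := ⟨y i / 2, by omega⟩
          exact ⟨(c + 1) * (2 * c + 1), by rw [hc]; ring⟩
    rw [Finset.sum_sub_distrib] at h2
    have h3 : ∑ i, y i * y i = 2 * k := hy
    have h4 : ∑ i, x i * y i = k := hxy
    rw [h3, h4] at h2
    omega
  obtain ⟨hxV, y, hy, hxy⟩ := hx
  have h5 := hxy.2.1
  rw [dp_sub_sub, hd] at h5
  rcases hy.2.1 with h6 | h6
  · refine key y h6 ?_
    rw [h6] at h5
    omega
  · rcases h5 with h5 | h5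
    · have h7 : dp (x - y) (x - y) = 2 * k := by
        rw [dp_sub_sub, hd]
        exact h5
      refine key (x - y) h7 ?_
      rw [h6] at h5
      have h8 : dp x (x - y) = dp x x - dp x y := by
        unfold dp
        rw [← Finset.sum_sub_distrib]
        exact Finset.sum_congr rfl fun i _ => by
          show x i * (x i - y i) = _
          ring
      rw [h8, hd]
      omega
    · rw [h6] at h5
      omega

theorem RN_ones {n : ℕ} {x : Vec n} (h : cnt x 1 = n) (i : Fin n) : x i = 1 ∨ x i = -1 := by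
  unfold cnt at h
  have h1 : (univ.filter fun i : Fin n => |x i| = 1) = univ := by
    apply Finset.eq_of_subset_of_card_le (Finset.filter_subset _ _)
    rw [h, Finset.card_univ, Fintype.card_fin]
  have h0 : i ∈ univ.filter fun i : Fin n => |x i| = 1 := by
    rw [h1]
    exact Finset.mem_univ i
  have h2 := (Finset.mem_filter.mp h0).2
  rcases abs_eq (by norm_num : (0 : ℤ) ≤ 1) |>.mp h2 with h3 | h3
  · left; exact h3
  · right; exact h3

theorem PB : PB_stmt := by
  intro n k x hg hx hd
  obtain ⟨hn, hk, hg⟩ := hg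
  have hb := hx.1.1
  have hl := hx.1.2.2
  obtain ⟨q2, q1, q0, qd, ql⟩ := HN_cnt hb
  rw [qd] at hd
  rw [ql] at hl
  set t := cnt x 2 with ht
  set s := cnt x 1 with hs
  rcases (by omega : s % 4 = 1 ∨ s % 4 = 3) with h1 | h1
  · rcases Nat.even_or_odd' t with ⟨a, h2 | h2⟩
    · obtain ⟨b, hb'⟩ : ∃ b, s = 4 * b + 1 := ⟨s / 4, by omega⟩
      have hkk : k = 4 * a + 2 * b + 1 := by omega
      subst hkk
      by_cases h3 : 3 * a + 4 * b + 2 ≤ n
      · exact EB10_row (by omega) (by omega) h3 hb (by omega) (by omega)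
      · exfalso
        refine RN_iso (by omega) (RN_ones ?_) (by rw [qd]; omega) hx
        omega
    · obtain ⟨b, hb'⟩ : ∃ b, s = 4 * b + 1 := ⟨s / 4, by omega⟩
      have hkk : k = 4 * a + 2 * b + 3 := by omega
      subst hkk
      exact EB11_row (by omega) (by omega) hb (by omega) (by omega)
  · rcases Nat.even_or_odd' t with ⟨a, h2 | h2⟩
    · obtain ⟨b, hb'⟩ : ∃ b, s = 4 * b + 3 := ⟨s / 4, by omega⟩
      have hkk : k = 4 * a + 2 * b + 2 := by omega
      subst hkk
      by_cases h3 : 3 * a + 4 * b + 5 ≤ n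
      · exact EB30_row (by omega) (by omega) h3 hb (by omega) (by omega)
      · rcases (by omega : (a = 0 ∧ n = 4 * b + 3) ∨ (a = 0 ∧ n = 4 * b + 4) ∨
          (a = 1 ∧ n = 4 * b + 7)) with ⟨h4, h5⟩ | ⟨h4, h5⟩ | ⟨h4, h5⟩
        · have := EBi_row (n := n) (b := b) h5 (by omega) hb (by omega) (by omega)
          have e : 4 * a + 2 * b + 2 = 2 * b + 2 := by omega
          rw [e]
          exact this
        · obtain ⟨b', hb2⟩ : ∃ b', b = b' + 1 := ⟨b - 1, by omega⟩
          have := EBii_row (n := n) (b := b') (by omega) hb (by omega) (by omega)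
          have e : 4 * a + 2 * b + 2 = 2 * b' + 4 := by omega
          rw [e]
          exact this
        · obtain ⟨b', hb2⟩ : ∃ b', b = b' + 1 := ⟨b - 1, by omega⟩
          have := EBiii_row (n := n) (b := b') (by omega) hb (by omega) (by omega)
          have e : 4 * a + 2 * b + 2 = 2 * b' + 8 := by omega
          rw [e]
          exact this
    · obtain ⟨b, hb'⟩ : ∃ b, s = 4 * b + 3 := ⟨s / 4, by omega⟩
      have hkk : k = 4 * a + 2 * b + 4 := by omega
      subst hkk
      by_cases h3 : 3 * a + 4 * b + 6 ≤ n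
      · exact EB31_row (by omega) (by omega) h3 hb (by omega) (by omega)
      · obtain ⟨b', hb2⟩ : ∃ b', b = b' + 1 := ⟨b - 1, by omega⟩
        have := EBiv_row (n := n) (b := b') (by omega) hb (by omega) (by omega)
        have e : 4 * a + 2 * b + 4 = 2 * b' + 6 := by omega
        rw [e]
        exact this

theorem PC : PC_stmt := by
  intro n k x hg hx hT
  obtain ⟨hn, hk, hg⟩ := hg
  have hb := hx.1
  have hl := hx.2
  obtain ⟨q2, q1, q0, qd, ql⟩ := HN_cnt hb
  rw [ql] at hl
  have hs0 : cnt x 1 ≠ 0 := by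
    intro h
    exact hT ⟨hb, by omega, h⟩
  set a := cnt x 2 with ha
  set s := cnt x 1 with hs
  obtain ⟨b, hb'⟩ : ∃ b, s = 2 * b := ⟨s / 2, by omega⟩
  obtain ⟨p, q, t, h1, h2, h3, h4⟩ : ∃ p q t : ℕ, a = 2 * p + q ∧ b = q + t ∧ (p = 0 ∨ t ≤ 1) ∧
      3 * p + 3 * q + 2 * t ≤ n := by
    by_cases hab : a ≤ b
    · exact ⟨0, a, b - a, by omega, by omega, Or.inl rfl, by omega⟩
    · rcases Nat.even_or_odd' (a - b) with ⟨c, h | h⟩
      · exact ⟨c, b, 0, by omega, by omega, Or.inr (by omega), by omega⟩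
      · exact ⟨c + 1, b - 1, 1, by omega, by omega, Or.inr (by omega), by omega⟩
  have hkk : k = 2 * p + 2 * q + t := by omega
  by_cases h5 : 3 * p + 3 * q + 2 * t + 1 ≤ n
  · by_cases h6 : 1 ≤ q
    · subst hkk
      exact EC1_row h6 h5 hb (by omega) (by omega)
    · have := EC2_row (n := n) (p := p) (t := t) (by omega) (by omega) hb (by omega) (by omega)
      have e : k = 2 * p + t := by omega
      rw [e]
      exact this
  · by_cases h6 : p = 0
    · by_cases h7 : 2 ≤ t
      · have := EC3_row (n := n) (q := q) (t := t) h7 (by omega) hb (by omega) (by omega)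
        have e : k = 2 * q + t := by omega
        rw [e]
        exact this
      · have := EC5_row (n := n) (r := q) (by omega) (by omega) hb (by omega) (by omega)
        have e : k = 2 * q + 1 := by omega
        rw [e]
        exact this
    · have := EC4_row (n := n) (p := p) (q := q) (by omega) (by omega) hb (by omega) (by omega)
      have e : k = 2 * p + 2 * q + 1 := by omega
      rw [e]
      exact this

theorem GBS : GBS_stmt := by
  intro κ hκ x hx
  rcases Nat.even_or_odd' κ with ⟨r, h | h⟩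
  · obtain ⟨r', rfl⟩ : ∃ r', r = r' + 1 := ⟨r - 1, by omega⟩
    have := BS0_row (n := 2 * κ + 1) (r := r') (by omega) hx.1 (by rw [hx.2.1]; omega) hx.2.2
    have e : 2 * κ = 4 * r' + 4 := by omega
    rw [show VB (2 * κ + 1) (2 * κ) = VB (2 * κ + 1) (4 * r' + 4) from by rw [← e]]
    exact this
  · have := BS2_row (n := 2 * κ + 1) (r := r) (by omega) (by omega) hx.1 (by rw [hx.2.1]; omega) hx.2.2
    have e : 2 * κ = 4 * r + 2 := by omega
    rw [show VB (2 * κ + 1) (2 * κ) = VB (2 * κ + 1) (4 * r + 2) from by rw [← e]]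
    exact this

theorem GCC : GCC_stmt := by
  intro n k hk h3 x hx
  rcases Nat.even_or_odd' k with ⟨r, h | h⟩
  · subst h
    exact GC0_row (by omega) (by omega) hx.1 hx.2.1 hx.2.2
  · subst h
    exact GC1_row (by omega) (by omega) hx.1 hx.2.1 hx.2.2

end Pool.Agent.SOL
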